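import Pool.Agent.LTG.Defs

set_option autoImplicit false

namespace Pool.Agent.LTG

open Matrix
open scoped ComplexOrder

namespace Alg1

variable {N : ℕ}

lemma inv_mul {T : Mat N} (hT : T.PosDef) : T⁻¹ * T = 1 :=
  Matrix.nonsing_inv_mul T ((Matrix.isUnit_iff_isUnit_det T).mp hT.isUnit)

lemma mul_inv {T : Mat N} (hT : T.PosDef) : T * T⁻¹ = 1 :=
  Matrix.mul_nonsing_inv T ((Matrix.isUnit_iff_isUnit_det T).mp hT.isUnit)

/-- `re tr (K G Kᴴ) ≥ 0` for positive semidefinite `G`. -/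
lemma rtr_conj_nonneg {G : Mat N} (hG : G.PosSemidef) (K : Mat N) :
    0 ≤ rtr (G * (Kᴴ * K)) := by
  have h1 : (Matrix.trace (G * (Kᴴ * K))) = Matrix.trace (K * G * Kᴴ) := by
    rw [← Matrix.mul_assoc, Matrix.trace_mul_comm, Matrix.mul_assoc]
  have h2 : (K * G * Kᴴ).PosSemidef := hG.mul_mul_conjTranspose_same K
  have h3 := h2.trace_nonneg
  unfold rtr
  rw [h1]
  exact (Complex.nonneg_iff.mp h3).1

lemma rtr_conj_nonneg' (K : Mat N) : 0 ≤ rtr (Kᴴ * K) := by
  have h := rtr_conj_nonneg (Matrix.PosSemidef.one (n := Fin N) (R := ℂ)) K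
  simpa using h

/-- The commutator term. -/
lemma comm_herm {T Φ : Mat N} (hT : T.IsHermitian) (hΦ : Φ.IsHermitian) :
    (Φ * T - T * Φ)ᴴ = T * Φ - Φ * T := by
  rw [Matrix.conjTranspose_sub, Matrix.conjTranspose_mul, Matrix.conjTranspose_mul,
    hT.eq, hΦ.eq]

lemma four_trace_A {T Φ F E G : Mat N} (hGT : G * T = 1) (hTG : T * G = 1)
    (hF : (2 : ℂ) • F = Φ * T + T * Φ) (hE : E = T * T + T * Φ * (Φ * T)) :
    4 * Matrix.trace (G * (E - F * F)) =
      4 * Matrix.trace T - Matrix.trace (G * ((T * Φ - Φ * T) * (Φ * T - T * Φ))) := by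
  have hFF : (4 : ℂ) • (F * F) = (Φ * T + T * Φ) * (Φ * T + T * Φ) := by
    rw [← hF, Matrix.smul_mul, Matrix.mul_smul, smul_smul]
    norm_num
  have h1 : 4 * Matrix.trace (G * (E - F * F)) =
      4 * Matrix.trace (G * E) - Matrix.trace (G * ((Φ * T + T * Φ) * (Φ * T + T * Φ))) := by
    rw [← hFF, Matrix.mul_sub, Matrix.trace_sub, Matrix.mul_smul, Matrix.trace_smul, smul_eq_mul]
    ring
  -- monomials
  have m0 : Matrix.trace (G * (T * T)) = Matrix.trace T := by
    rw [← Matrix.mul_assoc, hGT, Matrix.one_mul]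
  have m1 : Matrix.trace (G * (Φ * T * (Φ * T))) = Matrix.trace (Φ * T * Φ) := by
    have : G * (Φ * T * (Φ * T)) = (G * (Φ * T * Φ)) * T := by
      simp only [Matrix.mul_assoc]
    rw [this, Matrix.trace_mul_comm, ← Matrix.mul_assoc, hTG, Matrix.one_mul]
  have m2 : Matrix.trace (G * (T * Φ * (Φ * T))) = Matrix.trace (Φ * T * Φ) := by
    have : G * (T * Φ * (Φ * T)) = (G * T) * (Φ * (Φ * T)) := by
      simp only [Matrix.mul_assoc]
    rw [this, hGT, Matrix.one_mul, Matrix.trace_mul_comm]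
  have m3 : Matrix.trace (G * (T * Φ * (T * Φ))) = Matrix.trace (Φ * T * Φ) := by
    have : G * (T * Φ * (T * Φ)) = (G * T) * (Φ * T * Φ) := by
      simp only [Matrix.mul_assoc]
    rw [this, hGT, Matrix.one_mul]
  rw [h1, hE]
  simp only [Matrix.mul_add, Matrix.add_mul, Matrix.mul_sub, Matrix.sub_mul, Matrix.trace_add,
    Matrix.trace_sub]
  rw [m0, m1, m2, m3]
  ring

lemma four_trace_B {T Φ F E : Mat N}
    (hF : (2 : ℂ) • F = Φ * T + T * Φ) (hE : E = T * T + T * Φ * (Φ * T)) :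
    4 * Matrix.trace (E - F * F) =
      4 * Matrix.trace (T * T) + Matrix.trace ((T * Φ - Φ * T) * (Φ * T - T * Φ)) := by
  have hFF : (4 : ℂ) • (F * F) = (Φ * T + T * Φ) * (Φ * T + T * Φ) := by
    rw [← hF, Matrix.smul_mul, Matrix.mul_smul, smul_smul]
    norm_num
  have h1 : 4 * Matrix.trace (E - F * F) =
      4 * Matrix.trace E - Matrix.trace ((Φ * T + T * Φ) * (Φ * T + T * Φ)) := by
    rw [← hFF, Matrix.trace_sub, Matrix.trace_smul, smul_eq_mul]
    ring
  have m1 : Matrix.trace (T * Φ * (Φ * T)) = Matrix.trace (Φ * T * (T * Φ)) := by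
    rw [Matrix.trace_mul_comm]
  have m2 : Matrix.trace (T * Φ * (T * Φ)) = Matrix.trace (Φ * T * (Φ * T)) := by
    have e1 : T * Φ * (T * Φ) = T * (Φ * T * Φ) := by simp only [Matrix.mul_assoc]
    have e2 : Φ * T * (Φ * T) = (Φ * T * Φ) * T := by simp only [Matrix.mul_assoc]
    rw [e1, e2, Matrix.trace_mul_comm]
  rw [h1, hE]
  simp only [Matrix.mul_add, Matrix.add_mul, Matrix.mul_sub, Matrix.sub_mul, Matrix.trace_add,
    Matrix.trace_sub]
  rw [m1, m2]
  ring

end Alg1

open Alg1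

theorem algA : AlgA := by
  intro N T Φ F E h
  obtain ⟨hT, hΦ, hF, hE⟩ := h
  have hid := four_trace_A (inv_mul hT) (mul_inv hT) hF hE
  have hnn := rtr_conj_nonneg hT.inv.posSemidef (Φ * T - T * Φ)
  rw [comm_herm hT.isHermitian hΦ] at hnn
  have hre := congrArg Complex.re hid
  unfold rtr at *
  simp only [Complex.sub_re, Complex.mul_re, Complex.re_ofNat, Complex.im_ofNat] at hre
  linarith

theorem algB : AlgB := by
  intro N T Φ F E h
  obtain ⟨hT, hΦ, hF, hE⟩ := h
  have hid := four_trace_B hF hE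
  have hnn := rtr_conj_nonneg' (Φ * T - T * Φ)
  rw [comm_herm hT.isHermitian hΦ] at hnn
  have hre := congrArg Complex.re hid
  unfold rtr at *
  simp only [Complex.add_re, Complex.mul_re, Complex.re_ofNat, Complex.im_ofNat] at hre
  linarith

theorem algH : AlgH := by
  intro N T B hT hB
  have hnn := rtr_conj_nonneg hT.inv.posSemidef (T - B)
  have hH : (T - B)ᴴ = T - B := by
    rw [Matrix.conjTranspose_sub, hT.isHermitian.eq, hB.eq]
  rw [hH] at hnn
  have hGT := inv_mul hT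
  have hTG := mul_inv hT
  have e : Matrix.trace (T⁻¹ * ((T - B) * (T - B))) =
      Matrix.trace T - 2 * Matrix.trace B + Matrix.trace (T⁻¹ * (B * B)) := by
    have m0 : Matrix.trace (T⁻¹ * (T * T)) = Matrix.trace T := by
      rw [← Matrix.mul_assoc, hGT, Matrix.one_mul]
    have m1 : Matrix.trace (T⁻¹ * (T * B)) = Matrix.trace B := by
      rw [← Matrix.mul_assoc, hGT, Matrix.one_mul]
    have m2 : Matrix.trace (T⁻¹ * (B * T)) = Matrix.trace B := by
      rw [← Matrix.mul_assoc, Matrix.trace_mul_comm, ← Matrix.mul_assoc, hTG, Matrix.one_mul]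
    simp only [Matrix.mul_sub, Matrix.sub_mul, Matrix.trace_sub]
    rw [m0, m1, m2]
    ring
  have hre := congrArg Complex.re e
  unfold rtr at *
  simp only [Complex.add_re, Complex.sub_re, Complex.mul_re, Complex.re_ofNat,
    Complex.im_ofNat] at hre
  linarith

end Pool.Agent.LTG
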