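import Pool.Agent.LTG.Defs

/-!
# (ALG2) injectivity of the linearised pencil equations, uniqueness, traces
-/

set_option autoImplicit false

namespace Pool.Agent.LTG

open MeasureTheory Matrix Set Filter Topology
open scoped ComplexOrder

namespace A2

variable {N : ℕ}

theorem rtr_add (A B : Mat N) : rtr (A + B) = rtr A + rtr B := by
  simp [rtr, Matrix.trace_add]

theorem rtr_sub (A B : Mat N) : rtr (A - B) = rtr A - rtr B := by
  simp [rtr, Matrix.trace_sub]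

theorem rtr_neg (A : Mat N) : rtr (-A) = - rtr A := by
  simp [rtr, Matrix.trace_neg]

theorem rtr_comm (A B : Mat N) : rtr (A * B) = rtr (B * A) := by
  simp [rtr, Matrix.trace_mul_comm A B]

theorem rtr_zero : rtr (0 : Mat N) = 0 := by simp [rtr]

theorem rtr_nonneg {G : Mat N} (hG : G.PosDef) (M : Mat N) : 0 ≤ rtr (Mᴴ * G * M) := by
  have h := (hG.posSemidef.conjTranspose_mul_mul_same M).trace_nonneg
  exact (Complex.le_def.1 h).1

theorem eq_zero_of_rtr {G : Mat N} (hG : G.PosDef) (M : Mat N) (h0 : rtr (Mᴴ * G * M) ≤ 0) :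
    M = 0 := by
  have hp := hG.posSemidef.conjTranspose_mul_mul_same M
  have h1 : (Mᴴ * G * M).trace = 0 := by
    have h := hp.trace_nonneg
    have h2 := Complex.le_def.1 h
    apply Complex.ext
    · exact le_antisymm h0 h2.1
    · exact h2.2.symm
  have h2 : Mᴴ * G * M = 0 := hp.trace_eq_zero_iff.1 h1
  have h3 : ∀ x : Fin N → ℂ, M *ᵥ x = 0 := by
    intro x
    by_contra hne
    have h4 := hG.dotProduct_mulVec_pos hne
    have h5 : star (M *ᵥ x) ⬝ᵥ (G *ᵥ (M *ᵥ x)) = star x ⬝ᵥ ((Mᴴ * G * M) *ᵥ x) := by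
      rw [Matrix.star_mulVec, ← Matrix.dotProduct_mulVec, Matrix.mulVec_mulVec, Matrix.mulVec_mulVec,
        Matrix.mul_assoc]
    rw [h5, h2, Matrix.zero_mulVec, dotProduct_zero] at h4
    exact lt_irrefl _ h4
  ext i j
  have := congrFun (h3 (Pi.single j 1)) i
  simpa using this

theorem inv_mul {T : Mat N} (hT : T.PosDef) : T⁻¹ * T = 1 :=
  Matrix.nonsing_inv_mul T ((Matrix.isUnit_iff_isUnit_det T).1 hT.isUnit)

theorem mul_inv {T : Mat N} (hT : T.PosDef) : T * T⁻¹ = 1 :=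
  Matrix.mul_nonsing_inv T ((Matrix.isUnit_iff_isUnit_det T).1 hT.isUnit)

end A2

open A2

theorem algC : AlgC := by
  intro N T Φ τ φ hT hΦ hτ hφ e1 e2
  set G := T⁻¹ with hGdef
  have hG : G.PosDef := hT.inv
  have GT : G * T = 1 := inv_mul hT
  have TG : T * G = 1 := mul_inv hT
  have hTh := hT.isHermitian.eq
  have hGh := hG.isHermitian.eq
  set k := Φ * τ + φ * T with hk
  have hks : kᴴ = τ * Φ + T * φ := by
    rw [hk, conjTranspose_add, conjTranspose_mul, conjTranspose_mul, hΦ.eq, hτ.eq, hφ.eq, hTh]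
  have hks2 : kᴴ = -k := by
    rw [hks]
    have : τ * Φ + T * φ + k = 0 := by rw [← e1]; abel
    exact eq_neg_of_add_eq_zero_left this
  have f1 : τ * Φ + T * φ = -k := by rw [← hks, hks2]
  -- `kG + Gk = ΦτG - GτΦ`
  have a1 : k * G = Φ * τ * G + φ := by
    rw [hk, add_mul, Matrix.mul_assoc φ, TG, mul_one]
  have a2 : G * k = -(G * τ * Φ) - φ := by
    have : G * (-k) = G * τ * Φ + φ := by
      rw [← f1, mul_add, ← Matrix.mul_assoc, ← Matrix.mul_assoc, GT, one_mul]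
    rw [mul_neg] at this
    rw [← neg_neg (G * k), this]
    abel
  have e3 : G * τ + τ * G = G * k * Φ - Φ * k * G := by
    have h : G * (τ * T + T * τ + (τ * Φ + T * φ) * (Φ * T) + T * Φ * k) * G = 0 := by
      rw [e2]; simp
    rw [f1] at h
    have h2 : G * (τ * T + T * τ + (-k) * (Φ * T) + T * Φ * k) * G
        = G * τ * (T * G) + (G * T) * τ * G - G * k * Φ * (T * G) + (G * T) * Φ * k * G := by
      noncomm_ring
    rw [h2, TG, GT, mul_one, one_mul, mul_one, one_mul] at h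
    have h3 : G * τ + τ * G - (G * k * Φ - Φ * k * G) = 0 := by rw [← h]; abel
    exact sub_eq_zero.1 h3
  have t1 : rtr ((G * τ + τ * G) * τ) = 2 * rtr (τᴴ * G * τ) := by
    rw [add_mul, rtr_add, hτ.eq, rtr_comm (G * τ) τ, ← Matrix.mul_assoc]
    ring
  have t2 : rtr ((G * k * Φ - Φ * k * G) * τ) = rtr (k * (k * G + G * k)) := by
    have : k * (k * G + G * k) = k * (Φ * τ * G) - k * (G * τ * Φ) := by
      have h : k * G + G * k = Φ * τ * G + φ + (-(G * τ * Φ) - φ) := by rw [← a1, ← a2]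
      rw [h]
      noncomm_ring
    rw [this, sub_mul, rtr_sub, rtr_sub]
    congr 1
    · rw [show G * k * Φ * τ = G * (k * (Φ * τ)) by noncomm_ring, rtr_comm]
      congr 1
      noncomm_ring
    · rw [show Φ * k * G * τ = Φ * (k * G * τ) by noncomm_ring, rtr_comm]
      congr 1
      noncomm_ring
  have t3 : rtr (k * (k * G + G * k)) = - (2 * rtr (kᴴ * G * k)) := by
    rw [mul_add, rtr_add, hks2]
    have u1 : rtr (k * (k * G)) = rtr (k * (G * k)) := by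
      rw [rtr_comm k (k * G), ← Matrix.mul_assoc k G k]
    have u2 : rtr (-k * G * k) = - rtr (k * (G * k)) := by
      rw [← rtr_neg]
      congr 1
      noncomm_ring
    rw [u1, u2]
    ring
  have key : rtr (τᴴ * G * τ) + rtr (kᴴ * G * k) = 0 := by
    have := t1
    rw [e3, t2, t3] at this
    linarith
  have n1 := rtr_nonneg hG τ
  have n2 := rtr_nonneg hG k
  have z1 : τ = 0 := eq_zero_of_rtr hG τ (by linarith)
  have z2 : k = 0 := eq_zero_of_rtr hG k (by linarith)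
  refine ⟨z1, ?_⟩
  rw [z2, z1] at a1
  simpa using a1.symm

/-- the comparison of two solutions -/
theorem A2.gen {N : ℕ} (T Φ T₁ Φ₁ : Mat N) (hT : T.PosDef) (hΦ : Φ.IsHermitian)
    (hT1 : T₁.PosDef) (hΦ1 : Φ₁.IsHermitian)
    (h : T * T + T * Φ * (Φ * T) = T₁ * T₁ + T₁ * Φ₁ * (Φ₁ * T₁))
    (hs : Φ * T + T * Φ = Φ₁ * T₁ + T₁ * Φ₁) :
    rtr ((T - T₁)ᴴ * T⁻¹ * (T - T₁)) + rtr ((Φ₁ * T₁ - Φ * T)ᴴᴴ * T⁻¹ * (Φ₁ * T₁ - Φ * T)ᴴ)
      = 2 * rtr T - 2 * rtr T₁ := by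
  set η := Φ₁ * T₁ - Φ * T with hη
  have hTh := hT.isHermitian.eq
  have hT1h := hT1.isHermitian.eq
  have GT : T⁻¹ * T = 1 := inv_mul hT
  have TG : T * T⁻¹ = 1 := mul_inv hT
  have hA1 : Φ₁ * T₁ = Φ * T + η := by rw [hη]; abel
  have hA2 : T₁ * Φ₁ = T * Φ - η := by
    have : T₁ * Φ₁ = Φ₁ * T₁ + T₁ * Φ₁ - Φ₁ * T₁ := by abel
    rw [this, ← hs, hη]
    abel
  have h1 : T₁ * T₁ = T * T - (T * Φ * η - η * (Φ * T) - η * η) := by
    rw [hA1, hA2] at h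
    have : T₁ * T₁ = T * T + T * Φ * (Φ * T) - (T * Φ - η) * (Φ * T + η) := by
      rw [h]; abel
    rw [this]
    noncomm_ring
  have hηη : ηᴴ = -η := by
    have : ηᴴ = T₁ * Φ₁ - T * Φ := by
      rw [hη, conjTranspose_sub, conjTranspose_mul, conjTranspose_mul, hΦ.eq, hTh, hΦ1.eq, hT1h]
    rw [this, hA2]
    abel
  have e1 : rtr (T⁻¹ * (T₁ * T₁)) = rtr T - rtr (ηᴴᴴ * T⁻¹ * ηᴴ) := by
    rw [conjTranspose_conjTranspose, hηη, h1]
    have h2 : T⁻¹ * (T * T - (T * Φ * η - η * (Φ * T) - η * η)) =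
        (T⁻¹ * T) * T - (T⁻¹ * T) * Φ * η + T⁻¹ * (η * (Φ * T)) + T⁻¹ * (η * η) := by
      noncomm_ring
    rw [h2, GT, one_mul, one_mul, rtr_add, rtr_add, rtr_sub]
    have h3 : rtr (T⁻¹ * (η * (Φ * T))) = rtr (Φ * η) := by
      rw [rtr_comm, show η * (Φ * T) * T⁻¹ = η * Φ * (T * T⁻¹) by noncomm_ring, TG, mul_one,
        rtr_comm]
    have h4 : rtr (T⁻¹ * (η * η)) = - rtr (η * T⁻¹ * -η) := by
      rw [← rtr_neg, show -(η * T⁻¹ * -η) = η * (T⁻¹ * η) by noncomm_ring,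
        rtr_comm η (T⁻¹ * η), Matrix.mul_assoc]
    rw [h3, h4]
    ring
  have e2 : rtr ((T - T₁)ᴴ * T⁻¹ * (T - T₁)) = rtr T - 2 * rtr T₁ + rtr (T⁻¹ * (T₁ * T₁)) := by
    rw [conjTranspose_sub, hTh, hT1h]
    have : (T - T₁) * T⁻¹ * (T - T₁) = (T * T⁻¹) * T - (T * T⁻¹) * T₁ - T₁ * (T⁻¹ * T)
        + T₁ * (T⁻¹ * T₁) := by
      noncomm_ring
    rw [this, TG, GT, one_mul, one_mul, mul_one, rtr_add, rtr_sub, rtr_sub,
      rtr_comm T₁ (T⁻¹ * T₁), Matrix.mul_assoc]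
    ring
  rw [e2, e1]
  ring

theorem algD : AlgD := by
  intro N T Φ T₁ Φ₁ F E ⟨hT, hΦ, hF, hE⟩ ⟨hT1, hΦ1, hF1, hE1⟩
  have hG : (T⁻¹).PosDef := hT.inv
  have hG1 : (T₁⁻¹).PosDef := hT1.inv
  have h1 := A2.gen T Φ T₁ Φ₁ hT hΦ hT1 hΦ1 (by rw [← hE, ← hE1]) (by rw [← hF, ← hF1])
  have h2 := A2.gen T₁ Φ₁ T Φ hT1 hΦ1 hT hΦ (by rw [← hE, ← hE1]) (by rw [← hF, ← hF1])
  have n1 := rtr_nonneg hG (T - T₁)
  have n2 := rtr_nonneg hG (Φ₁ * T₁ - Φ * T)ᴴ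
  have n3 := rtr_nonneg hG1 (T₁ - T)
  have n4 := rtr_nonneg hG1 (Φ * T - Φ₁ * T₁)ᴴ
  have z1 : T - T₁ = 0 := eq_zero_of_rtr hG _ (by linarith)
  have z2 : (Φ₁ * T₁ - Φ * T)ᴴ = 0 := eq_zero_of_rtr hG _ (by linarith)
  have hTT : T = T₁ := sub_eq_zero.1 z1
  refine ⟨hTT, ?_⟩
  have z3 : Φ₁ * T₁ - Φ * T = 0 := by
    rw [← conjTranspose_conjTranspose (Φ₁ * T₁ - Φ * T), z2, conjTranspose_zero]
  have z4 : Φ₁ * T = Φ * T := by
    have := sub_eq_zero.1 z3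
    rwa [← hTT] at this
  have TG : T * T⁻¹ = 1 := mul_inv hT
  calc Φ = Φ * T * T⁻¹ := by rw [Matrix.mul_assoc, TG, mul_one]
    _ = Φ₁ * T * T⁻¹ := by rw [z4]
    _ = Φ₁ := by rw [Matrix.mul_assoc, TG, mul_one]

theorem linT : LinT := by
  intro N T Φ τ φ E' hT hΦ hτ hφ e1 hE
  have GT : T⁻¹ * T = 1 := inv_mul hT
  have TG : T * T⁻¹ = 1 := mul_inv hT
  set k := Φ * τ + φ * T with hk
  have f1 : τ * Φ + T * φ = -k := by
    have : τ * Φ + T * φ + k = 0 := by rw [← e1]; abel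
    exact eq_neg_of_add_eq_zero_left this
  rw [hE, f1]
  have h2 : T⁻¹ * (τ * T + T * τ + -k * (Φ * T) + T * Φ * k) =
      T⁻¹ * (τ * T) + (T⁻¹ * T) * τ - T⁻¹ * (k * Φ * T) + (T⁻¹ * T) * Φ * k := by
    noncomm_ring
  rw [h2, GT, one_mul, one_mul, rtr_add, rtr_sub, rtr_add]
  have h3 : rtr (T⁻¹ * (τ * T)) = rtr τ := by
    rw [rtr_comm, Matrix.mul_assoc, TG, mul_one]
  have h4 : rtr (T⁻¹ * (k * Φ * T)) = rtr (Φ * k) := by
    rw [rtr_comm, Matrix.mul_assoc, TG, mul_one, rtr_comm]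
  rw [h3, h4]
  ring

theorem linP : LinP := by
  intro N T Φ τ φ F' hT hΦ hτ hφ hF e2
  set G := T⁻¹ with hGdef
  have GT : G * T = 1 := inv_mul hT
  have TG : T * G = 1 := mul_inv hT
  have hS : (1 + Φ * Φ).PosDef := by
    have h1 : (Φ * Φ).PosSemidef := by
      have := Matrix.posSemidef_conjTranspose_mul_self Φ
      rwa [hΦ.eq] at this
    exact Matrix.PosDef.one.add_posSemidef h1
  set R := (1 + Φ * Φ)⁻¹ with hR
  have RS : R * (1 + Φ * Φ) = 1 := inv_mul hS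
  have SR : (1 + Φ * Φ) * R = 1 := mul_inv hS
  have RP : R * (Φ * Φ) = 1 - R := by
    rw [← RS]; noncomm_ring
  have comm : R * Φ = Φ * R := by
    have h1 : (1 + Φ * Φ) * Φ = Φ * (1 + Φ * Φ) := by noncomm_ring
    calc R * Φ = R * Φ * ((1 + Φ * Φ) * R) := by rw [SR, mul_one]
      _ = R * (Φ * (1 + Φ * Φ)) * R := by noncomm_ring
      _ = R * ((1 + Φ * Φ) * Φ) * R := by rw [h1]
      _ = (R * (1 + Φ * Φ)) * Φ * R := by noncomm_ring
      _ = Φ * R := by rw [RS, one_mul]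
  -- sandwich
  have e3 : G * τ * (1 + Φ * Φ) + (1 + Φ * Φ) * τ * G + φ * Φ + Φ * φ = 0 := by
    have h : G * (τ * T + T * τ + (τ * Φ + T * φ) * (Φ * T) + T * Φ * (Φ * τ + φ * T)) * G = 0 := by
      rw [e2]; simp
    have h2 : G * (τ * T + T * τ + (τ * Φ + T * φ) * (Φ * T) + T * Φ * (Φ * τ + φ * T)) * G
        = G * τ * (T * G) + (G * T) * τ * G + G * τ * Φ * Φ * (T * G) + (G * T) * φ * Φ * (T * G)
          + (G * T) * Φ * Φ * τ * G + (G * T) * Φ * φ * (T * G) := by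
      noncomm_ring
    rw [h2, TG, GT] at h
    rw [← h]
    noncomm_ring
  have t1 : rtr (G * τ * (1 + Φ * Φ) * (R * Φ)) = rtr (Φ * (G * τ)) := by
    rw [show G * τ * (1 + Φ * Φ) * (R * Φ) = G * τ * ((1 + Φ * Φ) * R) * Φ by noncomm_ring, SR,
      mul_one, rtr_comm]
  have t2 : rtr ((1 + Φ * Φ) * τ * G * (R * Φ)) = rtr (Φ * (τ * G)) := by
    rw [comm, show (1 + Φ * Φ) * τ * G * (Φ * R) = (1 + Φ * Φ) * (τ * G * Φ * R) by noncomm_ring,
      rtr_comm, show τ * G * Φ * R * (1 + Φ * Φ) = τ * G * Φ * (R * (1 + Φ * Φ)) by noncomm_ring, RS,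
      mul_one, rtr_comm]
  have t3 : rtr (φ * Φ * (R * Φ)) = rtr φ - rtr (R * φ) := by
    rw [show φ * Φ * (R * Φ) = φ * ((Φ * R) * Φ) by noncomm_ring, ← comm,
      show R * Φ * Φ = R * (Φ * Φ) by noncomm_ring, RP, mul_sub, mul_one, rtr_sub, rtr_comm φ R]
  have t4 : rtr (Φ * φ * (R * Φ)) = rtr φ - rtr (R * φ) := by
    rw [show Φ * φ * (R * Φ) = Φ * (φ * (R * Φ)) by noncomm_ring, rtr_comm,
      show φ * (R * Φ) * Φ = φ * (R * (Φ * Φ)) by noncomm_ring, RP, mul_sub, mul_one, rtr_sub,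
      rtr_comm φ R]
  have t0 : rtr ((G * τ * (1 + Φ * Φ) + (1 + Φ * Φ) * τ * G + φ * Φ + Φ * φ) * (R * Φ)) = 0 := by
    rw [e3, zero_mul, rtr_zero]
  rw [add_mul, add_mul, add_mul, rtr_add, rtr_add, rtr_add, t1, t2, t3, t4] at t0
  have s1 : 2 * rtr (G * F') = rtr (G * ((2 : ℂ) • F')) := by
    rw [Matrix.mul_smul]
    simp [rtr, Matrix.trace_smul]
  have s2 : rtr (G * ((2 : ℂ) • F')) = 2 * rtr φ + rtr (Φ * (τ * G)) + rtr (Φ * (G * τ)) := by
    rw [hF]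
    have : G * (Φ * τ + φ * T + τ * Φ + T * φ) = G * (Φ * τ) + G * (φ * T) + G * τ * Φ + (G * T) * φ := by
      noncomm_ring
    rw [this, GT, one_mul, rtr_add, rtr_add, rtr_add]
    have u1 : rtr (G * (Φ * τ)) = rtr (Φ * (τ * G)) := by rw [rtr_comm, Matrix.mul_assoc]
    have u2 : rtr (G * (φ * T)) = rtr φ := by rw [rtr_comm, Matrix.mul_assoc, TG, mul_one]
    have u3 : rtr (G * τ * Φ) = rtr (Φ * (G * τ)) := by rw [rtr_comm]
    rw [u1, u2, u3]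
    ring
  linarith

end Pool.Agent.LTG
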