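import Pool.Agent.LTG.Defs

/-!
# (1g) the a priori bound `μ tr T⁻¹ ≤ tr T` (MP_4c716f_mp; mathematics: helper45, Lean: helper65)
-/

set_option autoImplicit false

namespace Pool.Agent.LTG

open MeasureTheory Matrix Set Filter Topology
open scoped ComplexOrder

namespace Alg3

open scoped MatrixOrder in
open scoped Matrix.Norms.L2Operator in
theorem exists_sq {N : ℕ} {P : Mat N} (hP : P.PosSemidef) : ∃ B : Mat N, P = Bᴴ * B := by
  obtain ⟨B, hB⟩ := CStarAlgebra.nonneg_iff_eq_star_mul_self.mp hP.nonneg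
  exact ⟨B, hB⟩

/-- The real trace of a product of two positive semidefinite matrices is nonnegative. -/
theorem rtr_mul_nonneg {N : ℕ} {G P : Mat N} (hG : G.PosSemidef) (hP : P.PosSemidef) :
    0 ≤ rtr (G * P) := by
  obtain ⟨B, hB⟩ := exists_sq hP
  have h1 : Matrix.trace (G * P) = Matrix.trace (B * G * Bᴴ) := by
    rw [hB, ← Matrix.mul_assoc, Matrix.trace_mul_comm, ← Matrix.mul_assoc]
  have h2 := (hG.mul_mul_conjTranspose_same B).trace_nonneg
  unfold rtr
  rw [h1]
  exact (Complex.le_def.mp h2).1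

/-- Lyapunov equation `C H + H C = 2 F`. -/
theorem lyap {N : ℕ} {H F : Mat N} (hH : H.PosDef) (hF : F.IsHermitian) :
    ∃ C : Mat N, C.IsHermitian ∧ C * H + H * C = (2 : ℂ) • F := by
  classical
  set hh := hH.isHermitian
  set U : Mat N := (hh.eigenvectorUnitary : Mat N) with hU
  have hUU : star U * U = 1 := Unitary.coe_star_mul_self _
  have hUU' : U * star U = 1 := Unitary.coe_mul_star_self _
  have hsp : H = U * diagonal (fun i => ((hh.eigenvalues i : ℝ) : ℂ)) * star U := by
    have := hh.spectral_theorem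
    rw [Unitary.conjStarAlgAut_apply] at this
    exact this
  have hpos : ∀ i, 0 < hh.eigenvalues i := fun i => hH.eigenvalues_pos i
  set D : Mat N := diagonal (fun i => ((hh.eigenvalues i : ℝ) : ℂ)) with hD
  set F' : Mat N := star U * F * U with hF'
  have hF'h : F'.IsHermitian := by
    show F'ᴴ = F'
    rw [hF']
    simp only [star_eq_conjTranspose, conjTranspose_mul, conjTranspose_conjTranspose, hF.eq]
    rw [Matrix.mul_assoc]
  set C' : Mat N := fun i j =>
    2 * F' i j / (((hh.eigenvalues i + hh.eigenvalues j : ℝ)) : ℂ) with hC'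
  have hC'h : C'.IsHermitian := by
    ext i j
    have h1 := congrFun (congrFun hF'h i) j
    simp only [conjTranspose_apply] at h1
    simp only [conjTranspose_apply, hC', star_div₀, star_mul', h1]
    have h2 : star (2 : ℂ) = 2 := by
      show (starRingEnd ℂ) 2 = 2
      exact Complex.conj_ofNat 2
    have h3 : star (((hh.eigenvalues j + hh.eigenvalues i : ℝ)) : ℂ) =
        (((hh.eigenvalues i + hh.eigenvalues j : ℝ)) : ℂ) := by
      rw [add_comm]
      exact Complex.conj_ofReal _
    rw [h2, h3]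
  have hC'D : C' * D + D * C' = (2 : ℂ) • F' := by
    ext i j
    simp only [Matrix.add_apply, hD, Matrix.mul_diagonal, Matrix.diagonal_mul, Matrix.smul_apply,
      smul_eq_mul, hC']
    have h4 : (((hh.eigenvalues i + hh.eigenvalues j : ℝ)) : ℂ) ≠ 0 := by
      have := add_pos (hpos i) (hpos j)
      exact_mod_cast this.ne'
    rw [div_mul_eq_mul_div, mul_div_assoc', ← add_div, div_eq_iff h4]
    push_cast
    ring
  refine ⟨U * C' * star U, ?_, ?_⟩
  · show (U * C' * star U)ᴴ = _
    simp only [star_eq_conjTranspose, conjTranspose_mul, conjTranspose_conjTranspose, hC'h.eq]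
    rw [Matrix.mul_assoc]
  · have e1 : U * C' * star U * H = U * (C' * D) * star U := by
      conv_lhs => rw [hsp]
      calc U * C' * star U * (U * D * star U) = U * C' * (star U * U) * D * star U := by
            simp only [Matrix.mul_assoc]
        _ = _ := by rw [hUU, Matrix.mul_one]; simp only [Matrix.mul_assoc]
    have e2 : H * (U * C' * star U) = U * (D * C') * star U := by
      conv_lhs => rw [hsp]
      calc (U * D * star U) * (U * C' * star U) = U * D * (star U * U) * C' * star U := by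
            simp only [Matrix.mul_assoc]
        _ = _ := by rw [hUU, Matrix.mul_one]; simp only [Matrix.mul_assoc]
    have e3 : F = U * F' * star U := by
      rw [hF']
      calc F = (U * star U) * F * (U * star U) := by rw [hUU']; simp
        _ = _ := by simp only [Matrix.mul_assoc]
    rw [e1, e2, ← Matrix.add_mul, ← Matrix.mul_add, hC'D]
    conv_rhs => rw [e3]
    simp only [Matrix.mul_smul, Matrix.smul_mul]

/-- If `H > 0` and `M H + H M ≥ 0` with `M` Hermitian then `M ≥ 0`. -/
theorem lyap_pos {N : ℕ} {H M : Mat N} (hH : H.PosDef) (hM : M.IsHermitian)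
    (h : (M * H + H * M).PosSemidef) : M.PosSemidef := by
  classical
  rw [hM.posSemidef_iff_eigenvalues_nonneg]
  intro i
  show 0 ≤ hM.eigenvalues i
  set v : Fin N → ℂ := ⇑(hM.eigenvectorBasis i) with hv
  have hv0 : v ≠ 0 := by
    intro h0
    have h1 := hM.eigenvectorBasis.orthonormal.1 i
    have h2 : hM.eigenvectorBasis i = 0 := by
      ext j
      exact congrFun h0 j
    rw [h2] at h1
    simp at h1
  have hMv : M *ᵥ v = (hM.eigenvalues i) • v := hM.mulVec_eigenvectorBasis i
  have h1 := h.re_dotProduct_nonneg v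
  have h2 := hH.re_dotProduct_pos hv0
  have e1 : star v ⬝ᵥ ((M * H + H * M) *ᵥ v) =
      ((2 * hM.eigenvalues i : ℝ) : ℂ) * (star v ⬝ᵥ (H *ᵥ v)) := by
    rw [Matrix.add_mulVec, dotProduct_add, ← Matrix.mulVec_mulVec, ← Matrix.mulVec_mulVec, hMv]
    have e2 : star v ⬝ᵥ (M *ᵥ (H *ᵥ v)) = ((hM.eigenvalues i : ℝ) : ℂ) *
        (star v ⬝ᵥ (H *ᵥ v)) := by
      rw [dotProduct_mulVec]
      have e3 : star v ᵥ* M = ((hM.eigenvalues i : ℝ) : ℂ) • star v := by
        have e4 : star (M *ᵥ v) = star v ᵥ* Mᴴ := star_mulVec M v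
        rw [hM.eq] at e4
        rw [← e4, hMv, star_smul]
        ext j
        simp
      rw [e3, smul_dotProduct, smul_eq_mul]
    have e5 : star v ⬝ᵥ (H *ᵥ (hM.eigenvalues i • v)) = ((hM.eigenvalues i : ℝ) : ℂ) *
        (star v ⬝ᵥ (H *ᵥ v)) := by
      rw [Matrix.mulVec_smul, dotProduct_smul]
      simp
    rw [e2, e5]
    push_cast
    ring
  rw [e1] at h1
  have e6 : RCLike.re (((2 * hM.eigenvalues i : ℝ) : ℂ) * (star v ⬝ᵥ (H *ᵥ v))) =
      2 * hM.eigenvalues i * RCLike.re (star v ⬝ᵥ (H *ᵥ v)) := by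
    simp only [RCLike.re_eq_complex_re]
    rw [Complex.re_ofReal_mul]
  rw [e6] at h1
  by_contra hneg
  push Not at hneg
  nlinarith

end Alg3

open Alg3

/-- (1g) -/
theorem algG : AlgG := by
  classical
  intro N H T Φ F μ hH hμ hHF hHF' hP
  obtain ⟨hT, hΦ, hF2, hE⟩ := hP
  have hFh : F.IsHermitian := by
    have h1 : F = (1 / 2 : ℂ) • ((2 : ℂ) • F) := by
      rw [smul_smul]; norm_num
    have hst : star (1 / 2 : ℂ) = 1 / 2 := by
      have h2 : (1 / 2 : ℂ) = (((1 / 2 : ℝ)) : ℂ) := by push_cast; rfl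
      rw [h2]
      exact Complex.conj_ofReal _
    show Fᴴ = F
    rw [h1, hF2]
    simp only [conjTranspose_smul, conjTranspose_add, conjTranspose_mul, hΦ.eq,
      hT.isHermitian.eq, hst]
    rw [add_comm]
  obtain ⟨C, hC, hCH⟩ := lyap hH hFh
  have hCm : (1 - C).PosSemidef := by
    refine lyap_pos hH (isHermitian_one.sub hC) ?_
    have : (1 - C) * H + H * (1 - C) = (H - F) + (H - F) := by
      have e : (1 - C) * H + H * (1 - C) = H + H - (C * H + H * C) := by noncomm_ring
      rw [e, hCH, two_smul]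
      abel
    rw [this]
    exact hHF.add hHF
  have hCp : (1 + C).PosSemidef := by
    refine lyap_pos hH (isHermitian_one.add hC) ?_
    have : (1 + C) * H + H * (1 + C) = (H + F) + (H + F) := by
      have e : (1 + C) * H + H * (1 + C) = H + H + (C * H + H * C) := by noncomm_ring
      rw [e, hCH, two_smul]
      abel
    rw [this]
    exact hHF'.add hHF'
  have hCC : (1 - C * C).PosSemidef := by
    have h1 := hCp.mul_mul_conjTranspose_same (1 - C)
    have h2 := hCm.mul_mul_conjTranspose_same (1 + C)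
    rw [(isHermitian_one.sub hC).eq] at h1
    rw [(isHermitian_one.add hC).eq] at h2
    have h3 := (h1.add h2).smul (show (0 : ℝ) ≤ 1 / 2 by norm_num)
    have e : (1 / 2 : ℝ) • ((1 - C) * (1 + C) * (1 - C) + (1 + C) * (1 - C) * (1 + C)) =
        1 - C * C := by
      have e1 : (1 - C) * (1 + C) * (1 - C) + (1 + C) * (1 - C) * (1 + C) =
          (2 : ℝ) • (1 - C * C) := by
        rw [two_smul]
        noncomm_ring
      rw [e1, smul_smul]
      norm_num
    rw [e] at h3
    exact h3
  have hHCH : (H * (1 - C * C) * H).PosSemidef := by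
    have := hCC.mul_mul_conjTranspose_same H
    rwa [hH.isHermitian.eq] at this
  -- the comparison
  have hTdet : IsUnit T.det := (Matrix.isUnit_iff_isUnit_det _).mp hT.isUnit
  have hTi : T⁻¹ * T = 1 := Matrix.nonsing_inv_mul T hTdet
  have hTi' : T * T⁻¹ = 1 := Matrix.mul_nonsing_inv T hTdet
  set G : Mat N := T⁻¹ with hG
  have hGp : G.PosDef := hT.inv
  set η : Mat N := C * H - Φ * T with hη
  have hηs : ηᴴ = -η := by
    have h1 : ηᴴ = H * C - T * Φ := by
      rw [hη]
      simp only [conjTranspose_sub, conjTranspose_mul, hC.eq, hH.isHermitian.eq, hΦ.eq,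
        hT.isHermitian.eq]
    rw [h1, hη]
    have h2 : C * H + H * C = Φ * T + T * Φ := by rw [hCH, hF2]
    have h3 : H * C = Φ * T + T * Φ - C * H := by rw [← h2]; abel
    rw [h3]
    abel
  have hηη : (ηᴴ * η).PosSemidef := Matrix.posSemidef_conjTranspose_mul_self η
  have hX : (μ : ℂ) • (1 : Mat N) + H * (1 - C * C) * H =
      T * T - (T * Φ * η + ηᴴ * (Φ * T)) - ηᴴ * η := by
    have h1 : (μ : ℂ) • (1 : Mat N) + H * (1 - C * C) * H =
        (H * H + (μ : ℂ) • (1 : Mat N)) - (H * C) * (C * H) := by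
      have : H * (1 - C * C) * H = H * H - (H * C) * (C * H) := by noncomm_ring
      rw [this]
      abel
    have h2 : C * H = Φ * T + η := by rw [hη]; abel
    have h3 : H * C = T * Φ + ηᴴ := by
      have := congrArg conjTranspose h2
      simpa only [conjTranspose_mul, conjTranspose_add, hC.eq, hH.isHermitian.eq, hΦ.eq,
        hT.isHermitian.eq] using this
    rw [h1, hE, h2, h3]
    noncomm_ring
  have htr : rtr (G * ((μ : ℂ) • (1 : Mat N) + H * (1 - C * C) * H)) =
      rtr T - rtr (G * (ηᴴ * η)) := by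
    rw [hX]
    have e1 : G * (T * T - (T * Φ * η + ηᴴ * (Φ * T)) - ηᴴ * η) =
        T - (Φ * η + G * (ηᴴ * (Φ * T))) - G * (ηᴴ * η) := by
      have a1 : G * (T * T) = T := by rw [← Matrix.mul_assoc, hTi, Matrix.one_mul]
      have a2 : G * (T * Φ * η) = Φ * η := by
        rw [← Matrix.mul_assoc, ← Matrix.mul_assoc, hTi, Matrix.one_mul]
      rw [Matrix.mul_sub, Matrix.mul_sub, Matrix.mul_add, a1, a2]
    have e2 : Matrix.trace (G * (ηᴴ * (Φ * T))) = - Matrix.trace (Φ * η) := by
      rw [hηs]
      have : G * (-η * (Φ * T)) = -(G * η * (Φ * T)) := by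
        simp only [Matrix.neg_mul, Matrix.mul_neg, Matrix.mul_assoc]
      rw [this, Matrix.trace_neg]
      congr 1
      calc Matrix.trace (G * η * (Φ * T)) = Matrix.trace ((Φ * T) * (G * η)) :=
            Matrix.trace_mul_comm _ _
        _ = Matrix.trace (Φ * (T * G) * η) := by simp only [Matrix.mul_assoc]
        _ = _ := by rw [hTi', Matrix.mul_one]
    unfold rtr
    rw [e1, Matrix.trace_sub, Matrix.trace_sub, Matrix.trace_add, e2]
    simp
  have h1 : rtr (G * ((μ : ℂ) • (1 : Mat N) + H * (1 - C * C) * H)) =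
      μ * rtr G + rtr (G * (H * (1 - C * C) * H)) := by
    unfold rtr
    rw [Matrix.mul_add, Matrix.trace_add, Matrix.mul_smul, Matrix.mul_one, Matrix.trace_smul,
      Complex.add_re, smul_eq_mul, Complex.re_ofReal_mul]
  have h2 := rtr_mul_nonneg hGp.posSemidef hHCH
  have h3 := rtr_mul_nonneg hGp.posSemidef hηη
  linarith

end Pool.Agent.LTG
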