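import Pool.Agent.LTG.Defs

/-!
# (ASM) the trace inequality for Riccati paths, from the pointwise inequality
-/

set_option autoImplicit false

namespace Pool.Agent.LTG

open MeasureTheory Matrix Set Filter Topology
open scoped ComplexOrder

namespace ASM

variable {N : ℕ}

theorem pen_spec {F E : Mat N} (h : (F, E) ∈ PenDom N) : Pen (pT F E) (pPhi F E) F E := by
  have h' : ∃ T Φ : Mat N, Pen T Φ F E := h
  unfold pT pPhi
  rw [dif_pos h', dif_pos h']
  exact h'.choose_spec.choose_spec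

theorem pen_eq (hU : AlgD) {T Φ F E : Mat N} (h : Pen T Φ F E) :
    pT F E = T ∧ pPhi F E = Φ :=
  hU N _ _ _ _ F E (pen_spec ⟨T, Φ, h⟩) h

/-- the endpoint pencils -/
theorem pen_end (H : Mat N) (hH : H.IsHermitian) (μ : ℝ) (hμ : 0 < μ) (e : ℝ) (he : e * e = 1) :
    Pen (((√μ : ℝ) : ℂ) • (1 : Mat N)) (((e * μ ^ (-(1 / 2) : ℝ) : ℝ) : ℂ) • H)
      ((e : ℂ) • H) (H * H + (μ : ℂ) • 1) := by
  have hs : 0 < √μ := Real.sqrt_pos.2 hμ
  have hc : μ ^ (-(1 / 2) : ℝ) * √μ = 1 := by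
    rw [Real.sqrt_eq_rpow, ← Real.rpow_add hμ]
    norm_num
  have hsq : √μ * √μ = μ := Real.mul_self_sqrt hμ.le
  refine ⟨?_, ?_, ?_, ?_⟩
  · exact Matrix.PosDef.one.smul (by exact_mod_cast hs)
  · exact hH.smul (by simp [IsSelfAdjoint])
  · simp only [Matrix.mul_smul, Matrix.smul_mul, mul_one, one_mul, smul_smul]
    rw [← add_smul]
    congr 1
    have : (e * μ ^ (-(1 / 2) : ℝ)) * √μ = e := by rw [mul_assoc, hc, mul_one]
    have h2 : ((e * μ ^ (-(1 / 2) : ℝ) : ℝ) : ℂ) * ((√μ : ℝ) : ℂ) = (e : ℂ) := by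
      rw [← Complex.ofReal_mul, this]
    rw [mul_comm ((√μ : ℝ) : ℂ), h2]
    ring
  · simp only [Matrix.mul_smul, Matrix.smul_mul, mul_one, one_mul, smul_smul]
    rw [add_comm]
    congr 1
    · rw [← Complex.ofReal_mul, hsq]
    · have h1 : √μ * (e * μ ^ (-(1 / 2) : ℝ)) * (e * μ ^ (-(1 / 2) : ℝ) * √μ) = 1 := by
        have : √μ * (e * μ ^ (-(1 / 2) : ℝ)) * (e * μ ^ (-(1 / 2) : ℝ) * √μ)
            = (e * e) * (μ ^ (-(1 / 2) : ℝ) * √μ) * (μ ^ (-(1 / 2) : ℝ) * √μ) := by ring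
        rw [this, he, hc]
        norm_num
      rw [← Complex.ofReal_mul, ← Complex.ofReal_mul, ← Complex.ofReal_mul, h1, Complex.ofReal_one,
        one_smul]

/-- entrywise continuity of the inverse -/
theorem cont_inv {α : Type*} [TopologicalSpace α] {f : α → Mat N} {S : Set α} {x : α}
    (hf : ContinuousWithinAt f S x) (hu : (f x).det ≠ 0) :
    ContinuousWithinAt (fun y => (f y)⁻¹) S x := by
  have e : (fun y => (f y)⁻¹) = fun y => ((f y).det)⁻¹ • (f y).adjugate := by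
    funext y
    rw [Matrix.inv_def, Ring.inverse_eq_inv']
  rw [e]
  have h1 : ContinuousWithinAt (fun y => (f y).det) S x :=
    (Continuous.matrix_det continuous_id).continuousAt.comp_continuousWithinAt hf
  have h2 : ContinuousWithinAt (fun y => (f y).adjugate) S x :=
    (Continuous.matrix_adjugate continuous_id).continuousAt.comp_continuousWithinAt hf
  exact (h1.inv₀ hu).smul h2

theorem rtr_cont : Continuous (fun A : Mat N => rtr A) := by
  unfold rtr
  exact Complex.continuous_re.comp (Continuous.matrix_trace continuous_id)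

theorem rtr_add (A B : Mat N) : rtr (A + B) = rtr A + rtr B := by
  simp [rtr, Matrix.trace_add]

theorem rtr_sub (A B : Mat N) : rtr (A - B) = rtr A - rtr B := by
  simp [rtr, Matrix.trace_sub]

theorem rtr_smul (c : ℝ) (A : Mat N) : rtr ((c : ℂ) • A) = c * rtr A := by
  simp [rtr, Matrix.trace_smul]

section path
variable {X : ℝ} {H : Mat N} {F V : ℝ → Mat N}

theorem hermE (hH : H.IsHermitian) (μ : ℝ) : (H * H + (μ : ℂ) • (1 : Mat N)).IsHermitian := by
  have h1 : (H * H).IsHermitian := by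
    have := Matrix.isHermitian_conjTranspose_mul_self H
    rwa [hH.eq] at this
  exact h1.add (Matrix.isHermitian_one.smul (by simp [IsSelfAdjoint]))

theorem hermF (hH : H.IsHermitian) {F : Mat N} (h : (H - F).PosSemidef) : F.IsHermitian := by
  have : F = H - (H - F) := by abel
  rw [this]
  exact hH.sub h.isHermitian

theorem F_cont (hF : ∀ x ∈ Icc 0 X, ∀ i j, HasDerivWithinAt (fun y => F y i j)
      ((H * H - F x * F x - V x) i j) (Icc 0 X) x) : ContinuousOn F (Icc 0 X) := by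
  intro x hx
  refine continuousWithinAt_pi.2 (fun i => continuousWithinAt_pi.2 (fun j => ?_))
  exact (hF x hx i j).continuousWithinAt

theorem V_cont (hV : ∀ i j, ContinuousOn (fun x => V x i j) (Icc 0 X)) :
    ContinuousOn V (Icc 0 X) := by
  intro x hx
  refine continuousWithinAt_pi.2 (fun i => continuousWithinAt_pi.2 (fun j => ?_))
  exact hV i j x hx

/-- `Gm` is continuous in `(x, μ)` -/
theorem Gm_cont (hE : SolE) (hC : SolC) (hH : H.PosDef) (hF : ContinuousOn F (Icc 0 X))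
    (hB : ∀ x ∈ Icc 0 X, (H - F x).PosSemidef ∧ (H + F x).PosSemidef) :
    ContinuousOn (fun p : ℝ × ℝ => Gm H (F p.1) p.2) (Icc 0 X ×ˢ Ioi 0) := by
  intro p hp
  have hp1 : p.1 ∈ Icc 0 X := hp.1
  have hp2 : 0 < p.2 := hp.2
  have hdom : (F p.1, H * H + (p.2 : ℂ) • (1 : Mat N)) ∈ PenDom N :=
    hE N H (F p.1) p.2 hH hp2 (hB _ hp1).1 (hB _ hp1).2
  unfold Gm
  apply cont_inv
  · have h1 := (hC N _ hdom).1
    have h2 : ContinuousWithinAt (fun q : ℝ × ℝ => (F q.1, H * H + (q.2 : ℂ) • (1 : Mat N)))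
        (Icc 0 X ×ˢ Ioi 0) p := by
      refine ContinuousWithinAt.prodMk ?_ ?_
      · exact (hF p.1 hp1).comp continuous_fst.continuousWithinAt (fun q hq => hq.1)
      · apply Continuous.continuousWithinAt
        have : Continuous (fun q : ℝ × ℝ => (q.2 : ℂ)) := Complex.continuous_ofReal.comp continuous_snd
        exact continuous_const.add (this.smul continuous_const)
    have h3 : MapsTo (fun q : ℝ × ℝ => (F q.1, H * H + (q.2 : ℂ) • (1 : Mat N)))
        (Icc 0 X ×ˢ Ioi 0) (HermPair N) := by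
      intro q hq
      exact ⟨hermF hH.isHermitian (hB q.1 hq.1).1, hermE hH.isHermitian q.2⟩
    exact ContinuousWithinAt.comp (g := fun q : Mat N × Mat N => pT q.1 q.2)
      (f := fun q : ℝ × ℝ => (F q.1, H * H + (q.2 : ℂ) • (1 : Mat N))) (t := HermPair N) h1 h2 h3
  · exact ((Matrix.isUnit_iff_isUnit_det _).1 (pen_spec hdom).1.isUnit).ne_zero

/-- the `x`-integral of `tr (G F')` -/
theorem xint (hU : AlgD) (hE : SolE) (hC : SolC) (hD : SolD) (hP : LinP) (hAD : AtrD) (hAE : AtrE)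
    (hX : 0 < X) (hH : H.PosDef)
    (hVh : ∀ x ∈ Icc 0 X, (V x).PosSemidef)
    (hV : ∀ i j, ContinuousOn (fun x => V x i j) (Icc 0 X))
    (h0 : F 0 = H) (hX' : F X = -H)
    (hB : ∀ x ∈ Icc 0 X, (H - F x).PosSemidef ∧ (H + F x).PosSemidef)
    (hF : ∀ x ∈ Icc 0 X, ∀ i j, HasDerivWithinAt (fun y => F y i j)
      ((H * H - F x * F x - V x) i j) (Icc 0 X) x) (μ : ℝ) (hμ : 0 < μ) :
    ∫ x in (0 : ℝ)..X, rtr (Gm H (F x) μ * (H * H - F x * F x - V x)) =
      -(2 * ∑ i, Real.arctan (μ ^ (-(1 / 2) : ℝ) * hH.isHermitian.eigenvalues i)) := by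
  have hFc := F_cont hF
  have hVc := V_cont hV
  have hHh := hH.isHermitian
  have hEh := hermE hHh μ
  have hder : ∀ x ∈ Icc 0 X, HasDerivWithinAt (fun y => atr (pPhi (F y) (H * H + (μ : ℂ) • (1 : Mat N))))
      (rtr (Gm H (F x) μ * (H * H - F x * F x - V x))) (Icc 0 X) x := by
    intro x hx
    have hdom : (F x, H * H + (μ : ℂ) • (1 : Mat N)) ∈ PenDom N :=
      hE N H (F x) μ hH hμ (hB _ hx).1 (hB _ hx).2
    have hFh := hermF hHh (hB x hx).1
    have hF'h : (H * H - F x * F x - V x).IsHermitian := by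
      have h1 : (H * H).IsHermitian := by
        have := Matrix.isHermitian_conjTranspose_mul_self H
        rwa [hHh.eq] at this
      have h2 : (F x * F x).IsHermitian := by
        have := Matrix.isHermitian_conjTranspose_mul_self (F x)
        rwa [hFh.eq] at this
      exact (h1.sub h2).sub (hVh x hx).isHermitian
    obtain ⟨τ, φ, hτ, hφ, hd1, hd2, e1, e2⟩ := hD N F (fun _ => H * H + (μ : ℂ) • (1 : Mat N))
      (H * H - F x * F x - V x) 0 (Icc 0 X) x hx
      (fun y hy => ⟨hermF hHh (hB y hy).1, hEh⟩) hF'h Matrix.isHermitian_zero hdom (hF x hx)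
      (fun i j => by simpa using hasDerivWithinAt_const x (Icc 0 X) ((H * H + (μ : ℂ) • (1 : Mat N)) i j))
    have hps := pen_spec hdom
    have h3 := hAD N (fun y => pPhi (F y) (H * H + (μ : ℂ) • (1 : Mat N))) φ (Icc 0 X) x hx
      (fun y hy => (pen_spec (hE N H (F y) μ hH hμ (hB _ hy).1 (hB _ hy).2)).2.1) hφ hd2
    have h4 := hP N _ _ τ φ _ hps.1 hps.2.1 hτ hφ e1 e2.symm
    rw [h4] at h3
    exact h3
  have hint : ContinuousOn (fun x => rtr (Gm H (F x) μ * (H * H - F x * F x - V x))) (Icc 0 X) := by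
    have h1 : ContinuousOn (fun x => Gm H (F x) μ) (Icc 0 X) := by
      have := (Gm_cont hE hC hH hFc hB).comp (f := fun x : ℝ => (x, μ))
        (by fun_prop) (fun x hx => ⟨hx, hμ⟩ : MapsTo (fun x : ℝ => (x, μ)) (Icc 0 X) (Icc 0 X ×ˢ Ioi 0))
      exact this
    exact rtr_cont.comp_continuousOn (h1.mul ((continuousOn_const.sub (hFc.mul hFc)).sub hVc))
  have hftc := intervalIntegral.integral_eq_sub_of_hasDeriv_right (a := 0) (b := X)
    (f := fun y => atr (pPhi (F y) (H * H + (μ : ℂ) • (1 : Mat N))))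
    (f' := fun x => rtr (Gm H (F x) μ * (H * H - F x * F x - V x)))
    (by
      rw [uIcc_of_le hX.le]
      exact fun x hx => (hder x hx).continuousWithinAt)
    (by
      intro x hx
      rw [min_eq_left hX.le, max_eq_right hX.le] at hx
      exact ((hder x ⟨hx.1.le, hx.2.le⟩).hasDerivAt (Icc_mem_nhds hx.1 hx.2)).hasDerivWithinAt)
    (by
      apply ContinuousOn.intervalIntegrable
      rwa [uIcc_of_le hX.le])
  rw [hftc, h0, hX']
  have p1 := pen_eq hU (pen_end H hHh μ hμ 1 (by norm_num))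
  have p2 := pen_eq hU (pen_end H hHh μ hμ (-1) (by norm_num))
  have q1 : ((1 : ℝ) : ℂ) • H = H := by simp
  have q2 : ((-1 : ℝ) : ℂ) • H = -H := by simp
  rw [q1] at p1
  rw [q2] at p2
  rw [p1.2, p2.2, hAE N H hHh, hAE N H hHh]
  rw [Finset.mul_sum, ← Finset.sum_neg_distrib, ← Finset.sum_sub_distrib]
  refine Finset.sum_congr rfl (fun i _ => ?_)
  rw [show -1 * μ ^ (-(1 / 2) : ℝ) * hHh.eigenvalues i = -(μ ^ (-(1 / 2) : ℝ) * hHh.eigenvalues i) by ring,
    Real.arctan_neg, show 1 * μ ^ (-(1 / 2) : ℝ) * hHh.eigenvalues i = μ ^ (-(1 / 2) : ℝ) * hHh.eigenvalues i by ring]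
  ring

/-- the integrand -/
noncomputable def gg (s : ℝ) (H : Mat N) (F V : ℝ → Mat N) (x μ : ℝ) : ℝ :=
  μ ^ (s - 1 / 2) * rtr ((Gm H (F x) μ - ((μ ^ (-(1 / 2) : ℝ) : ℝ) : ℂ) • 1) *
    (H * H - F x * F x - V x))

theorem gg_cont (hE : SolE) (hC : SolC) (hH : H.PosDef) (s δ M : ℝ) (hδ : 0 < δ)
    (hV : ∀ i j, ContinuousOn (fun x => V x i j) (Icc 0 X))
    (hB : ∀ x ∈ Icc 0 X, (H - F x).PosSemidef ∧ (H + F x).PosSemidef)
    (hF : ∀ x ∈ Icc 0 X, ∀ i j, HasDerivWithinAt (fun y => F y i j)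
      ((H * H - F x * F x - V x) i j) (Icc 0 X) x) :
    ContinuousOn (Function.uncurry (gg s H F V)) (Icc 0 X ×ˢ Icc δ M) := by
  have hFc := F_cont hF
  have hVc := V_cont hV
  have hsub : Icc 0 X ×ˢ Icc δ M ⊆ Icc 0 X ×ˢ Ioi 0 := by
    rintro ⟨x, μ⟩ ⟨h1, h2⟩
    exact ⟨h1, lt_of_lt_of_le hδ h2.1⟩
  have hG := (Gm_cont hE hC hH hFc hB).mono hsub
  have hr : ∀ e : ℝ, ContinuousOn (fun p : ℝ × ℝ => p.2 ^ e) (Icc 0 X ×ˢ Icc δ M) := by
    intro e
    apply ContinuousOn.rpow_const continuousOn_snd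
    intro p hp
    left
    exact (lt_of_lt_of_le hδ hp.2.1).ne'
  have hF1 : ContinuousOn (fun p : ℝ × ℝ => F p.1) (Icc 0 X ×ˢ Icc δ M) :=
    hFc.comp continuousOn_fst (fun p hp => hp.1)
  have hV1 : ContinuousOn (fun p : ℝ × ℝ => V p.1) (Icc 0 X ×ˢ Icc δ M) :=
    hVc.comp continuousOn_fst (fun p hp => hp.1)
  have h1 : ContinuousOn (fun p : ℝ × ℝ => ((p.2 ^ (-(1 / 2) : ℝ) : ℝ) : ℂ) • (1 : Mat N))
      (Icc 0 X ×ˢ Icc δ M) :=
    (Complex.continuous_ofReal.comp_continuousOn (hr _)).smul continuousOn_const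
  have hc : ContinuousOn (fun _ : ℝ × ℝ => H * H) (Icc 0 X ×ˢ Icc δ M) := continuousOn_const
  have h2 := rtr_cont.comp_continuousOn ((hG.sub h1).mul ((hc.sub (hF1.mul hF1)).sub hV1))
  exact (hr _).mul h2

theorem swap_int {f : ℝ → ℝ → ℝ} {a b c d : ℝ} (hab : a ≤ b) (hcd : c ≤ d)
    (hf : ContinuousOn (Function.uncurry f) (Icc a b ×ˢ Icc c d)) :
    (∫ x in a..b, ∫ y in c..d, f x y) = ∫ y in c..d, ∫ x in a..b, f x y := by
  simp only [intervalIntegral.integral_of_le hab, intervalIntegral.integral_of_le hcd]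
  apply MeasureTheory.integral_integral_swap
  rw [MeasureTheory.Measure.prod_restrict]
  have h1 : IntegrableOn (Function.uncurry f) (Icc a b ×ˢ Icc c d) (volume.prod volume) :=
    hf.integrableOn_compact (isCompact_Icc.prod isCompact_Icc)
  exact h1.mono_set (Set.prod_mono Ioc_subset_Icc_self Ioc_subset_Icc_self)

theorem param_int {f : ℝ → ℝ → ℝ} {a b c d : ℝ} (hab : a ≤ b) (hcd : c ≤ d)
    (hf : ContinuousOn (Function.uncurry f) (Icc a b ×ˢ Icc c d)) :
    IntervalIntegrable (fun x => ∫ y in c..d, f x y) volume a b := by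
  rw [intervalIntegrable_iff_integrableOn_Ioc_of_le hab]
  simp only [intervalIntegral.integral_of_le hcd]
  have h1 : IntegrableOn (Function.uncurry f) (Icc a b ×ˢ Icc c d) (volume.prod volume) :=
    hf.integrableOn_compact (isCompact_Icc.prod isCompact_Icc)
  have h2 := h1.mono_set (Set.prod_mono (Ioc_subset_Icc_self (a := a) (b := b))
    (Ioc_subset_Icc_self (a := c) (b := d)))
  unfold IntegrableOn at h2 ⊢
  rw [← MeasureTheory.Measure.prod_restrict] at h2
  exact h2.integral_prod_left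

theorem xint2 (hU : AlgD) (hE : SolE) (hC : SolC) (hD : SolD) (hP : LinP) (hAD : AtrD) (hAE : AtrE)
    (hX : 0 < X) (hH : H.PosDef)
    (hVh : ∀ x ∈ Icc 0 X, (V x).PosSemidef)
    (hV : ∀ i j, ContinuousOn (fun x => V x i j) (Icc 0 X))
    (h0 : F 0 = H) (hX' : F X = -H)
    (hB : ∀ x ∈ Icc 0 X, (H - F x).PosSemidef ∧ (H + F x).PosSemidef)
    (hF : ∀ x ∈ Icc 0 X, ∀ i j, HasDerivWithinAt (fun y => F y i j)
      ((H * H - F x * F x - V x) i j) (Icc 0 X) x) (s μ : ℝ) (hμ : 0 < μ) :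
    ∫ x in (0 : ℝ)..X, gg s H F V x μ =
      ∑ i, 2 * μ ^ (s - 1 / 2) * (hH.isHermitian.eigenvalues i * μ ^ (-(1 / 2) : ℝ) -
        Real.arctan (hH.isHermitian.eigenvalues i * μ ^ (-(1 / 2) : ℝ))) := by
  have hFc := F_cont hF
  have hVc := V_cont hV
  have h1 := xint hU hE hC hD hP hAD hAE hX hH hVh hV h0 hX' hB hF μ hμ
  have hDc : ContinuousOn (fun x => H * H - F x * F x - V x) (Icc 0 X) :=
    (continuousOn_const.sub (hFc.mul hFc)).sub hVc
  have hGc : ContinuousOn (fun x => Gm H (F x) μ) (Icc 0 X) := by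
    have := (Gm_cont hE hC hH hFc hB).comp (f := fun x : ℝ => (x, μ))
      (by fun_prop) (fun x hx => ⟨hx, hμ⟩ : MapsTo (fun x : ℝ => (x, μ)) (Icc 0 X) (Icc 0 X ×ˢ Ioi 0))
    exact this
  have i1 : IntervalIntegrable (fun x => rtr (Gm H (F x) μ * (H * H - F x * F x - V x))) volume 0 X := by
    apply ContinuousOn.intervalIntegrable
    rw [uIcc_of_le hX.le]
    exact rtr_cont.comp_continuousOn (hGc.mul hDc)
  have i2 : IntervalIntegrable (fun x => rtr (H * H - F x * F x - V x)) volume 0 X := by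
    apply ContinuousOn.intervalIntegrable
    rw [uIcc_of_le hX.le]
    exact rtr_cont.comp_continuousOn hDc
  have e0 : ∀ x, gg s H F V x μ = μ ^ (s - 1 / 2) * (rtr (Gm H (F x) μ * (H * H - F x * F x - V x)) -
      μ ^ (-(1 / 2) : ℝ) * rtr (H * H - F x * F x - V x)) := by
    intro x
    unfold gg
    rw [sub_mul, rtr_sub, Matrix.smul_mul, one_mul, rtr_smul]
  simp_rw [e0]
  rw [intervalIntegral.integral_const_mul, intervalIntegral.integral_sub i1 (i2.const_mul _),
    intervalIntegral.integral_const_mul, h1]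
  have h2 : ∫ x in (0 : ℝ)..X, rtr (H * H - F x * F x - V x) = -(2 * ∑ i, hH.isHermitian.eigenvalues i) := by
    have hder : ∀ x ∈ Icc 0 X, HasDerivWithinAt (fun y => rtr (F y))
        (rtr (H * H - F x * F x - V x)) (Icc 0 X) x := by
      intro x hx
      have e : (fun y => rtr (F y)) = fun y => ∑ i, (F y i i).re := by
        funext y
        simp [rtr, Matrix.trace]
      have e' : rtr (H * H - F x * F x - V x) = ∑ i, ((H * H - F x * F x - V x) i i).re := by
        simp [rtr, Matrix.trace]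
      rw [e, e']
      refine HasDerivWithinAt.fun_sum (fun i _ => ?_)
      exact (Complex.reCLM.hasFDerivAt).comp_hasDerivWithinAt x (hF x hx i i)
    have hftc := intervalIntegral.integral_eq_sub_of_hasDeriv_right (a := 0) (b := X)
      (f := fun y => rtr (F y))
      (f' := fun x => rtr (H * H - F x * F x - V x))
      (by
        rw [uIcc_of_le hX.le]
        exact fun x hx => (hder x hx).continuousWithinAt)
      (by
        intro x hx
        rw [min_eq_left hX.le, max_eq_right hX.le] at hx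
        exact ((hder x ⟨hx.1.le, hx.2.le⟩).hasDerivAt (Icc_mem_nhds hx.1 hx.2)).hasDerivWithinAt)
      i2
    rw [hftc, h0, hX']
    have : rtr H = ∑ i, hH.isHermitian.eigenvalues i := by
      unfold rtr
      rw [hH.isHermitian.trace_eq_sum_eigenvalues]
      simp
    have hn : rtr (-H) = - rtr H := by simp [rtr, Matrix.trace_neg]
    rw [hn, this]
    ring
  rw [h2]
  simp only [Finset.mul_sum, ← Finset.sum_neg_distrib, ← Finset.sum_sub_distrib]
  refine Finset.sum_congr rfl (fun i _ => ?_)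
  rw [mul_comm (μ ^ (-(1 / 2) : ℝ)) (hH.isHermitian.eigenvalues i)]
  ring

theorem fin_ineq (hU : AlgD) (hE : SolE) (hC : SolC) (hD : SolD) (hP : LinP) (hAD : AtrD)
    (hAE : AtrE) (hK : IntK) (hPtw : Ptw) (hX : 0 < X) (hH : H.PosDef)
    (hVh : ∀ x ∈ Icc 0 X, (V x).PosSemidef)
    (hV : ∀ i j, ContinuousOn (fun x => V x i j) (Icc 0 X))
    (h0 : F 0 = H) (hX' : F X = -H)
    (hB : ∀ x ∈ Icc 0 X, (H - F x).PosSemidef ∧ (H + F x).PosSemidef)
    (hF : ∀ x ∈ Icc 0 X, ∀ i j, HasDerivWithinAt (fun y => F y i j)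
      ((H * H - F x * F x - V x) i j) (Icc 0 X) x)
    (v : ℝ → ℝ) (s : ℝ) (hs : 0 < s) (hs1 : s < 1) (hv : IntervalIntegrable v volume 0 X)
    (hvV : ∀ (x : ℝ) (hx : x ∈ Icc 0 X), ∑ i, (hVh x hx).isHermitian.eigenvalues i ^ (1 + s) ≤ v x)
    (hJ : 0 ≤ Js s)
    (δ M C : ℝ) (hδ : 0 < δ) (hM : δ < M) (hCb : ∀ x ∈ Icc 0 X, |rtr (H * H - F x * F x)| ≤ C) :
    ∑ i, ∫ μ in δ..M, 2 * μ ^ (s - 1 / 2) * (hH.isHermitian.eigenvalues i * μ ^ (-(1 / 2) : ℝ) -
        Real.arctan (hH.isHermitian.eigenvalues i * μ ^ (-(1 / 2) : ℝ))) ≤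
      X * ((1 / s) * (δ ^ s * C + 2 * N * δ ^ (s + 1))) +
        (s / (1 + s)) ^ s * Js s / (1 + s) * ∫ x in (0 : ℝ)..X, v x := by
  have hgc := gg_cont hE hC hH s δ M hδ hV hB hF
  have e1 : ∑ i, ∫ μ in δ..M, 2 * μ ^ (s - 1 / 2) * (hH.isHermitian.eigenvalues i * μ ^ (-(1 / 2) : ℝ) -
        Real.arctan (hH.isHermitian.eigenvalues i * μ ^ (-(1 / 2) : ℝ))) =
      ∫ x in (0 : ℝ)..X, ∫ μ in δ..M, gg s H F V x μ := by
    rw [swap_int hX.le hM.le hgc, ← intervalIntegral.integral_finsetSum]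
    · apply intervalIntegral.integral_congr
      intro μ hμ
      rw [uIcc_of_le hM.le] at hμ
      exact (xint2 hU hE hC hD hP hAD hAE hX hH hVh hV h0 hX' hB hF s μ (lt_of_lt_of_le hδ hμ.1)).symm
    · intro i _
      have h := (hK s (hH.isHermitian.eigenvalues i) hs hs1 (hH.eigenvalues_pos i).le).1
      rw [intervalIntegrable_iff_integrableOn_Ioc_of_le hM.le]
      exact h.mono_set (fun x hx => lt_trans hδ hx.1)
  rw [e1]
  have hK0 : 0 ≤ (s / (1 + s)) ^ s * Js s / (1 + s) := by positivity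
  have e2 : ∫ x in (0 : ℝ)..X, ∫ μ in δ..M, gg s H F V x μ ≤
      ∫ x in (0 : ℝ)..X, ((1 / s) * (δ ^ s * C + 2 * N * δ ^ (s + 1)) +
        (s / (1 + s)) ^ s * Js s / (1 + s) * v x) := by
    apply intervalIntegral.integral_mono_on hX.le (param_int hX.le hM.le hgc)
      (intervalIntegrable_const.add (hv.const_mul _))
    intro x hx
    have h := hPtw N H (F x) (V x) s δ M hs hs1 hδ hM hH (hB x hx).1 (hB x hx).2 (hVh x hx)
    have hδs : 0 ≤ δ ^ s := Real.rpow_nonneg hδ.le _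
    have h1 := mul_le_mul_of_nonneg_left (hCb x hx) hδs
    have h2 := mul_le_mul_of_nonneg_left (hvV x hx) hK0
    have h3 : (1 / s) * (δ ^ s * |rtr (H * H - F x * F x)| + 2 * N * δ ^ (s + 1)) ≤
        (1 / s) * (δ ^ s * C + 2 * N * δ ^ (s + 1)) := by
      apply mul_le_mul_of_nonneg_left _ (by positivity)
      linarith
    unfold gg
    linarith
  refine e2.trans (le_of_eq ?_)
  rw [intervalIntegral.integral_add intervalIntegrable_const (hv.const_mul _),
    intervalIntegral.integral_const, intervalIntegral.integral_const_mul]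
  simp

end path

/-- exhaustion of the half line -/
theorem lim_int {f : ℝ → ℝ} (hf : IntegrableOn f (Ioi 0)) :
    Tendsto (fun n : ℕ => ∫ μ in (1 / ((n : ℝ) + 2))..((n : ℝ) + 2), f μ) atTop
      (𝓝 (∫ μ in Ioi (0 : ℝ), f μ)) := by
  have hcov : AECover (volume.restrict (Ioi (0 : ℝ))) atTop
      (fun n : ℕ => Ioc (1 / ((n : ℝ) + 2)) ((n : ℝ) + 2)) := by
    constructor
    · refine (ae_restrict_iff' measurableSet_Ioi).2 (Eventually.of_forall (fun x hx => ?_))
      have hx0 : (0 : ℝ) < x := hx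
      obtain ⟨n1, hn1⟩ := exists_nat_gt x
      obtain ⟨n2, hn2⟩ := exists_nat_gt (1 / x)
      filter_upwards [eventually_ge_atTop n1, eventually_ge_atTop n2] with n h1 h2
      have h1' : (n1 : ℝ) ≤ n := by exact_mod_cast h1
      have h2' : (n2 : ℝ) ≤ n := by exact_mod_cast h2
      constructor
      · rw [div_lt_iff₀ (by positivity)]
        have : 1 / x < (n : ℝ) + 2 := by linarith
        rw [div_lt_iff₀ hx0] at this
        linarith
      · linarith
    · intro n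
      exact measurableSet_Ioc
  have h := hcov.integral_tendsto_of_countably_generated hf
  refine h.congr (fun n => ?_)
  have hn : (1 : ℝ) / ((n : ℝ) + 2) ≤ (n : ℝ) + 2 := by
    rw [div_le_iff₀ (by positivity)]
    have : (0 : ℝ) ≤ n := Nat.cast_nonneg n
    nlinarith
  rw [intervalIntegral.integral_of_le hn, Measure.restrict_restrict measurableSet_Ioc]
  congr 2
  apply inter_eq_left.2
  intro x hx
  exact lt_trans (by positivity) hx.1

end ASM

open ASM

theorem conseq (hUniq : AlgD) (hE : SolE) (hC : SolC) (hD : SolD) (hP : LinP) (hAD : AtrD)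
    (hAE : AtrE) (hK : IntK) (hJ : IntJ) (hPtw : Ptw) : ConseqStmt := by
  intro N γ X hγ1 hγ2 hX H hH F V hVh v hV h0 hX' hB hF hv hvV
  set s := γ - 1 / 2 with hs
  have hs0 : 0 < s := by rw [hs]; linarith
  have hs1 : s < 1 := by rw [hs]; linarith
  obtain ⟨hJs, hBs⟩ := hJ s hs0 hs1
  have hvV' : ∀ (x : ℝ) (hx : x ∈ Icc 0 X),
      ∑ i, (hVh x hx).isHermitian.eigenvalues i ^ (1 + s) ≤ v x := by
    intro x hx
    have : γ + 1 / 2 = 1 + s := by rw [hs]; ring
    rw [← this]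
    exact hvV x hx
  have hFc := F_cont hF
  obtain ⟨C, hCb⟩ := isCompact_Icc.exists_bound_of_continuousOn (f := fun x => rtr (H * H - F x * F x))
    (rtr_cont.comp_continuousOn (continuousOn_const.sub (hFc.mul hFc)) : ContinuousOn _ (Icc 0 X))
  -- the limit
  have hlim1 : Tendsto (fun n : ℕ => ∑ i, ∫ μ in (1 / ((n : ℝ) + 2))..((n : ℝ) + 2),
      2 * μ ^ (s - 1 / 2) * (hH.isHermitian.eigenvalues i * μ ^ (-(1 / 2) : ℝ) -
        Real.arctan (hH.isHermitian.eigenvalues i * μ ^ (-(1 / 2) : ℝ)))) atTop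
      (𝓝 (∑ i, hH.isHermitian.eigenvalues i ^ (2 * s + 1) * (Js s * Bs s))) := by
    refine tendsto_finsetSum _ (fun i _ => ?_)
    have h := hK s (hH.isHermitian.eigenvalues i) hs0 hs1 (hH.eigenvalues_pos i).le
    rw [← h.2]
    exact lim_int h.1
  have hd : Tendsto (fun n : ℕ => 1 / ((n : ℝ) + 2)) atTop (𝓝 0) := by
    have h := tendsto_one_div_add_atTop_nhds_zero_nat (𝕜 := ℝ)
    have h2 := (tendsto_add_atTop_iff_nat 1).2 h
    refine h2.congr (fun n => ?_)
    push_cast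
    ring_nf
  have hpow : ∀ e : ℝ, 0 < e → Tendsto (fun n : ℕ => (1 / ((n : ℝ) + 2)) ^ e) atTop (𝓝 0) := by
    intro e he
    have h := (Real.continuousAt_rpow_const 0 e (Or.inr he.le)).tendsto.comp hd
    rwa [Real.zero_rpow he.ne'] at h
  have hlim2 : Tendsto (fun n : ℕ => X * ((1 / s) * ((1 / ((n : ℝ) + 2)) ^ s * C +
      2 * N * (1 / ((n : ℝ) + 2)) ^ (s + 1))) +
        (s / (1 + s)) ^ s * Js s / (1 + s) * ∫ x in (0 : ℝ)..X, v x) atTop
      (𝓝 (X * ((1 / s) * (0 * C + 2 * N * 0)) +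
        (s / (1 + s)) ^ s * Js s / (1 + s) * ∫ x in (0 : ℝ)..X, v x)) := by
    apply Tendsto.add_const
    apply Tendsto.const_mul
    apply Tendsto.const_mul
    apply Tendsto.add
    · exact (hpow s hs0).mul_const _
    · exact (hpow (s + 1) (by linarith)).const_mul _
  have hle := le_of_tendsto_of_tendsto' hlim1 hlim2 (fun n => by
    have hn0 : (0 : ℝ) ≤ n := Nat.cast_nonneg n
    refine fin_ineq hUniq hE hC hD hP hAD hAE hK hPtw hX hH hVh hV h0 hX' hB hF v s hs0 hs1 hv hvV'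
      hJs.le (1 / ((n : ℝ) + 2)) ((n : ℝ) + 2) C (by positivity) ?_ hCb
    rw [div_lt_iff₀ (by positivity)]
    nlinarith)
  have h2γ : 2 * γ = 2 * s + 1 := by rw [hs]; ring
  rw [h2γ]
  rw [← Finset.sum_mul] at hle
  have hLg : Lgam γ = (s / (1 + s)) ^ s / ((1 + s) * Bs s) := by
    unfold Lgam
    have : γ + 1 / 2 = 1 + s := by rw [hs]; ring
    rw [this]
  rw [hLg]
  have hpos : 0 < Js s * Bs s := mul_pos hJs hBs
  have h1s : 0 < 1 + s := by linarith
  have hfin : (s / (1 + s)) ^ s * Js s / (1 + s) * (∫ x in (0 : ℝ)..X, v x) =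
      ((s / (1 + s)) ^ s / ((1 + s) * Bs s) * ∫ x in (0 : ℝ)..X, v x) * (Js s * Bs s) := by
    field_simp
  have hle2 : (∑ i, hH.isHermitian.eigenvalues i ^ (2 * s + 1)) * (Js s * Bs s) ≤
      ((s / (1 + s)) ^ s / ((1 + s) * Bs s) * ∫ x in (0 : ℝ)..X, v x) * (Js s * Bs s) := by
    rw [← hfin]
    refine hle.trans (le_of_eq ?_)
    ring
  exact le_of_mul_le_mul_right hle2 hpos

end Pool.Agent.LTG
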