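import Pool.Agent.LTG.Defs

/-!
# LTG: the trace of the arctangent (`AtrD`, `AtrE`)
-/

set_option autoImplicit false

namespace Pool.Agent.LTG

open MeasureTheory Matrix Set Filter Topology
open scoped ComplexOrder

open scoped Matrix.Norms.L2Operator

namespace Atr

variable {N : ℕ}

/-- `rtr` as a continuous linear map. -/
noncomputable def rtrL : Mat N →L[ℝ] ℝ :=
  LinearMap.toContinuousLinearMap
    { toFun := fun A => (Matrix.trace A).re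
      map_add' := by intro A B; simp [Matrix.trace_add]
      map_smul' := by intro c A; simp [Matrix.trace_smul] }

lemma rtrL_apply (A : Mat N) : rtrL A = rtr A := rfl

lemma rtr_add (A B : Mat N) : rtr (A + B) = rtr A + rtr B := by
  simp [rtr, Matrix.trace_add]

lemma rtr_sub (A B : Mat N) : rtr (A - B) = rtr A - rtr B := by
  simp [rtr, Matrix.trace_sub]

lemma rtr_neg (A : Mat N) : rtr (-A) = - rtr A := by
  simp [rtr]

lemma rtr_mul_comm (A B : Mat N) : rtr (A * B) = rtr (B * A) := by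
  simp [rtr, Matrix.trace_mul_comm A B]

lemma rtr_bound : ∃ C : ℝ, 0 ≤ C ∧ ∀ A : Mat N, |rtr A| ≤ C * ‖A‖ :=
  ⟨‖(rtrL : Mat N →L[ℝ] ℝ)‖, norm_nonneg _, fun A => by
    have := (rtrL : Mat N →L[ℝ] ℝ).le_opNorm A
    simpa [rtrL_apply, Real.norm_eq_abs] using this⟩

/-- the matrix `1 + t² Φ²` -/
noncomputable def Bt (t : ℝ) (Φ : Mat N) : Mat N := 1 + ((t : ℂ) ^ 2) • (Φ * Φ)

lemma posDef_Bt (t : ℝ) {Φ : Mat N} (h : Φ.IsHermitian) : (Bt t Φ).PosDef := by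
  unfold Bt
  refine Matrix.PosDef.add_posSemidef Matrix.PosDef.one ?_
  have h1 : (Φ * Φ).PosSemidef := by
    have := Matrix.posSemidef_conjTranspose_mul_self Φ
    rwa [h.eq] at this
  have h2 : (0 : ℂ) ≤ (t : ℂ) ^ 2 := by
    have : ((t : ℂ) ^ 2) = ((t ^ 2 : ℝ) : ℂ) := by push_cast; rfl
    rw [this]
    exact_mod_cast sq_nonneg t
  exact h1.smul h2

lemma isUnit_Bt (t : ℝ) {Φ : Mat N} (h : Φ.IsHermitian) : IsUnit (Bt t Φ) :=
  (posDef_Bt t h).isUnit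

/-- the resolvent `(1 + t² Φ²)⁻¹` -/
noncomputable def Rt (t : ℝ) (Φ : Mat N) : Mat N := (Bt t Φ)⁻¹

lemma Bt_mul_Rt (t : ℝ) {Φ : Mat N} (h : Φ.IsHermitian) : Bt t Φ * Rt t Φ = 1 :=
  Matrix.mul_nonsing_inv _ ((Matrix.isUnit_iff_isUnit_det _).1 (isUnit_Bt t h))

lemma Rt_mul_Bt (t : ℝ) {Φ : Mat N} (h : Φ.IsHermitian) : Rt t Φ * Bt t Φ = 1 :=
  Matrix.nonsing_inv_mul _ ((Matrix.isUnit_iff_isUnit_det _).1 (isUnit_Bt t h))

lemma continuousOn_Rt :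
    ContinuousOn (fun p : ℝ × Mat N => Rt p.1 p.2) {p | p.2.IsHermitian} := by
  intro p hp
  obtain ⟨u, hu⟩ := isUnit_Bt p.1 hp
  have h1 : ContinuousAt (fun q : ℝ × Mat N => Bt q.1 q.2) p := by
    unfold Bt
    fun_prop
  have h2 : ContinuousAt (Ring.inverse : Mat N → Mat N) (Bt p.1 p.2) := by
    rw [← hu]; exact NormedRing.inverse_continuousAt u
  have h3 : (fun q : ℝ × Mat N => Rt q.1 q.2) = fun q => Ring.inverse (Bt q.1 q.2) := by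
    funext q
    rw [Rt, Matrix.nonsing_inv_eq_ringInverse]
  rw [h3]
  exact (ContinuousAt.comp (f := fun q : ℝ × Mat N => Bt q.1 q.2) h2 h1).continuousWithinAt

/-- a uniform bound of the resolvents near a Hermitian matrix -/
lemma exists_bound (Φ : Mat N) : ∃ C : ℝ, 0 ≤ C ∧ ∀ t ∈ Icc (0 : ℝ) 1, ∀ Ψ : Mat N,
    Ψ.IsHermitian → ‖Ψ - Φ‖ ≤ 1 → ‖Rt t Ψ‖ ≤ C ∧ ‖Ψ‖ ≤ C := by
  have hcl : IsClosed {Ψ : Mat N | Ψ.IsHermitian} := by
    have : {Ψ : Mat N | Ψ.IsHermitian} = {Ψ | Ψᴴ = Ψ} := rfl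
    rw [this]
    exact isClosed_eq (by fun_prop) continuous_id
  have hK : IsCompact (Icc (0 : ℝ) 1 ×ˢ (Metric.closedBall Φ 1 ∩ {Ψ : Mat N | Ψ.IsHermitian})) :=
    isCompact_Icc.prod ((isCompact_closedBall Φ 1).inter_right hcl)
  obtain ⟨C, hC⟩ := hK.exists_bound_of_continuousOn
    (continuousOn_Rt.mono (fun p hp => hp.2.2))
  refine ⟨max C (‖Φ‖ + 1), le_max_of_le_right (by positivity), fun t ht Ψ hΨ hd => ⟨?_, ?_⟩⟩
  · refine (hC (t, Ψ) ⟨ht, ?_, hΨ⟩).trans (le_max_left _ _)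
    rwa [Metric.mem_closedBall, dist_eq_norm]
  · refine le_trans ?_ (le_max_right _ _)
    calc ‖Ψ‖ = ‖Φ + (Ψ - Φ)‖ := by congr 1; abel
      _ ≤ ‖Φ‖ + ‖Ψ - Φ‖ := norm_add_le _ _
      _ ≤ ‖Φ‖ + 1 := by linarith

lemma comm_Rt (t : ℝ) {Φ : Mat N} (h : Φ.IsHermitian) : Φ * Rt t Φ = Rt t Φ * Φ := by
  have h1 : Φ * Bt t Φ = Bt t Φ * Φ := by
    simp only [Bt, mul_add, add_mul, mul_one, one_mul, Matrix.mul_smul, Matrix.smul_mul,
      Matrix.mul_assoc]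
  calc Φ * Rt t Φ = (Rt t Φ * Bt t Φ) * Φ * Rt t Φ := by rw [Rt_mul_Bt t h, one_mul]
    _ = Rt t Φ * (Bt t Φ * Φ) * Rt t Φ := by simp only [Matrix.mul_assoc]
    _ = Rt t Φ * (Φ * Bt t Φ) * Rt t Φ := by rw [h1]
    _ = Rt t Φ * Φ * (Bt t Φ * Rt t Φ) := by simp only [Matrix.mul_assoc]
    _ = Rt t Φ * Φ := by rw [Bt_mul_Rt t h, mul_one]

/-- the resolvent identity -/
lemma Rt_sub (t : ℝ) {Φ Ψ : Mat N} (h : Φ.IsHermitian) (h' : Ψ.IsHermitian) :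
    Rt t Ψ - Rt t Φ = - (((t : ℂ) ^ 2) • (Rt t Ψ * (Ψ * (Ψ - Φ) + (Ψ - Φ) * Φ) * Rt t Φ)) := by
  have e : Ψ * (Ψ - Φ) + (Ψ - Φ) * Φ = Ψ * Ψ - Φ * Φ := by noncomm_ring
  have h1 : Bt t Ψ - Bt t Φ = ((t : ℂ) ^ 2) • (Ψ * Ψ - Φ * Φ) := by
    simp only [Bt, smul_sub]; abel
  calc Rt t Ψ - Rt t Φ = Rt t Ψ * (Bt t Φ * Rt t Φ) - (Rt t Ψ * Bt t Ψ) * Rt t Φ := by
        rw [Bt_mul_Rt t h, Rt_mul_Bt t h', mul_one, one_mul]
    _ = - (Rt t Ψ * (Bt t Ψ - Bt t Φ) * Rt t Φ) := by noncomm_ring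
    _ = _ := by
        rw [h1, e, Matrix.mul_smul, Matrix.smul_mul]

/-- the integrand of the derivative -/
noncomputable def Lt (t : ℝ) (Φ η : Mat N) : ℝ :=
  rtr (Rt t Φ * η) - 2 * t ^ 2 * rtr (Rt t Φ * (Φ * Φ) * Rt t Φ * η)

lemma rtr_smul_sq (t : ℝ) (A : Mat N) : rtr (((t : ℂ) ^ 2) • A) = t ^ 2 * rtr A := by
  have : ((t : ℂ) ^ 2) = ((t ^ 2 : ℝ) : ℂ) := by push_cast; rfl
  rw [this, rtr, Matrix.trace_smul, rtr, smul_eq_mul, Complex.re_ofReal_mul]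

lemma expansion (t : ℝ) {Φ Ψ : Mat N} (h : Φ.IsHermitian) (h' : Ψ.IsHermitian) :
    rtr (Ψ * Rt t Ψ) - rtr (Φ * Rt t Φ) - Lt t Φ (Ψ - Φ) =
      rtr ((Ψ - Φ) * (Rt t Ψ - Rt t Φ)) -
      t ^ 2 * rtr (Φ * (Rt t Ψ - Rt t Φ) * (Ψ * (Ψ - Φ) + (Ψ - Φ) * Φ) * Rt t Φ) -
      t ^ 2 * rtr (Φ * Rt t Φ * ((Ψ - Φ) * (Ψ - Φ)) * Rt t Φ) := by
  set η := Ψ - Φ with hη
  set R := Rt t Φ with hR
  set S := Rt t Ψ with hS
  have hΨ : Ψ = Φ + η := by rw [hη]; abel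
  have hX : S - R = - (((t : ℂ) ^ 2) • (S * (Ψ * η + η * Φ) * R)) := Rt_sub t h h'
  have hc : Φ * R = R * Φ := comm_Rt t h
  have e1 : rtr (Ψ * S) - rtr (Φ * R) = rtr (η * R) + rtr (η * (S - R)) + rtr (Φ * (S - R)) := by
    rw [← rtr_sub, ← rtr_add, ← rtr_add]
    congr 1
    rw [hΨ]; noncomm_ring
  have e2 : rtr (Φ * (S - R)) = - (t ^ 2 * rtr (Φ * S * (Ψ * η + η * Φ) * R)) := by
    conv_lhs => rw [hX]
    rw [mul_neg, rtr_neg, Matrix.mul_smul, rtr_smul_sq]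
    simp only [Matrix.mul_assoc]
  have e3 : Φ * S * (Ψ * η + η * Φ) * R = Φ * (S - R) * (Ψ * η + η * Φ) * R +
      Φ * R * (η * η) * R + Φ * R * (Φ * η + η * Φ) * R := by
    rw [hΨ]; noncomm_ring
  have e4 : rtr (Φ * R * (Φ * η + η * Φ) * R) = 2 * rtr (R * (Φ * Φ) * R * η) := by
    have a1 : rtr (Φ * R * (Φ * η) * R) = rtr (R * (Φ * Φ) * R * η) := by
      rw [rtr_mul_comm]
      congr 1
      calc R * (Φ * R * (Φ * η)) = R * ((Φ * R) * Φ * η) := by simp only [Matrix.mul_assoc]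
        _ = R * ((R * Φ) * Φ * η) := by rw [hc]
        _ = R * (R * Φ) * Φ * η := by simp only [Matrix.mul_assoc]
        _ = R * (Φ * R) * Φ * η := by rw [hc]
        _ = R * Φ * (R * Φ) * η := by simp only [Matrix.mul_assoc]
        _ = R * Φ * (Φ * R) * η := by rw [hc]
        _ = R * (Φ * Φ) * R * η := by simp only [Matrix.mul_assoc]
    have a2 : rtr (Φ * R * (η * Φ) * R) = rtr (R * (Φ * Φ) * R * η) := by
      have : Φ * R * (η * Φ) * R = (Φ * R) * (η * (Φ * R)) := by simp only [Matrix.mul_assoc]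
      rw [this, hc, rtr_mul_comm]
      have : η * (R * Φ) * (R * Φ) = η * (R * Φ * (R * Φ)) := by simp only [Matrix.mul_assoc]
      rw [this, rtr_mul_comm]
      congr 1
      rw [← hc]
      calc Φ * R * (Φ * R) * η = (Φ * R) * (Φ * R) * η := rfl
        _ = (R * Φ) * (Φ * R) * η := by rw [hc]
        _ = R * (Φ * Φ) * R * η := by simp only [Matrix.mul_assoc]
    rw [show Φ * R * (Φ * η + η * Φ) * R = Φ * R * (Φ * η) * R + Φ * R * (η * Φ) * R by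
      noncomm_ring, rtr_add, a1, a2]
    ring
  rw [e1, e2, e3, rtr_add, rtr_add, e4, Lt, rtr_mul_comm η R]
  ring

/-- second order estimate of the remainder, uniformly in `t` -/
lemma estimate (Φ : Mat N) (h : Φ.IsHermitian) : ∃ C : ℝ, 0 ≤ C ∧ ∀ t ∈ Icc (0 : ℝ) 1,
    ∀ Ψ : Mat N, Ψ.IsHermitian → ‖Ψ - Φ‖ ≤ 1 →
    |rtr (Ψ * Rt t Ψ) - rtr (Φ * Rt t Φ) - Lt t Φ (Ψ - Φ)| ≤ C * ‖Ψ - Φ‖ ^ 2 := by
  obtain ⟨K, hK0, hK⟩ := exists_bound Φ
  obtain ⟨c, hc0, hc⟩ := rtr_bound (N := N)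
  refine ⟨c * (K * (2 * K) * K) + c * (K * (K * (2 * K) * K) * (2 * K) * K) + c * (K * K * K),
    by positivity, fun t ht Ψ hΨ hd => ?_⟩
  rw [expansion t h hΨ]
  obtain ⟨hS, hΨK⟩ := hK t ht Ψ hΨ hd
  obtain ⟨hR, hΦK⟩ := hK t ht Φ h (by simp)
  set η := Ψ - Φ with hη
  have ht2 : t ^ 2 ≤ 1 := by
    have := ht.1; have := ht.2; nlinarith
  have ht2' : 0 ≤ t ^ 2 := sq_nonneg t
  have hZ : ‖Ψ * η + η * Φ‖ ≤ 2 * K * ‖η‖ := by
    calc ‖Ψ * η + η * Φ‖ ≤ ‖Ψ * η‖ + ‖η * Φ‖ := norm_add_le _ _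
      _ ≤ ‖Ψ‖ * ‖η‖ + ‖η‖ * ‖Φ‖ := add_le_add (norm_mul_le _ _) (norm_mul_le _ _)
      _ ≤ K * ‖η‖ + ‖η‖ * K := by gcongr
      _ = 2 * K * ‖η‖ := by ring
  have hX : ‖Rt t Ψ - Rt t Φ‖ ≤ K * (2 * K * ‖η‖) * K := by
    rw [Rt_sub t h hΨ, norm_neg, norm_smul]
    have : ‖((t : ℂ) ^ 2)‖ = t ^ 2 := by
      rw [norm_pow, Complex.norm_real, Real.norm_eq_abs, sq_abs]
    rw [this]
    calc t ^ 2 * ‖Rt t Ψ * (Ψ * η + η * Φ) * Rt t Φ‖
        ≤ 1 * ‖Rt t Ψ * (Ψ * η + η * Φ) * Rt t Φ‖ := by gcongr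
      _ = ‖Rt t Ψ * (Ψ * η + η * Φ) * Rt t Φ‖ := one_mul _
      _ ≤ ‖Rt t Ψ * (Ψ * η + η * Φ)‖ * ‖Rt t Φ‖ := norm_mul_le _ _
      _ ≤ (‖Rt t Ψ‖ * ‖Ψ * η + η * Φ‖) * ‖Rt t Φ‖ := by gcongr; exact norm_mul_le _ _
      _ ≤ K * (2 * K * ‖η‖) * K := by gcongr
  have b1 : |rtr (η * (Rt t Ψ - Rt t Φ))| ≤ c * (K * (2 * K) * K) * ‖η‖ ^ 2 := by
    calc |rtr (η * (Rt t Ψ - Rt t Φ))| ≤ c * ‖η * (Rt t Ψ - Rt t Φ)‖ := hc _
      _ ≤ c * (‖η‖ * ‖Rt t Ψ - Rt t Φ‖) := by gcongr; exact norm_mul_le _ _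
      _ ≤ c * (‖η‖ * (K * (2 * K * ‖η‖) * K)) := by gcongr
      _ = _ := by ring
  have b2 : |t ^ 2 * rtr (Φ * (Rt t Ψ - Rt t Φ) * (Ψ * η + η * Φ) * Rt t Φ)| ≤
      c * (K * (K * (2 * K) * K) * (2 * K) * K) * ‖η‖ ^ 2 := by
    rw [abs_mul, abs_of_nonneg ht2']
    calc t ^ 2 * |rtr (Φ * (Rt t Ψ - Rt t Φ) * (Ψ * η + η * Φ) * Rt t Φ)|
        ≤ 1 * (c * ‖Φ * (Rt t Ψ - Rt t Φ) * (Ψ * η + η * Φ) * Rt t Φ‖) := by
          gcongr; exact hc _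
      _ ≤ 1 * (c * (((‖Φ‖ * ‖Rt t Ψ - Rt t Φ‖) * ‖Ψ * η + η * Φ‖) * ‖Rt t Φ‖)) := by
          gcongr
          refine (norm_mul_le _ _).trans ?_
          gcongr
          refine (norm_mul_le _ _).trans ?_
          gcongr
          exact norm_mul_le _ _
      _ ≤ 1 * (c * (((K * (K * (2 * K * ‖η‖) * K)) * (2 * K * ‖η‖)) * K)) := by gcongr
      _ = _ := by ring
  have b3 : |t ^ 2 * rtr (Φ * Rt t Φ * (η * η) * Rt t Φ)| ≤ c * (K * K * K) * ‖η‖ ^ 2 := by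
    rw [abs_mul, abs_of_nonneg ht2']
    calc t ^ 2 * |rtr (Φ * Rt t Φ * (η * η) * Rt t Φ)|
        ≤ 1 * (c * ‖Φ * Rt t Φ * (η * η) * Rt t Φ‖) := by
          gcongr; exact hc _
      _ ≤ 1 * (c * (((‖Φ‖ * ‖Rt t Φ‖) * (‖η‖ * ‖η‖)) * ‖Rt t Φ‖)) := by
          gcongr
          refine (norm_mul_le _ _).trans ?_
          gcongr
          refine (norm_mul_le _ _).trans ?_
          gcongr
          · exact norm_mul_le _ _
          · exact norm_mul_le _ _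
      _ ≤ 1 * (c * (((K * K) * (‖η‖ * ‖η‖)) * K)) := by gcongr
      _ = _ := by ring
  calc |rtr (η * (Rt t Ψ - Rt t Φ)) -
        t ^ 2 * rtr (Φ * (Rt t Ψ - Rt t Φ) * (Ψ * η + η * Φ) * Rt t Φ) -
        t ^ 2 * rtr (Φ * Rt t Φ * (η * η) * Rt t Φ)|
      ≤ |rtr (η * (Rt t Ψ - Rt t Φ))| +
        |t ^ 2 * rtr (Φ * (Rt t Ψ - Rt t Φ) * (Ψ * η + η * Φ) * Rt t Φ)| +
        |t ^ 2 * rtr (Φ * Rt t Φ * (η * η) * Rt t Φ)| := by
        refine (abs_sub _ _).trans ?_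
        gcongr
        exact abs_sub _ _
    _ ≤ _ := by
        rw [add_mul, add_mul]
        exact add_le_add (add_le_add b1 b2) b3

lemma continuous_Rt {Φ : Mat N} (h : Φ.IsHermitian) : Continuous (fun t : ℝ => Rt t Φ) := by
  have h2 : Continuous (fun t : ℝ => ((t, Φ) : ℝ × Mat N)) := by fun_prop
  exact ContinuousOn.comp_continuous (f := fun t : ℝ => ((t, Φ) : ℝ × Mat N))
    (g := fun p : ℝ × Mat N => Rt p.1 p.2) (continuousOn_Rt (N := N)) h2 (fun t => h)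

lemma continuous_integrand {Φ : Mat N} (h : Φ.IsHermitian) :
    Continuous (fun t : ℝ => rtr (Φ * Rt t Φ)) := by
  have h1 := continuous_Rt h
  have : (fun t : ℝ => rtr (Φ * Rt t Φ)) = fun t => rtrL (Φ * Rt t Φ) := rfl
  rw [this]
  fun_prop

lemma continuous_Lt {Φ : Mat N} (h : Φ.IsHermitian) (η : Mat N) :
    Continuous (fun t : ℝ => Lt t Φ η) := by
  have h1 := continuous_Rt h
  have : (fun t : ℝ => Lt t Φ η) = fun t =>
    rtrL (Rt t Φ * η) - 2 * t ^ 2 * rtrL (Rt t Φ * (Φ * Φ) * Rt t Φ * η) := rfl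
  rw [this]
  fun_prop

lemma hasDerivAt_Rt {Φ : Mat N} (h : Φ.IsHermitian) (t : ℝ) :
    HasDerivAt (fun t : ℝ => Rt t Φ) (-(Rt t Φ * ((2 * t : ℝ) • (Φ * Φ)) * Rt t Φ)) t := by
  have h0 : (fun t : ℝ => Rt t Φ) = fun t => Ring.inverse (Bt t Φ) := by
    funext q
    rw [Rt, Matrix.nonsing_inv_eq_ringInverse]
  obtain ⟨u, hu⟩ := isUnit_Bt t h
  have h1 : HasFDerivAt Ring.inverse (-ContinuousLinearMap.mulLeftRight ℝ (Mat N) ↑u⁻¹ ↑u⁻¹)
      (Bt t Φ) := by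
    rw [← hu]; exact hasFDerivAt_ringInverse u
  have hB : (fun t : ℝ => Bt t Φ) = fun t : ℝ => (1 : Mat N) + (t ^ 2 : ℝ) • (Φ * Φ) := by
    funext t
    simp only [Bt]
    congr 1
    have : ((t : ℂ) ^ 2) = ((t ^ 2 : ℝ) : ℂ) := by push_cast; rfl
    rw [this]
    exact Complex.coe_smul _ _
  have h2 : HasDerivAt (fun t : ℝ => Bt t Φ) ((2 * t : ℝ) • (Φ * Φ)) t := by
    rw [hB]
    have h3 : HasDerivAt (fun t : ℝ => t ^ 2) (2 * t) t := by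
      simpa using hasDerivAt_pow 2 t
    exact (h3.smul_const (Φ * Φ)).const_add 1
  have h4 := h1.comp_hasDerivAt t h2
  rw [h0]
  have hui : (↑u⁻¹ : Mat N) = Rt t Φ := by
    rw [Rt, ← hu, Matrix.nonsing_inv_eq_ringInverse, Ring.inverse_unit]
  rw [hui] at h4
  exact h4

lemma integral_Lt {Φ : Mat N} (h : Φ.IsHermitian) (η : Mat N) :
    ∫ t in (0 : ℝ)..1, Lt t Φ η = rtr ((1 + Φ * Φ)⁻¹ * η) := by
  have hd : ∀ t ∈ uIcc (0 : ℝ) 1, HasDerivAt (fun t : ℝ => t * rtr (Rt t Φ * η)) (Lt t Φ η) t := by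
    intro t _
    have h1 : HasDerivAt (fun t : ℝ => rtr (Rt t Φ * η))
        (rtr (-(Rt t Φ * ((2 * t : ℝ) • (Φ * Φ)) * Rt t Φ) * η)) t := by
      have h2 := (hasDerivAt_Rt h t).mul_const η
      exact (rtrL (N := N)).hasFDerivAt.comp_hasDerivAt t h2
    have h3 := (hasDerivAt_id t).mul h1
    have h5 : rtr (-(Rt t Φ * ((2 * t : ℝ) • (Φ * Φ)) * Rt t Φ) * η) =
        -(2 * t * rtr (Rt t Φ * (Φ * Φ) * Rt t Φ * η)) := by
      rw [neg_mul, rtr_neg, Matrix.mul_smul, Matrix.smul_mul, Matrix.smul_mul,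
        ← rtrL_apply ((2 * t : ℝ) • _), map_smul, rtrL_apply, smul_eq_mul]
    have h6 : Lt t Φ η = 1 * rtr (Rt t Φ * η) +
        id t * rtr (-(Rt t Φ * ((2 * t : ℝ) • (Φ * Φ)) * Rt t Φ) * η) := by
      rw [h5, Lt, id]; ring
    rw [h6]
    exact h3
  rw [intervalIntegral.integral_eq_sub_of_hasDerivAt hd
    ((continuous_Lt h η).intervalIntegrable 0 1), zero_mul, sub_zero, one_mul]
  have : Rt 1 Φ = (1 + Φ * Φ)⁻¹ := by
    rw [Rt, Bt, Complex.ofReal_one, one_pow, one_smul]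
  rw [this]

lemma atr_eq (Φ : Mat N) : atr Φ = ∫ t in (0 : ℝ)..1, rtr (Φ * Rt t Φ) := rfl

lemma atr_estimate (Φ : Mat N) (h : Φ.IsHermitian) : ∃ C : ℝ, 0 ≤ C ∧
    ∀ Ψ : Mat N, Ψ.IsHermitian → ‖Ψ - Φ‖ ≤ 1 →
    |atr Ψ - atr Φ - rtr ((1 + Φ * Φ)⁻¹ * (Ψ - Φ))| ≤ C * ‖Ψ - Φ‖ ^ 2 := by
  obtain ⟨C, hC0, hC⟩ := estimate Φ h
  refine ⟨C, hC0, fun Ψ hΨ hd => ?_⟩
  have i1 := (continuous_integrand hΨ).intervalIntegrable (μ := volume) 0 1
  have i2 := (continuous_integrand h).intervalIntegrable (μ := volume) 0 1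
  have i3 := (continuous_Lt h (Ψ - Φ)).intervalIntegrable (μ := volume) 0 1
  rw [atr_eq, atr_eq, ← integral_Lt h, ← intervalIntegral.integral_sub i1 i2,
    ← intervalIntegral.integral_sub (i1.sub i2) i3]
  have := intervalIntegral.norm_integral_le_of_norm_le_const (a := 0) (b := 1)
    (f := fun t : ℝ => rtr (Ψ * Rt t Ψ) - rtr (Φ * Rt t Φ) - Lt t Φ (Ψ - Φ))
    (C := C * ‖Ψ - Φ‖ ^ 2) (by
      intro t ht
      rw [uIoc_of_le zero_le_one] at ht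
      exact hC t ⟨ht.1.le, ht.2⟩ Ψ hΨ hd)
  simpa using this

end Atr

open Atr in
theorem atrD : AtrD := by
  intro N Φ φ s x hx hH hφ hd
  have hd' : HasDerivWithinAt Φ φ s x :=
    hasDerivWithinAt_pi.2 fun i => hasDerivWithinAt_pi.2 fun j => hd i j
  obtain ⟨C, hC0, hC⟩ := atr_estimate (Φ x) (hH x hx)
  -- the linear part
  have h1 : HasDerivWithinAt (fun y => rtr ((1 + Φ x * Φ x)⁻¹ * Φ y))
      (rtr ((1 + Φ x * Φ x)⁻¹ * φ)) s x := by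
    have h2 := hd'.const_mul ((1 + Φ x * Φ x)⁻¹)
    exact (rtrL (N := N)).hasFDerivAt.comp_hasDerivWithinAt x h2
  -- the remainder
  have h3 : HasDerivWithinAt (fun y => atr (Φ y) - rtr ((1 + Φ x * Φ x)⁻¹ * Φ y)) 0 s x := by
    rw [hasDerivWithinAt_iff_isLittleO]
    have hO : (fun y => Φ y - Φ x) =O[𝓝[s] x] fun y => y - x :=
      (hd'.hasFDerivWithinAt).isBigO_sub
    have ht : Tendsto (fun y => Φ y - Φ x) (𝓝[s] x) (𝓝 0) := by
      have := hd'.continuousWithinAt.tendsto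
      simpa using this.sub_const (Φ x)
    have hev : ∀ᶠ y in 𝓝[s] x, y ∈ s ∧ ‖Φ y - Φ x‖ ≤ 1 := by
      refine (eventually_mem_nhdsWithin).and ?_
      have := (tendsto_zero_iff_norm_tendsto_zero.1 ht).eventually (ge_mem_nhds zero_lt_one)
      exact this
    have hb : (fun y => (atr (Φ y) - rtr ((1 + Φ x * Φ x)⁻¹ * Φ y)) -
        (atr (Φ x) - rtr ((1 + Φ x * Φ x)⁻¹ * Φ x)) - (y - x) • (0 : ℝ))
        =O[𝓝[s] x] fun y => ‖Φ y - Φ x‖ ^ 2 := by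
      refine Asymptotics.IsBigO.of_bound C ?_
      filter_upwards [hev] with y hy
      have := hC (Φ y) (hH y hy.1) hy.2
      have e : (atr (Φ y) - rtr ((1 + Φ x * Φ x)⁻¹ * Φ y)) -
        (atr (Φ x) - rtr ((1 + Φ x * Φ x)⁻¹ * Φ x)) - (y - x) • (0 : ℝ) =
        atr (Φ y) - atr (Φ x) - rtr ((1 + Φ x * Φ x)⁻¹ * (Φ y - Φ x)) := by
        rw [Matrix.mul_sub, rtr_sub, smul_zero]; ring
      rw [e, Real.norm_eq_abs, Real.norm_eq_abs, abs_of_nonneg (sq_nonneg ‖Φ y - Φ x‖)]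
      exact this
    refine hb.trans_isLittleO ?_
    have h5 : (fun y => ‖Φ y - Φ x‖ ^ 2) =O[𝓝[s] x] fun y => (y - x) ^ 2 := by
      exact (hO.norm_left.pow 2)
    refine h5.trans_isLittleO ?_
    have h6 : (fun y : ℝ => (y - x) ^ 2) =o[𝓝 x] fun y => y - x := by
      have : (fun y : ℝ => (y - x) ^ 2) = fun y => (y - x) * (y - x) := by
        funext y; ring
      rw [this]
      have h7 : (fun y : ℝ => (y - x)) =o[𝓝 x] fun _ => (1 : ℝ) := by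
        rw [Asymptotics.isLittleO_one_iff]
        have : Tendsto (fun y : ℝ => y - x) (𝓝 x) (𝓝 (x - x)) :=
          (continuous_id.sub continuous_const).tendsto x
        simpa using this
      simpa using h7.mul_isBigO (Asymptotics.isBigO_refl (fun y : ℝ => y - x) (𝓝 x))
    exact h6.mono nhdsWithin_le_nhds
  have h8 := h3.add h1
  simp only [zero_add] at h8
  refine h8.congr_of_eventuallyEq (Eventually.of_forall fun y => ?_) ?_ <;> simp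

namespace Atr

variable {N : ℕ}

lemma res_conj {U : Mat N} (h1 : Uᴴ * U = 1) (h2 : U * Uᴴ = 1) (d : Fin N → ℝ) (t : ℝ) :
    Rt t (U * diagonal (fun i => (d i : ℂ)) * Uᴴ) =
      U * diagonal (fun i => ((1 / (1 + t ^ 2 * d i ^ 2) : ℝ) : ℂ)) * Uᴴ := by
  have hc : ∀ A B : Mat N, (U * A * Uᴴ) * (U * B * Uᴴ) = U * (A * B) * Uᴴ := by
    intro A B
    calc (U * A * Uᴴ) * (U * B * Uᴴ) = U * A * (Uᴴ * U) * B * Uᴴ := by
          simp only [Matrix.mul_assoc]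
      _ = U * (A * B) * Uᴴ := by rw [h1, mul_one]; simp only [Matrix.mul_assoc]
  have hB : Bt t (U * diagonal (fun i => (d i : ℂ)) * Uᴴ) =
      U * diagonal (fun i => ((1 + t ^ 2 * d i ^ 2 : ℝ) : ℂ)) * Uᴴ := by
    have e : (diagonal (fun i => ((1 + t ^ 2 * d i ^ 2 : ℝ) : ℂ)) : Mat N) =
        1 + ((t : ℂ) ^ 2) • (diagonal (fun i => (d i : ℂ)) * diagonal (fun i => (d i : ℂ))) := by
      rw [diagonal_mul_diagonal]
      ext i j
      rcases eq_or_ne i j with rfl | hij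
      · simp [pow_two]
      · simp [hij]
    rw [Bt, hc, e, mul_add, add_mul, mul_one, h2, Matrix.mul_smul, Matrix.smul_mul]
  rw [Rt, hB]
  refine Matrix.inv_eq_right_inv ?_
  rw [hc, diagonal_mul_diagonal]
  have : (fun i => ((1 + t ^ 2 * d i ^ 2 : ℝ) : ℂ) * ((1 / (1 + t ^ 2 * d i ^ 2) : ℝ) : ℂ)) =
      fun _ => (1 : ℂ) := by
    funext i
    rw [← Complex.ofReal_mul, mul_one_div_cancel (by positivity), Complex.ofReal_one]
  rw [this, diagonal_one, mul_one, h2]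

lemma integral_arctan (d : ℝ) : ∫ t in (0 : ℝ)..1, d * (1 / (1 + t ^ 2 * d ^ 2)) =
    Real.arctan d := by
  have hd : ∀ t ∈ uIcc (0 : ℝ) 1, HasDerivAt (fun t : ℝ => Real.arctan (t * d))
      (d * (1 / (1 + t ^ 2 * d ^ 2))) t := by
    intro t _
    have h1 : HasDerivAt (fun t : ℝ => t * d) (1 * d) t := (hasDerivAt_id' t).mul_const d
    have := h1.arctan
    convert this using 1
    ring
  rw [intervalIntegral.integral_eq_sub_of_hasDerivAt hd]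
  · simp
  · apply Continuous.intervalIntegrable
    have : ∀ t : ℝ, (1 + t ^ 2 * d ^ 2) ≠ 0 := fun t => by positivity
    fun_prop (disch := exact this _)

end Atr

open Atr in
theorem atrE : AtrE := by
  intro N H hH c
  set U : Mat N := (hH.eigenvectorUnitary : Mat N) with hU
  have h1 : Uᴴ * U = 1 := by
    have := Unitary.coe_star_mul_self hH.eigenvectorUnitary
    simpa [Matrix.star_eq_conjTranspose] using this
  have h2 : U * Uᴴ = 1 := by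
    have := Unitary.coe_mul_star_self hH.eigenvectorUnitary
    simpa [Matrix.star_eq_conjTranspose] using this
  have hs : H = U * diagonal (fun i => (hH.eigenvalues i : ℂ)) * Uᴴ := by
    have := hH.spectral_theorem
    rw [Unitary.conjStarAlgAut_apply] at this
    exact this
  have hcs : (c : ℂ) • H = U * diagonal (fun i => ((c * hH.eigenvalues i : ℝ) : ℂ)) * Uᴴ := by
    have : (diagonal (fun i => ((c * hH.eigenvalues i : ℝ) : ℂ)) : Mat N) =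
        (c : ℂ) • diagonal (fun i => (hH.eigenvalues i : ℂ)) := by
      ext i j
      rcases eq_or_ne i j with rfl | hij
      · simp
      · simp [hij]
    rw [this, Matrix.mul_smul, Matrix.smul_mul, ← hs]
  rw [atr_eq, hcs]
  set d : Fin N → ℝ := fun i => c * hH.eigenvalues i with hdd
  have hint : ∀ t : ℝ, rtr ((U * diagonal (fun i => (d i : ℂ)) * Uᴴ) *
      Rt t (U * diagonal (fun i => (d i : ℂ)) * Uᴴ)) = ∑ i, d i * (1 / (1 + t ^ 2 * d i ^ 2)) := by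
    intro t
    rw [res_conj h1 h2]
    have e : (U * diagonal (fun i => (d i : ℂ)) * Uᴴ) *
        (U * diagonal (fun i => ((1 / (1 + t ^ 2 * d i ^ 2) : ℝ) : ℂ)) * Uᴴ) =
        U * (diagonal (fun i => (d i : ℂ)) *
          diagonal (fun i => ((1 / (1 + t ^ 2 * d i ^ 2) : ℝ) : ℂ)) * Uᴴ) := by
      calc _ = U * diagonal (fun i => (d i : ℂ)) * (Uᴴ * U) *
            diagonal (fun i => ((1 / (1 + t ^ 2 * d i ^ 2) : ℝ) : ℂ)) * Uᴴ := by
            simp only [Matrix.mul_assoc]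
        _ = _ := by rw [h1, mul_one]; simp only [Matrix.mul_assoc]
    rw [e, rtr_mul_comm, Matrix.mul_assoc, h1, mul_one, diagonal_mul_diagonal, rtr,
      Matrix.trace_diagonal, Complex.re_sum]
    refine Finset.sum_congr rfl fun i _ => ?_
    rw [← Complex.ofReal_mul, Complex.ofReal_re]
  have hint' : (∫ t in (0 : ℝ)..1, rtr ((U * diagonal (fun i => (d i : ℂ)) * Uᴴ) *
      Rt t (U * diagonal (fun i => (d i : ℂ)) * Uᴴ))) =
      ∫ t in (0 : ℝ)..1, ∑ i, d i * (1 / (1 + t ^ 2 * d i ^ 2)) := by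
    congr 1
    funext t
    exact hint t
  rw [hint', intervalIntegral.integral_finsetSum]
  · refine Finset.sum_congr rfl fun i _ => ?_
    exact integral_arctan (d i)
  · intro i _
    apply Continuous.intervalIntegrable
    have : ∀ t : ℝ, (1 + t ^ 2 * d i ^ 2) ≠ 0 := fun t => by positivity
    fun_prop (disch := exact this _)

end Pool.Agent.LTG
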