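import Mathlib

/-!
# Sharp one-dimensional Lieb-Thirring inequality: the trace inequality for Riccati paths
(MP_4c716f_mp; mathematics of this part: helper45)

`Riccati path`: `H > 0`, `F' = H² - F² - V`, `F 0 = H`, `F X = -H`, `-H ≤ F ≤ H`.
Conclusion (`ConseqStmt`): `tr H^(2γ) ≤ L_γ ∫ tr V^(γ+1/2)`.

Pencil coordinates: `F = (Φ T + T Φ)/2`, `E = T (1 + Φ²) T`, `T > 0`, `G = T⁻¹`.
-/

set_option autoImplicit false

namespace Pool.Agent.LTG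

open MeasureTheory Matrix Set Filter Topology
open scoped ComplexOrder

/-- Complex `N × N` matrices. -/
abbrev Mat (N : ℕ) := Matrix (Fin N) (Fin N) ℂ

/-- Real part of the trace. -/
noncomputable def rtr {N : ℕ} (A : Mat N) : ℝ := (Matrix.trace A).re

/-- `(T, Φ)` are pencil coordinates of `(F, E)`. -/
def Pen {N : ℕ} (T Φ F E : Mat N) : Prop :=
  T.PosDef ∧ Φ.IsHermitian ∧ (2 : ℂ) • F = Φ * T + T * Φ ∧ E = T * T + T * Φ * (Φ * T)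

/-- `∫_{-1}^{1} (1-t²)^s dt`. -/
noncomputable def Bs (s : ℝ) : ℝ := ∫ t in (-1 : ℝ)..1, (1 - t ^ 2) ^ s

/-- The one-bound-state constant, `s = γ - 1/2`. -/
noncomputable def Lgam (γ : ℝ) : ℝ :=
  ((γ - 1 / 2) / (γ + 1 / 2)) ^ (γ - 1 / 2) / ((γ + 1 / 2) * Bs (γ - 1 / 2))

/-! ## (ALG) algebra of pencil coordinates -/

/-- (1a) -/
def AlgA : Prop := ∀ (N : ℕ) (T Φ F E : Mat N), Pen T Φ F E →
  rtr (T⁻¹ * (E - F * F)) ≤ rtr T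

/-- (1b) -/
def AlgB : Prop := ∀ (N : ℕ) (T Φ F E : Mat N), Pen T Φ F E →
  rtr (T * T) ≤ rtr (E - F * F)

/-- (1c) injectivity of the derivative. -/
def AlgC : Prop := ∀ (N : ℕ) (T Φ τ φ : Mat N), T.PosDef → Φ.IsHermitian → τ.IsHermitian →
  φ.IsHermitian → Φ * τ + φ * T + τ * Φ + T * φ = 0 →
  τ * T + T * τ + (τ * Φ + T * φ) * (Φ * T) + T * Φ * (Φ * τ + φ * T) = 0 → τ = 0 ∧ φ = 0

/-- (1d) uniqueness. -/
def AlgD : Prop := ∀ (N : ℕ) (T Φ T₁ Φ₁ F E : Mat N), Pen T Φ F E → Pen T₁ Φ₁ F E →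
  T = T₁ ∧ Φ = Φ₁

/-- (1g) the a priori bound. -/
def AlgG : Prop := ∀ (N : ℕ) (H T Φ F : Mat N) (μ : ℝ), H.PosDef → 0 < μ →
  (H - F).PosSemidef → (H + F).PosSemidef → Pen T Φ F (H * H + (μ : ℂ) • 1) →
  μ * rtr T⁻¹ ≤ rtr T

/-- (1h) the square root comparison. -/
def AlgH : Prop := ∀ (N : ℕ) (T B : Mat N), T.PosDef → B.IsHermitian →
  2 * rtr B ≤ rtr T + rtr (T⁻¹ * (B * B))

/-! ## (SOL) the solution map of the pencil equations -/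

/-- (1f) existence. -/
def SolE : Prop := ∀ (N : ℕ) (H F : Mat N) (μ : ℝ), H.PosDef → 0 < μ →
  (H - F).PosSemidef → (H + F).PosSemidef → ∃ T Φ : Mat N, Pen T Φ F (H * H + (μ : ℂ) • 1)

/-- The `T` coordinate of `(F, E)` (0 if there is none). -/
noncomputable def pT {N : ℕ} (F E : Mat N) : Mat N :=
  open Classical in if h : ∃ T Φ : Mat N, Pen T Φ F E then h.choose else 0

/-- The `Φ` coordinate of `(F, E)` (0 if there is none). -/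
noncomputable def pPhi {N : ℕ} (F E : Mat N) : Mat N :=
  open Classical in if h : ∃ T Φ : Mat N, Pen T Φ F E then h.choose_spec.choose else 0

/-- The set of pairs with coordinates. -/
def PenDom (N : ℕ) : Set (Mat N × Mat N) := {p | ∃ T Φ : Mat N, Pen T Φ p.1 p.2}

/-- Hermitian pairs. -/
def HermPair (N : ℕ) : Set (Mat N × Mat N) := {p | p.1.IsHermitian ∧ p.2.IsHermitian}

/-- (SOLO) the domain is open in the Hermitian pairs. -/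
def SolO : Prop := ∀ (N : ℕ) (p : Mat N × Mat N), p ∈ PenDom N →
  ∀ᶠ q in 𝓝[HermPair N] p, q ∈ PenDom N

/-- (SOLC) the coordinates are continuous. -/
def SolC : Prop := ∀ (N : ℕ) (p : Mat N × Mat N), p ∈ PenDom N →
  ContinuousWithinAt (fun q : Mat N × Mat N => pT q.1 q.2) (HermPair N) p ∧
  ContinuousWithinAt (fun q : Mat N × Mat N => pPhi q.1 q.2) (HermPair N) p

/-- (SOLD) the coordinates are differentiable along curves, and the derivative solves the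
linearised equations. -/
def SolD : Prop := ∀ (N : ℕ) (F E : ℝ → Mat N) (F' E' : Mat N) (s : Set ℝ) (x : ℝ), x ∈ s →
  (∀ y ∈ s, (F y).IsHermitian ∧ (E y).IsHermitian) → F'.IsHermitian → E'.IsHermitian →
  (F x, E x) ∈ PenDom N →
  (∀ i j, HasDerivWithinAt (fun y => F y i j) (F' i j) s x) →
  (∀ i j, HasDerivWithinAt (fun y => E y i j) (E' i j) s x) →
  ∃ τ φ : Mat N, τ.IsHermitian ∧ φ.IsHermitian ∧
    (∀ i j, HasDerivWithinAt (fun y => pT (F y) (E y) i j) (τ i j) s x) ∧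
    (∀ i j, HasDerivWithinAt (fun y => pPhi (F y) (E y) i j) (φ i j) s x) ∧
    (2 : ℂ) • F' = pPhi (F x) (E x) * τ + φ * pT (F x) (E x) + τ * pPhi (F x) (E x) +
      pT (F x) (E x) * φ ∧
    E' = τ * pT (F x) (E x) + pT (F x) (E x) * τ +
      (τ * pPhi (F x) (E x) + pT (F x) (E x) * φ) * (pPhi (F x) (E x) * pT (F x) (E x)) +
      pT (F x) (E x) * pPhi (F x) (E x) * (pPhi (F x) (E x) * τ + φ * pT (F x) (E x))

/-- (LINT) trace of the linearised equations: `δ tr T = ½ tr (G δE)` when `δF = 0`. -/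
def LinT : Prop := ∀ (N : ℕ) (T Φ τ φ E' : Mat N), T.PosDef → Φ.IsHermitian → τ.IsHermitian →
  φ.IsHermitian → Φ * τ + φ * T + τ * Φ + T * φ = 0 →
  E' = τ * T + T * τ + (τ * Φ + T * φ) * (Φ * T) + T * Φ * (Φ * τ + φ * T) →
  2 * rtr τ = rtr (T⁻¹ * E')

/-- (LINP) `tr ((1+Φ²)⁻¹ δΦ) = tr (G δF)` when `δE = 0`. -/
def LinP : Prop := ∀ (N : ℕ) (T Φ τ φ F' : Mat N), T.PosDef → Φ.IsHermitian → τ.IsHermitian →
  φ.IsHermitian → (2 : ℂ) • F' = Φ * τ + φ * T + τ * Φ + T * φ →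
  τ * T + T * τ + (τ * Φ + T * φ) * (Φ * T) + T * Φ * (Φ * τ + φ * T) = 0 →
  rtr ((1 + Φ * Φ)⁻¹ * φ) = rtr (T⁻¹ * F')

/-! ## (AT) the trace of the arctangent -/

/-- `tr arctan Φ = ∫₀¹ tr (Φ (1 + t² Φ²)⁻¹) dt`. -/
noncomputable def atr {N : ℕ} (Φ : Mat N) : ℝ :=
  ∫ t in (0 : ℝ)..1, rtr (Φ * (1 + ((t : ℂ) ^ 2) • (Φ * Φ))⁻¹)

/-- (ATD) derivative of `atr`. -/
def AtrD : Prop := ∀ (N : ℕ) (Φ : ℝ → Mat N) (φ : Mat N) (s : Set ℝ) (x : ℝ), x ∈ s →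
  (∀ y ∈ s, (Φ y).IsHermitian) → φ.IsHermitian →
  (∀ i j, HasDerivWithinAt (fun y => Φ y i j) (φ i j) s x) →
  HasDerivWithinAt (fun y => atr (Φ y)) (rtr ((1 + Φ x * Φ x)⁻¹ * φ)) s x

/-- (ATE) value of `atr` at multiples of a Hermitian matrix. -/
def AtrE : Prop := ∀ (N : ℕ) (H : Mat N) (hH : H.IsHermitian) (c : ℝ),
  atr ((c : ℂ) • H) = ∑ i, Real.arctan (c * hH.eigenvalues i)

/-! ## (INT) scalar integrals -/

/-- `J_s = ∫₀^∞ t^(s-1/2) (t^(-1/2) - (1+t)^(-1/2)) dt`. -/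
noncomputable def Js (s : ℝ) : ℝ :=
  ∫ t in Ioi (0 : ℝ), t ^ (s - 1 / 2) * (t ^ (-(1 / 2) : ℝ) - (1 + t) ^ (-(1 / 2) : ℝ))

/-- (INTW) -/
def IntW : Prop := ∀ s w : ℝ, 0 < s → s < 1 → 0 ≤ w →
  IntegrableOn (fun μ : ℝ => μ ^ (s - 1 / 2) *
    (w * μ ^ (-(1 / 2) : ℝ) - 2 * √(w + μ) + 2 * √μ)) (Ioi 0) ∧
  (∀ μ : ℝ, 0 < μ → 0 ≤ w * μ ^ (-(1 / 2) : ℝ) - 2 * √(w + μ) + 2 * √μ) ∧
  ∫ μ in Ioi (0 : ℝ), μ ^ (s - 1 / 2) * (w * μ ^ (-(1 / 2) : ℝ) - 2 * √(w + μ) + 2 * √μ) =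
    w ^ (1 + s) * Js s / (1 + s)

/-- (INTK) -/
def IntK : Prop := ∀ s k : ℝ, 0 < s → s < 1 → 0 ≤ k →
  IntegrableOn (fun μ : ℝ => 2 * μ ^ (s - 1 / 2) * (k * μ ^ (-(1 / 2) : ℝ) -
    Real.arctan (k * μ ^ (-(1 / 2) : ℝ)))) (Ioi 0) ∧
  ∫ μ in Ioi (0 : ℝ), 2 * μ ^ (s - 1 / 2) * (k * μ ^ (-(1 / 2) : ℝ) -
    Real.arctan (k * μ ^ (-(1 / 2) : ℝ))) = k ^ (2 * s + 1) * (Js s * Bs s)

/-- (INTJ) -/
def IntJ : Prop := ∀ s : ℝ, 0 < s → s < 1 → 0 < Js s ∧ 0 < Bs s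

/-! ## (PTW) pointwise inequality in `x`, integrated over `μ` -/

/-- `G_μ = T_μ⁻¹` for the pair `(F, H² + μ)`. -/
noncomputable def Gm {N : ℕ} (H F : Mat N) (μ : ℝ) : Mat N := (pT F (H * H + (μ : ℂ) • 1))⁻¹

/-- (PTW) with `F' = H² - F² - V`. -/
def Ptw : Prop := ∀ (N : ℕ) (H F V : Mat N) (s δ M : ℝ), 0 < s → s < 1 → 0 < δ → δ < M →
  H.PosDef → (H - F).PosSemidef → (H + F).PosSemidef → ∀ hV : V.PosSemidef,
  (∫ μ in δ..M, μ ^ (s - 1 / 2) *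
      rtr ((Gm H F μ - ((μ ^ (-(1 / 2) : ℝ) : ℝ) : ℂ) • 1) * (H * H - F * F - V))) ≤
    (1 / s) * (δ ^ s * |rtr (H * H - F * F)| + 2 * N * δ ^ (s + 1)) +
    (s / (1 + s)) ^ s * Js s / (1 + s) * ∑ i, hV.isHermitian.eigenvalues i ^ (1 + s)

/-! ## (CONSEQ) the main statement -/

/-- (CONSEQ) trace inequality for Riccati paths. -/
def ConseqStmt : Prop := ∀ (N : ℕ) (γ X : ℝ), 1 / 2 < γ → γ < 3 / 2 → 0 < X →
  ∀ (H : Mat N) (hH : H.PosDef) (F V : ℝ → Mat N) (hV : ∀ x ∈ Icc 0 X, (V x).PosSemidef)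
    (v : ℝ → ℝ),
    (∀ i j, ContinuousOn (fun x => V x i j) (Icc 0 X)) →
    F 0 = H → F X = -H →
    (∀ x ∈ Icc 0 X, (H - F x).PosSemidef ∧ (H + F x).PosSemidef) →
    (∀ x ∈ Icc 0 X, ∀ i j, HasDerivWithinAt (fun y => F y i j)
      ((H * H - F x * F x - V x) i j) (Icc 0 X) x) →
    IntervalIntegrable v volume 0 X →
    (∀ (x : ℝ) (hx : x ∈ Icc 0 X),
      ∑ i, (hV x hx).isHermitian.eigenvalues i ^ (γ + 1 / 2) ≤ v x) →
    ∑ i, hH.isHermitian.eigenvalues i ^ (2 * γ) ≤ Lgam γ * ∫ x in (0 : ℝ)..X, v x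

end Pool.Agent.LTG
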