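import Pool.Agent.LTG.Defs

/-!
# Scalar integrals (INT): `IntW`, `IntK`, `IntJ`
-/

set_option autoImplicit false

namespace Pool.Agent.LTG

open MeasureTheory Set Filter Topology

namespace IntPf

/-- The kernel. -/
noncomputable def Fk (s x μ : ℝ) : ℝ :=
  μ ^ (s - 1 / 2) * (μ ^ (-(1 / 2) : ℝ) - (x + μ) ^ (-(1 / 2) : ℝ))

lemma rpow_neg_half {t : ℝ} (ht : 0 ≤ t) : t ^ (-(1 / 2) : ℝ) = (√t)⁻¹ := by
  rw [Real.rpow_neg ht, Real.sqrt_eq_rpow]

lemma Fk_nonneg {s x μ : ℝ} (hx : 0 ≤ x) (hμ : 0 < μ) : 0 ≤ Fk s x μ := by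
  unfold Fk
  apply mul_nonneg (Real.rpow_nonneg hμ.le _)
  rw [rpow_neg_half hμ.le, rpow_neg_half (by positivity), sub_nonneg]
  apply inv_anti₀ (Real.sqrt_pos.2 hμ)
  exact Real.sqrt_le_sqrt (by linarith)

lemma Fk_pos {s x μ : ℝ} (hx : 0 < x) (hμ : 0 < μ) : 0 < Fk s x μ := by
  unfold Fk
  apply mul_pos (Real.rpow_pos_of_pos hμ _)
  rw [rpow_neg_half hμ.le, rpow_neg_half (by positivity), sub_pos]
  apply inv_strictAnti₀ (Real.sqrt_pos.2 hμ)
  exact Real.sqrt_lt_sqrt hμ.le (by linarith)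

lemma Fk_measurable (s : ℝ) : Measurable (fun p : ℝ × ℝ => Fk s p.1 p.2) := by
  unfold Fk
  exact (measurable_snd.pow_const _).mul
    ((measurable_snd.pow_const _).sub ((measurable_fst.add measurable_snd).pow_const _))

/-- Upper bound near infinity. -/
lemma Fk_le_far {s t : ℝ} (ht : 0 < t) : Fk s 1 t ≤ (1 / 2) * t ^ (s - 2) := by
  unfold Fk
  have h1 : t ^ (-(1 / 2) : ℝ) - (1 + t) ^ (-(1 / 2) : ℝ) ≤ (1 / 2) * t ^ (-(3 / 2) : ℝ) := by
    have e : t ^ (-(3 / 2) : ℝ) = (√t)⁻¹ * t⁻¹ := by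
      rw [← rpow_neg_half ht.le, ← Real.rpow_neg_one t, ← Real.rpow_add ht]
      norm_num
    rw [rpow_neg_half ht.le, rpow_neg_half (by positivity), e]
    have ha : 0 < √t := Real.sqrt_pos.2 ht
    have hb : 0 < √(1 + t) := Real.sqrt_pos.2 (by linarith)
    have ha2 : √t * √t = t := Real.mul_self_sqrt ht.le
    have hb2 : √(1 + t) * √(1 + t) = 1 + t := Real.mul_self_sqrt (by linarith)
    have hab : √t ≤ √(1 + t) := Real.sqrt_le_sqrt (by linarith)
    have h3 : (√t)⁻¹ - (√(1 + t))⁻¹ = (√(1 + t) - √t) / (√t * √(1 + t)) := by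
      field_simp
    have h4 : (1 / 2) * ((√t)⁻¹ * t⁻¹) = 1 / (2 * √t * t) := by
      field_simp
    rw [h3, h4, div_le_div_iff₀ (by positivity) (by positivity)]
    have h5 : (√(1 + t) - √t) * (√(1 + t) + √t) = 1 := by nlinarith
    have h6 : (√(1 + t) - √t) * (2 * √t) ≤ 1 := by
      nlinarith
    nlinarith [mul_pos ha hb, mul_pos ha ht]
  calc t ^ (s - 1 / 2) * (t ^ (-(1 / 2) : ℝ) - (1 + t) ^ (-(1 / 2) : ℝ))
      ≤ t ^ (s - 1 / 2) * ((1 / 2) * t ^ (-(3 / 2) : ℝ)) :=
        mul_le_mul_of_nonneg_left h1 (Real.rpow_nonneg ht.le _)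
    _ = (1 / 2) * (t ^ (s - 1 / 2) * t ^ (-(3 / 2) : ℝ)) := by ring
    _ = (1 / 2) * t ^ (s - 2) := by
        rw [← Real.rpow_add ht]; ring_nf

/-- Upper bound near zero. -/
lemma Fk_le_near {s t : ℝ} (ht : 0 < t) : Fk s 1 t ≤ t ^ (s - 1) := by
  unfold Fk
  calc t ^ (s - 1 / 2) * (t ^ (-(1 / 2) : ℝ) - (1 + t) ^ (-(1 / 2) : ℝ))
      ≤ t ^ (s - 1 / 2) * t ^ (-(1 / 2) : ℝ) := by
        apply mul_le_mul_of_nonneg_left _ (Real.rpow_nonneg ht.le _)
        have : 0 ≤ (1 + t) ^ (-(1 / 2) : ℝ) := Real.rpow_nonneg (by linarith) _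
        linarith
    _ = t ^ (s - 1) := by
        rw [← Real.rpow_add ht]; ring_nf

lemma Fk_integrable_one {s : ℝ} (h0 : 0 < s) (h1 : s < 1) :
    IntegrableOn (fun t => Fk s 1 t) (Ioi 0) := by
  have hm : Measurable (fun t => Fk s 1 t) :=
    (Fk_measurable s).comp (measurable_const.prodMk measurable_id)
  rw [← Ioc_union_Ioi_eq_Ioi (zero_le_one (α := ℝ))]
  apply IntegrableOn.union
  · have hi : IntegrableOn (fun t : ℝ => t ^ (s - 1)) (Ioc 0 1) := by
      have := intervalIntegral.intervalIntegrable_rpow' (a := 0) (b := 1) (r := s - 1)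
        (by linarith)
      rwa [intervalIntegrable_iff_integrableOn_Ioc_of_le zero_le_one] at this
    apply Integrable.mono' hi hm.aestronglyMeasurable
    filter_upwards [ae_restrict_mem measurableSet_Ioc] with t ht
    rw [Real.norm_of_nonneg (Fk_nonneg zero_le_one ht.1)]
    exact Fk_le_near ht.1
  · have hi : IntegrableOn (fun t : ℝ => (1 / 2) * t ^ (s - 2)) (Ioi 1) :=
      (integrableOn_Ioi_rpow_of_lt (by linarith) one_pos).const_mul _
    apply Integrable.mono' hi hm.aestronglyMeasurable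
    filter_upwards [ae_restrict_mem measurableSet_Ioi] with t ht
    have ht0 : (0 : ℝ) < t := lt_trans one_pos ht
    rw [Real.norm_of_nonneg (Fk_nonneg zero_le_one ht0)]
    exact Fk_le_far ht0

lemma Fk_scale {s x t : ℝ} (hx : 0 < x) (ht : 0 < t) :
    Fk s x (x * t) = x ^ (s - 1) * Fk s 1 t := by
  unfold Fk
  rw [Real.mul_rpow hx.le ht.le, Real.mul_rpow hx.le ht.le,
    show x + x * t = x * (1 + t) by ring, Real.mul_rpow hx.le (by linarith)]
  have : x ^ (s - 1) = x ^ (s - 1 / 2) * x ^ (-(1 / 2) : ℝ) := by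
    rw [← Real.rpow_add hx]; ring_nf
  rw [this]; ring

lemma Fk_integrable {s x : ℝ} (h0 : 0 < s) (h1 : s < 1) (hx : 0 < x) :
    IntegrableOn (fun t => Fk s x t) (Ioi 0) := by
  have h := integrableOn_Ioi_comp_mul_left_iff (fun t => Fk s x t) 0 hx
  rw [mul_zero] at h
  rw [← h]
  apply IntegrableOn.congr_fun ((Fk_integrable_one h0 h1).const_mul (x ^ (s - 1))) _
    measurableSet_Ioi
  intro t ht
  exact (Fk_scale hx ht).symm

lemma Fk_integral {s x : ℝ} (hx : 0 < x) :
    ∫ t in Ioi (0 : ℝ), Fk s x t = x ^ s * Js s := by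
  have h := integral_comp_mul_left_Ioi (fun t => Fk s x t) 0 hx
  rw [mul_zero] at h
  have h2 : ∫ t in Ioi (0 : ℝ), Fk s x (x * t) = x ^ (s - 1) * Js s := by
    rw [Js, ← integral_const_mul]
    apply setIntegral_congr_fun measurableSet_Ioi
    intro t ht
    exact Fk_scale hx ht
  rw [h2, smul_eq_mul] at h
  have h3 : x ^ s = x * x ^ (s - 1) := by
    nth_rw 2 [← Real.rpow_one x]
    rw [← Real.rpow_add hx]; ring_nf
  rw [h3, mul_assoc, h, ← mul_assoc, mul_inv_cancel₀ hx.ne', one_mul]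

/-- Tonelli. -/
lemma tonelli {s : ℝ} (h0 : 0 < s) (h1 : s < 1) (ν : Measure ℝ) [SFinite ν] (x : ℝ → ℝ)
    (hx : Measurable x) (hx0 : ∀ᵐ y ∂ν, 0 < x y) (hi : Integrable (fun y => x y ^ s) ν) :
    IntegrableOn (fun μ => ∫ y, Fk s (x y) μ ∂ν) (Ioi 0) ∧
      ∫ μ in Ioi (0 : ℝ), ∫ y, Fk s (x y) μ ∂ν = (∫ y, x y ^ s ∂ν) * Js s := by
  have hm : Measurable (fun p : ℝ × ℝ => Fk s (x p.1) p.2) :=
    (Fk_measurable s).comp ((hx.comp measurable_fst).prodMk measurable_snd)
  have hint : Integrable (fun p : ℝ × ℝ => Fk s (x p.1) p.2)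
      (ν.prod (volume.restrict (Ioi 0))) := by
    rw [integrable_prod_iff hm.aestronglyMeasurable]
    refine ⟨?_, ?_⟩
    · filter_upwards [hx0] with y hy
      exact Fk_integrable h0 h1 hy
    · apply (hi.mul_const (Js s)).congr
      filter_upwards [hx0] with y hy
      rw [← Fk_integral hy]
      apply setIntegral_congr_fun measurableSet_Ioi
      intro t ht
      exact (Real.norm_of_nonneg (Fk_nonneg hy.le ht)).symm
  refine ⟨hint.integral_prod_right, ?_⟩
  rw [← integral_integral_swap hint, ← integral_mul_const]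
  apply integral_congr_ae
  filter_upwards [hx0] with y hy
  exact Fk_integral hy

end IntPf

open IntPf

theorem intW : IntW := by
  intro s w h0 h1 hw
  have key : ∀ μ : ℝ, 0 < μ → ∫ y, Fk s y μ ∂(volume.restrict (Ioc 0 w)) =
      μ ^ (s - 1 / 2) * (w * μ ^ (-(1 / 2) : ℝ) - 2 * √(w + μ) + 2 * √μ) := by
    intro μ hμ
    rw [← intervalIntegral.integral_of_le hw]
    have hd : ∀ y ∈ uIcc 0 w, HasDerivAt
        (fun y => μ ^ (s - 1 / 2) * (y * μ ^ (-(1 / 2) : ℝ) - 2 * √(y + μ))) (Fk s y μ) y := by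
      intro y hy
      rw [uIcc_of_le hw] at hy
      have hp : 0 < y + μ := by linarith [hy.1]
      have e := (((hasDerivAt_id y).mul_const (μ ^ (-(1 / 2) : ℝ))).sub
        ((((hasDerivAt_id y).add_const μ).sqrt hp.ne').const_mul 2)).const_mul
          (μ ^ (s - 1 / 2))
      refine e.congr_deriv ?_
      unfold Fk
      rw [rpow_neg_half hp.le]
      simp only [id]
      field_simp
    rw [intervalIntegral.integral_eq_sub_of_hasDerivAt hd]
    · simp only [zero_mul, zero_add]; ring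
    · apply ContinuousOn.intervalIntegrable
      intro y hy
      rw [uIcc_of_le hw] at hy
      have hp : 0 < y + μ := by linarith [hy.1]
      unfold Fk
      apply ContinuousAt.continuousWithinAt
      apply ContinuousAt.mul continuousAt_const
      apply ContinuousAt.sub continuousAt_const
      exact (continuousAt_id.add continuousAt_const).rpow_const (Or.inl hp.ne')
  have hpos : ∀ᵐ y ∂(volume.restrict (Ioc (0 : ℝ) w)), (0 : ℝ) < y := by
    filter_upwards [ae_restrict_mem measurableSet_Ioc] with y hy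
    exact hy.1
  have hir : Integrable (fun y : ℝ => y ^ s) (volume.restrict (Ioc 0 w)) := by
    have := intervalIntegral.intervalIntegrable_rpow' (a := 0) (b := w) (r := s) (by linarith)
    rwa [intervalIntegrable_iff_integrableOn_Ioc_of_le hw] at this
  obtain ⟨t1, t2⟩ := tonelli h0 h1 (volume.restrict (Ioc 0 w)) (fun y => y) measurable_id
    hpos hir
  refine ⟨?_, ?_, ?_⟩
  · apply t1.congr_fun _ measurableSet_Ioi
    intro μ hμ
    exact key μ hμ
  · intro μ hμ
    rw [rpow_neg_half hμ.le]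
    have ha : 0 < √μ := Real.sqrt_pos.2 hμ
    have ha2 : √μ * √μ = μ := Real.mul_self_sqrt hμ.le
    have hb : √(w + μ) ≤ √μ + w * (√μ)⁻¹ / 2 := by
      rw [Real.sqrt_le_left (by positivity)]
      have hc : √μ * (√μ)⁻¹ = 1 := mul_inv_cancel₀ ha.ne'
      nlinarith [sq_nonneg (w * (√μ)⁻¹)]
    linarith
  · rw [← setIntegral_congr_fun measurableSet_Ioi (fun μ hμ => key μ hμ), t2,
      ← intervalIntegral.integral_of_le hw, integral_rpow (Or.inl (by linarith)),
      Real.zero_rpow (by linarith), sub_zero, add_comm s 1]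
    ring

theorem intK : IntK := by
  intro s k h0 h1 hk
  have hkk : -k ≤ k := by linarith
  have key : ∀ μ : ℝ, 0 < μ → ∫ y, Fk s (k ^ 2 - y ^ 2) μ ∂(volume.restrict (Ioc (-k) k)) =
      2 * μ ^ (s - 1 / 2) * (k * μ ^ (-(1 / 2) : ℝ) - Real.arctan (k * μ ^ (-(1 / 2) : ℝ))) := by
    intro μ hμ
    rw [← intervalIntegral.integral_of_le hkk]
    have hsq : ∀ y ∈ uIcc (-k) k, y ^ 2 ≤ k ^ 2 := by
      intro y hy
      rw [uIcc_of_le hkk] at hy
      exact sq_le_sq' hy.1 hy.2
    have hd : ∀ y ∈ uIcc (-k) k, HasDerivAt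
        (fun y => μ ^ (s - 1 / 2) * (y * μ ^ (-(1 / 2) : ℝ) -
          Real.arctan (y / √(k ^ 2 - y ^ 2 + μ)))) (Fk s (k ^ 2 - y ^ 2) μ) y := by
      intro y hy
      have hy2 := hsq y hy
      have hp : 0 < k ^ 2 - y ^ 2 + μ := by linarith
      have hr : 0 < √(k ^ 2 - y ^ 2 + μ) := Real.sqrt_pos.2 hp
      have hr2 : √(k ^ 2 - y ^ 2 + μ) * √(k ^ 2 - y ^ 2 + μ) = k ^ 2 - y ^ 2 + μ :=
        Real.mul_self_sqrt hp.le
      have e1 : HasDerivAt (fun y : ℝ => k ^ 2 - y ^ 2 + μ) (-(2 * y)) y := by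
        have := ((hasDerivAt_pow 2 y).const_sub (k ^ 2)).add_const μ
        simpa using this
      have e2 := e1.sqrt hp.ne'
      have e3 : HasDerivAt (fun y => Real.arctan (y / √(k ^ 2 - y ^ 2 + μ)))
          (√(k ^ 2 - y ^ 2 + μ))⁻¹ y := by
        have h3 := ((hasDerivAt_id y).div e2 hr.ne').arctan
        refine h3.congr_deriv ?_
        simp only [id, Pi.div_apply]
        generalize √(k ^ 2 - y ^ 2 + μ) = r at hr
        have hc : 0 < r ^ 2 + y ^ 2 := by positivity
        have hc1 : 1 + (y / r) ^ 2 = (r ^ 2 + y ^ 2) / r ^ 2 := by field_simp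
        have hc2 : (1 * r - y * (-(2 * y) / (2 * r))) / r ^ 2 = (r ^ 2 + y ^ 2) / r ^ 3 := by
          field_simp
          ring
        rw [hc1, hc2]
        field_simp
      have e := (((hasDerivAt_id y).mul_const (μ ^ (-(1 / 2) : ℝ))).sub e3).const_mul
          (μ ^ (s - 1 / 2))
      refine e.congr_deriv ?_
      unfold Fk
      rw [rpow_neg_half hp.le, one_mul]
    rw [intervalIntegral.integral_eq_sub_of_hasDerivAt hd]
    · have e1 : k ^ 2 - k ^ 2 + μ = μ := by ring
      have e2 : k ^ 2 - (-k) ^ 2 + μ = μ := by ring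
      rw [e1, e2, rpow_neg_half hμ.le, neg_div, Real.arctan_neg, div_eq_mul_inv]
      ring
    · apply ContinuousOn.intervalIntegrable
      intro y hy
      have hy2 := hsq y hy
      have hp : 0 < k ^ 2 - y ^ 2 + μ := by linarith
      unfold Fk
      apply ContinuousAt.continuousWithinAt
      apply ContinuousAt.mul continuousAt_const
      apply ContinuousAt.sub continuousAt_const
      have hcc : ContinuousAt (fun x : ℝ => k ^ 2 - x ^ 2 + μ) y := by fun_prop
      exact hcc.rpow_const (Or.inl hp.ne')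
  have hpos : ∀ᵐ y ∂(volume.restrict (Ioc (-k) k)), (0 : ℝ) < k ^ 2 - y ^ 2 := by
    have hne : ∀ᵐ y ∂(volume.restrict (Ioc (-k) k)), y ≠ k :=
      ae_restrict_of_ae (measure_eq_zero_iff_ae_notMem.1 (measure_singleton k))
    filter_upwards [ae_restrict_mem measurableSet_Ioc, hne] with y hy hy'
    have h1 : y < k := lt_of_le_of_ne hy.2 hy'
    have h2 : -k < y := hy.1
    nlinarith
  have hcont : Continuous (fun y : ℝ => (k ^ 2 - y ^ 2) ^ s) :=
    (by fun_prop : Continuous (fun y : ℝ => k ^ 2 - y ^ 2)).rpow_const (fun _ => Or.inr h0.le)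
  have hir : Integrable (fun y : ℝ => (k ^ 2 - y ^ 2) ^ s) (volume.restrict (Ioc (-k) k)) :=
    hcont.integrableOn_Ioc
  obtain ⟨t1, t2⟩ := tonelli h0 h1 (volume.restrict (Ioc (-k) k)) (fun y => k ^ 2 - y ^ 2)
    (by fun_prop) hpos hir
  have hB : ∫ y in (-k)..k, (k ^ 2 - y ^ 2) ^ s = k ^ (2 * s + 1) * Bs s := by
    rcases hk.eq_or_lt with rfl | hk
    · simp [Real.zero_rpow (show (2 * s + 1) ≠ 0 by linarith)]
    · have h := intervalIntegral.integral_comp_mul_left (a := -1) (b := 1)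
        (fun y => (k ^ 2 - y ^ 2) ^ s) hk.ne'
      have h2 : ∫ t in (-1 : ℝ)..1, (k ^ 2 - (k * t) ^ 2) ^ s = k ^ (2 * s) * Bs s := by
        rw [Bs, ← intervalIntegral.integral_const_mul]
        apply intervalIntegral.integral_congr
        intro t ht
        rw [uIcc_of_le (by norm_num)] at ht
        have ht2 : 0 ≤ 1 - t ^ 2 := by nlinarith [ht.1, ht.2]
        show (k ^ 2 - (k * t) ^ 2) ^ s = k ^ (2 * s) * (1 - t ^ 2) ^ s
        rw [show k ^ 2 - (k * t) ^ 2 = k ^ 2 * (1 - t ^ 2) by ring,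
          Real.mul_rpow (by positivity) ht2, ← Real.rpow_natCast k 2, ← Real.rpow_mul hk.le]
        norm_num
      rw [h2, smul_eq_mul, mul_neg, mul_one] at h
      have h3 : k ^ (2 * s + 1) = k * k ^ (2 * s) := by
        rw [Real.rpow_add hk, Real.rpow_one]; ring
      rw [h3, mul_assoc, h, ← mul_assoc, mul_inv_cancel₀ hk.ne', one_mul]
  refine ⟨?_, ?_⟩
  · apply t1.congr_fun _ measurableSet_Ioi
    intro μ hμ
    exact key μ hμ
  · rw [← setIntegral_congr_fun measurableSet_Ioi (fun μ hμ => key μ hμ), t2,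
      ← intervalIntegral.integral_of_le hkk, hB]
    ring

theorem intJ : IntJ := by
  intro s h0 h1
  constructor
  · have hi := Fk_integrable_one h0 h1
    have hnn : 0 ≤ᵐ[volume.restrict (Ioi 0)] (fun t => Fk s 1 t) := by
      filter_upwards [ae_restrict_mem measurableSet_Ioi] with t ht
      exact Fk_nonneg zero_le_one ht
    have := (setIntegral_pos_iff_support_of_nonneg_ae hnn hi).2 (by
      have hsub : Ioi (0 : ℝ) ⊆ Function.support (fun t => Fk s 1 t) ∩ Ioi 0 := by
        intro t ht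
        exact ⟨(Fk_pos one_pos ht).ne', ht⟩
      refine lt_of_lt_of_le ?_ (measure_mono hsub)
      rw [Real.volume_Ioi]; exact ENNReal.zero_lt_top)
    exact this
  · unfold Bs
    apply intervalIntegral.intervalIntegral_pos_of_pos_on
    · apply Continuous.intervalIntegrable
      exact (by fun_prop : Continuous (fun y : ℝ => 1 - y ^ 2)).rpow_const
        (fun _ => Or.inr h0.le)
    · intro t ht
      apply Real.rpow_pos_of_pos
      nlinarith [ht.1, ht.2]
    · norm_num

end Pool.Agent.LTG
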