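import Pool.Agent.LTG.Defs

/-!
# (PTW) the pointwise inequality, integrated over `μ`
-/

set_option autoImplicit false

namespace Pool.Agent.LTG

open MeasureTheory Matrix Set Filter Topology
open scoped ComplexOrder

section basics
variable {N : ℕ}

theorem PTW_rtr_add (A B : Mat N) : rtr (A + B) = rtr A + rtr B := by
  simp [rtr, Matrix.trace_add]

theorem PTW_rtr_sub (A B : Mat N) : rtr (A - B) = rtr A - rtr B := by
  simp [rtr, Matrix.trace_sub]

theorem PTW_rtr_smul (c : ℝ) (A : Mat N) : rtr ((c : ℂ) • A) = c * rtr A := by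
  simp [rtr, Matrix.trace_smul]

theorem PTW_rtr_one : rtr (1 : Mat N) = N := by
  simp [rtr]

theorem PTW_rtr_deriv (P : ℝ → Mat N) (P' : Mat N) (x : ℝ)
    (h : ∀ i j, HasDerivWithinAt (fun y => P y i j) (P' i j) univ x) :
    HasDerivAt (fun y => rtr (P y)) (rtr P') x := by
  unfold rtr Matrix.trace
  have h1 : HasDerivAt (fun y => ∑ i, P y i i) (∑ i, P' i i) x := by
    refine HasDerivAt.fun_sum (fun i _ => ?_)
    exact (h i i).hasDerivAt univ_mem
  exact (Complex.reCLM.hasFDerivAt (x := ∑ i, P x i i)).comp_hasDerivAt x h1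

theorem PTW_pen (F E : Mat N) (h : ∃ T Φ : Mat N, Pen T Φ F E) : Pen (pT F E) (pPhi F E) F E := by
  unfold pT pPhi
  rw [dif_pos h, dif_pos h]
  exact h.choose_spec.choose_spec

theorem PTW_rtr_nonneg (T : Mat N) (h : T.PosSemidef) : 0 ≤ rtr T := by
  have := h.trace_nonneg
  exact (Complex.le_def.1 this).1

theorem PTW_sq (T : Mat N) (h : T.IsHermitian) (c : ℝ) :
    2 * c * rtr T ≤ rtr (T * T) + c ^ 2 * N := by
  have h1 : 0 ≤ rtr ((T - (c : ℂ) • 1)ᴴ * (T - (c : ℂ) • 1)) :=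
    PTW_rtr_nonneg _ (Matrix.posSemidef_conjTranspose_mul_self _)
  have h2 : (T - (c : ℂ) • 1)ᴴ * (T - (c : ℂ) • 1) =
      T * T - ((2 * c : ℝ) : ℂ) • T + ((c ^ 2 : ℝ) : ℂ) • (1 : Mat N) := by
    rw [Matrix.conjTranspose_sub, h.eq, Matrix.conjTranspose_smul, Matrix.conjTranspose_one]
    simp only [sub_mul, mul_sub, Matrix.smul_mul, Matrix.mul_smul, Matrix.one_mul, Matrix.mul_one,
      smul_smul]
    simp only [Complex.star_def, Complex.conj_ofReal]
    push_cast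
    module
  rw [h2, PTW_rtr_add, PTW_rtr_sub, PTW_rtr_smul, PTW_rtr_smul, PTW_rtr_one] at h1
  linarith

/-- the square root of `σ V + μ` -/
theorem PTW_sqrt (V : Mat N) (hV : V.IsHermitian) (σ μ : ℝ)
    (hpos : ∀ i, 0 ≤ σ * hV.eigenvalues i + μ) :
    ∃ B : Mat N, B.IsHermitian ∧ B * B = (σ : ℂ) • V + (μ : ℂ) • 1 ∧
      rtr B = ∑ i, √(σ * hV.eigenvalues i + μ) := by
  set U : Mat N := (hV.eigenvectorUnitary : Mat N) with hU
  have hUU : star U * U = 1 := Unitary.coe_star_mul_self hV.eigenvectorUnitary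
  have hUU' : U * star U = 1 := Unitary.coe_mul_star_self hV.eigenvectorUnitary
  have hspec : V = U * diagonal (fun i => ((hV.eigenvalues i : ℝ) : ℂ)) * star U := by
    have := hV.spectral_theorem
    rw [Unitary.conjStarAlgAut_apply] at this
    exact this
  refine ⟨U * diagonal (fun i => ((√(σ * hV.eigenvalues i + μ) : ℝ) : ℂ)) * star U, ?_, ?_, ?_⟩
  · rw [Matrix.IsHermitian, Matrix.conjTranspose_mul, Matrix.conjTranspose_mul,
      ← Matrix.star_eq_conjTranspose (star U), star_star, Matrix.diagonal_conjTranspose,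
      ← Matrix.star_eq_conjTranspose U, Matrix.mul_assoc]
    congr 2
    congr 1
    ext i
    simp [Pi.star_apply]
  · have h1 : U * diagonal (fun i => ((√(σ * hV.eigenvalues i + μ) : ℝ) : ℂ)) * star U *
        (U * diagonal (fun i => ((√(σ * hV.eigenvalues i + μ) : ℝ) : ℂ)) * star U) =
        U * (diagonal (fun i => ((√(σ * hV.eigenvalues i + μ) : ℝ) : ℂ)) *
          diagonal (fun i => ((√(σ * hV.eigenvalues i + μ) : ℝ) : ℂ))) * star U := by
      calc _ = U * diagonal (fun i => ((√(σ * hV.eigenvalues i + μ) : ℝ) : ℂ)) * (star U * U) *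
            diagonal (fun i => ((√(σ * hV.eigenvalues i + μ) : ℝ) : ℂ)) * star U := by
            simp only [Matrix.mul_assoc]
        _ = _ := by rw [hUU]; simp only [Matrix.mul_assoc, Matrix.mul_one]
    rw [h1, Matrix.diagonal_mul_diagonal]
    have h2 : (fun i => ((√(σ * hV.eigenvalues i + μ) : ℝ) : ℂ) *
        ((√(σ * hV.eigenvalues i + μ) : ℝ) : ℂ)) =
        fun i => (σ : ℂ) * ((hV.eigenvalues i : ℝ) : ℂ) + (μ : ℂ) := by
      ext i
      rw [← Complex.ofReal_mul, Real.mul_self_sqrt (hpos i)]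
      push_cast
      ring
    rw [h2]
    have h3 : diagonal (fun i => (σ : ℂ) * ((hV.eigenvalues i : ℝ) : ℂ) + (μ : ℂ)) =
        (σ : ℂ) • diagonal (fun i => ((hV.eigenvalues i : ℝ) : ℂ)) + (μ : ℂ) • (1 : Mat N) := by
      ext i j
      by_cases hij : i = j
      · subst hij; simp
      · simp [hij]
    rw [h3, Matrix.mul_add, Matrix.add_mul, Matrix.mul_smul, Matrix.smul_mul, ← hspec,
      Matrix.mul_smul, Matrix.smul_mul, Matrix.mul_one, hUU']
  · unfold rtr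
    rw [Matrix.mul_assoc, Matrix.trace_mul_comm, Matrix.mul_assoc, hUU, Matrix.mul_one,
      Matrix.trace_diagonal]
    rw [Complex.re_sum]
    simp

end basics

/-- the pointwise inequality -/
theorem PTW_point {N : ℕ} (hA : AlgA) (hH : AlgH) (T Φ F H V : Mat N) (s μ : ℝ) (hs0 : 0 < s)
    (hμ : 0 < μ) (hV : V.PosSemidef) (hp : Pen T Φ F (H * H + (μ : ℂ) • 1)) :
    rtr (T⁻¹ * (H * H - F * F - V)) ≤ (1 / s) * ((2 * s + 1) * rtr T + μ * rtr T⁻¹) -
      (2 * ((1 + s) / s)) * ∑ i, √(s / (1 + s) * hV.isHermitian.eigenvalues i + μ) := by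
  have h1 := hA N T Φ F _ hp
  have hσ : 0 < s / (1 + s) := by positivity
  obtain ⟨B, hBH, hBB, hBt⟩ := PTW_sqrt V hV.isHermitian (s / (1 + s)) μ (fun i => by
    have := hV.eigenvalues_nonneg i
    positivity)
  have h2 := hH N T B hp.1 hBH
  rw [hBB, hBt, Matrix.mul_add, PTW_rtr_add, Matrix.mul_smul, Matrix.mul_smul, PTW_rtr_smul,
    PTW_rtr_smul, Matrix.mul_one] at h2
  have e1 : H * H + (μ : ℂ) • 1 - F * F = (H * H - F * F) + (μ : ℂ) • (1 : Mat N) := by abel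
  rw [e1, Matrix.mul_add, PTW_rtr_add, Matrix.mul_smul, PTW_rtr_smul, Matrix.mul_one] at h1
  rw [Matrix.mul_sub, PTW_rtr_sub]
  set S := ∑ i, √(s / (1 + s) * hV.isHermitian.eigenvalues i + μ)
  set a := rtr T
  set g := rtr T⁻¹
  set d := rtr (T⁻¹ * (H * H - F * F))
  set v := rtr (T⁻¹ * V)
  have h3 : ((1 + s) / s) * (2 * S - a - μ * g) ≤ v := by
    have h4 : 2 * S - a - μ * g ≤ s / (1 + s) * v := by linarith
    calc ((1 + s) / s) * (2 * S - a - μ * g) ≤ ((1 + s) / s) * (s / (1 + s) * v) :=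
          mul_le_mul_of_nonneg_left h4 (by positivity)
      _ = v := by field_simp
  have h5 : (1 / s) * ((2 * s + 1) * a + μ * g) - (2 * ((1 + s) / s)) * S =
      (a - μ * g) - ((1 + s) / s) * (2 * S - a - μ * g) := by
    field_simp
    ring
  rw [h5]
  linarith

/-- derivative of the trace of `T` -/
theorem PTW_deriv {N : ℕ} (hT : LinT) (hE : SolE) (hD : SolD) (H F : Mat N) (μ : ℝ) (hμ : 0 < μ)
    (hH : H.PosDef) (h1 : (H - F).PosSemidef) (h2 : (H + F).PosSemidef) :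
    HasDerivAt (fun m : ℝ => rtr (pT F (H * H + (m : ℂ) • 1))) ((1 / 2) * rtr (Gm H F μ)) μ := by
  have hHh : H.IsHermitian := hH.isHermitian
  have hFh : F.IsHermitian := by
    have : F = H - (H - F) := by abel
    rw [this]
    exact hHh.sub h1.isHermitian
  have hEh : ∀ m : ℝ, (H * H + (m : ℂ) • (1 : Mat N)).IsHermitian := by
    intro m
    refine Matrix.IsHermitian.add ?_ ?_
    · rw [Matrix.IsHermitian, Matrix.conjTranspose_mul, hHh.eq]
    · rw [Matrix.IsHermitian, Matrix.conjTranspose_smul, Matrix.conjTranspose_one]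
      simp
  have hpen : (F, H * H + (μ : ℂ) • (1 : Mat N)) ∈ PenDom N := hE N H F μ hH hμ h1 h2
  obtain ⟨τ, φ, hτ, hφ, hd1, hd2, heq1, heq2⟩ := hD N (fun _ => F)
    (fun m => H * H + (m : ℂ) • (1 : Mat N)) 0 1 univ μ (mem_univ _)
    (fun y _ => ⟨hFh, hEh y⟩) Matrix.isHermitian_zero Matrix.isHermitian_one hpen
    (fun i j => by simpa using hasDerivWithinAt_const μ univ (F i j))
    (fun i j => by
      have hd : HasDerivWithinAt (fun y : ℝ => (y : ℂ)) 1 univ μ :=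
        (Complex.ofRealCLM.hasDerivAt (x := μ)).hasDerivWithinAt
      have h3 := (hd.mul_const ((1 : Mat N) i j)).const_add ((H * H) i j)
      simpa [Matrix.add_apply, Matrix.smul_apply] using h3)
  have hpp := PTW_pen F (H * H + (μ : ℂ) • (1 : Mat N)) hpen
  have h4 := hT N (pT F (H * H + (μ : ℂ) • 1)) (pPhi F (H * H + (μ : ℂ) • 1)) τ φ 1 hpp.1 hpp.2.1
    hτ hφ (by rw [← heq1]; simp) heq2
  have h5 := PTW_rtr_deriv (fun m : ℝ => pT F (H * H + (m : ℂ) • 1)) τ μ hd1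
  have h6 : rtr τ = (1 / 2) * rtr (Gm H F μ) := by
    unfold Gm
    rw [Matrix.mul_one] at h4
    linarith
  rw [← h6]
  exact h5

/-- (PTW) -/
theorem ptw (hA : AlgA) (hB : AlgB) (hH : AlgH) (hT : LinT) (hE : SolE) (_hC : SolC) (hD : SolD)
    (hW : IntW) : Ptw := by
  intro N H F V s δ M hs0 hs1 hδ hδM hHp h1 h2 hV
  set D : Mat N := H * H - F * F with hDdef
  set ev := hV.isHermitian.eigenvalues with hev
  have hev0 : ∀ i, 0 ≤ ev i := hV.eigenvalues_nonneg
  set w : Fin N → ℝ := fun i => s / (1 + s) * ev i with hw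
  have hw0 : ∀ i, 0 ≤ w i := fun i => by
    have := hev0 i
    positivity
  have hVtr : rtr V = ∑ i, ev i := by
    unfold rtr
    rw [hV.isHermitian.trace_eq_sum_eigenvalues]
    simp [hev]
  -- `Js` is nonnegative
  have hJ : 0 ≤ Js s := by
    obtain ⟨_, hn, hi⟩ := hW s 1 hs0 hs1 zero_le_one
    have h3 : 0 ≤ ∫ μ in Ioi (0 : ℝ), μ ^ (s - 1 / 2) *
        (1 * μ ^ (-(1 / 2) : ℝ) - 2 * √(1 + μ) + 2 * √μ) :=
      setIntegral_nonneg measurableSet_Ioi (fun μ hμ =>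
        mul_nonneg (Real.rpow_nonneg (le_of_lt hμ) _) (hn μ hμ))
    rw [hi, Real.one_rpow, one_mul] at h3
    have h4 : 0 < 1 + s := by linarith
    by_contra hneg
    have := div_neg_of_neg_of_pos (not_le.1 hneg) h4
    linarith
  set f : ℝ → ℝ := fun μ => μ ^ (s - 1 / 2) *
      rtr ((Gm H F μ - ((μ ^ (-(1 / 2) : ℝ) : ℝ) : ℂ) • 1) * (D - V)) with hf
  set hh : Fin N → ℝ → ℝ := fun i μ => μ ^ (s - 1 / 2) *
    (w i * μ ^ (-(1 / 2) : ℝ) - 2 * √(w i + μ) + 2 * √μ) with hhh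
  -- right-hand side
  have hR2 : (1 + s) / s * ∑ i, ∫ μ in δ..M, hh i μ ≤
      (s / (1 + s)) ^ s * Js s / (1 + s) * ∑ i, ev i ^ (1 + s) := by
    have h3 : ∀ i, ∫ μ in δ..M, hh i μ ≤ w i ^ (1 + s) * Js s / (1 + s) := by
      intro i
      obtain ⟨hint, hn, hi⟩ := hW s (w i) hs0 hs1 (hw0 i)
      rw [← hi, intervalIntegral.integral_of_le hδM.le]
      refine setIntegral_mono_set hint ?_ ?_
      · refine (ae_restrict_iff' measurableSet_Ioi).2 (Filter.Eventually.of_forall fun μ hμ => ?_)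
        exact mul_nonneg (Real.rpow_nonneg (le_of_lt hμ) _) (hn μ hμ)
      · refine LE.le.eventuallyLE ?_
        intro x hx
        exact hδ.trans hx.1
    calc (1 + s) / s * ∑ i, ∫ μ in δ..M, hh i μ ≤
        (1 + s) / s * ∑ i, w i ^ (1 + s) * Js s / (1 + s) := by
          refine mul_le_mul_of_nonneg_left (Finset.sum_le_sum fun i _ => h3 i) (by positivity)
      _ = (s / (1 + s)) ^ s * Js s / (1 + s) * ∑ i, ev i ^ (1 + s) := by
          rw [Finset.mul_sum, Finset.mul_sum]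
          refine Finset.sum_congr rfl fun i _ => ?_
          simp only [hw]
          rw [Real.mul_rpow (by positivity) (hev0 i)]
          have h4 : (s / (1 + s)) ^ (1 + s) = (s / (1 + s)) * (s / (1 + s)) ^ s := by
            rw [Real.rpow_add (by positivity), Real.rpow_one]
          rw [h4]
          have : (1 + s) ≠ 0 := by positivity
          field_simp
  have hRHS0 : 0 ≤ (1 / s) * (δ ^ s * |rtr D| + 2 * N * δ ^ (s + 1)) +
      (s / (1 + s)) ^ s * Js s / (1 + s) * ∑ i, ev i ^ (1 + s) := by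
    have h3 : 0 ≤ ∑ i, ev i ^ (1 + s) :=
      Finset.sum_nonneg fun i _ => Real.rpow_nonneg (hev0 i) _
    positivity
  show ∫ μ in δ..M, f μ ≤ _
  by_cases hfi : IntervalIntegrable f volume δ M
  swap
  · rw [intervalIntegral.integral_undef hfi]
    exact hRHS0
  -- integrability of `hh i`
  have hhi : ∀ i, IntervalIntegrable (hh i) volume δ M := by
    intro i
    obtain ⟨hint, -, -⟩ := hW s (w i) hs0 hs1 (hw0 i)
    rw [intervalIntegrable_iff_integrableOn_Ioc_of_le hδM.le]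
    exact hint.mono_set (fun x hx => hδ.trans hx.1)
  have hhs : IntervalIntegrable (fun μ => ∑ i, hh i μ) volume δ M := by
    have e : (fun μ => ∑ i, hh i μ) = ∑ i, hh i := by
      ext μ
      simp
    rw [e]
    exact IntervalIntegrable.sum Finset.univ (fun i _ => hhi i)
  set g : ℝ → ℝ := fun μ => (2 / s) * (μ ^ (s + 1 / 2) * rtr (pT F (H * H + (μ : ℂ) • 1))) -
    (2 * N / s) * μ ^ (s + 1) - (rtr D / s) * μ ^ s with hg
  set g' : ℝ → ℝ := fun μ => (2 / s) * ((s + 1 / 2) * μ ^ (s + 1 / 2 - 1) *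
      rtr (pT F (H * H + (μ : ℂ) • 1)) + μ ^ (s + 1 / 2) * ((1 / 2) * rtr (Gm H F μ))) -
    (2 * N / s) * ((s + 1) * μ ^ (s + 1 - 1)) - (rtr D / s) * (s * μ ^ (s - 1)) with hg'
  have hgd : ∀ μ, 0 < μ → HasDerivAt g (g' μ) μ := by
    intro μ hμ
    have d1 := PTW_deriv hT hE hD H F μ hμ hHp h1 h2
    have d2 : HasDerivAt (fun x : ℝ => x ^ (s + 1 / 2)) ((s + 1 / 2) * μ ^ (s + 1 / 2 - 1)) μ :=
      Real.hasDerivAt_rpow_const (Or.inl hμ.ne')
    have d3 : HasDerivAt (fun x : ℝ => x ^ (s + 1)) ((s + 1) * μ ^ (s + 1 - 1)) μ :=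
      Real.hasDerivAt_rpow_const (Or.inl hμ.ne')
    have d4 : HasDerivAt (fun x : ℝ => x ^ s) (s * μ ^ (s - 1)) μ :=
      Real.hasDerivAt_rpow_const (Or.inl hμ.ne')
    exact (((d2.mul d1).const_mul (2 / s)).sub (d3.const_mul (2 * N / s))).sub
      (d4.const_mul (rtr D / s))
  set φ : ℝ → ℝ := fun μ => f μ - (1 + s) / s * ∑ i, hh i μ with hφ
  have hφi : IntegrableOn φ (Icc δ M) := by
    rw [integrableOn_Icc_iff_integrableOn_Ioc,
      ← intervalIntegrable_iff_integrableOn_Ioc_of_le hδM.le]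
    exact hfi.sub (hhs.const_mul _)
  have hφg : ∀ μ ∈ Ioo δ M, φ μ ≤ g' μ := by
    intro μ hμ
    have hμ0 : 0 < μ := hδ.trans hμ.1
    have hpen := PTW_pen F (H * H + (μ : ℂ) • (1 : Mat N)) (hE N H F μ hHp hμ0 h1 h2)
    have hpt := PTW_point hA hH _ _ F H V s μ hs0 hμ0 hV hpen
    have e1 : μ ^ (s + 1 / 2 - 1) = μ ^ (s - 1 / 2) := by congr 1; ring
    have e2 : μ ^ (s + 1 / 2) = μ ^ (s - 1 / 2) * μ := by
      rw [← Real.rpow_add_one hμ0.ne']; congr 1; ring
    have e3 : μ ^ (s + 1 - 1) = μ ^ (s - 1 / 2) * √μ := by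
      rw [Real.sqrt_eq_rpow, ← Real.rpow_add hμ0]; congr 1; ring
    have e4 : μ ^ (s - 1) = μ ^ (s - 1 / 2) * μ ^ (-(1 / 2) : ℝ) := by
      rw [← Real.rpow_add hμ0]; congr 1; ring
    have hc : 0 ≤ μ ^ (s - 1 / 2) := Real.rpow_nonneg hμ0.le _
    have e5 : ∑ i, hh i μ = μ ^ (s - 1 / 2) * ((∑ i, w i) * μ ^ (-(1 / 2) : ℝ) -
        2 * (∑ i, √(w i + μ)) + N * (2 * √μ)) := by
      simp only [hhh]
      rw [← Finset.mul_sum, Finset.sum_add_distrib, Finset.sum_sub_distrib, ← Finset.sum_mul,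
        ← Finset.mul_sum]
      simp [Finset.mul_sum]
    have e6 : ∑ i, w i = s / (1 + s) * rtr V := by
      rw [hVtr, Finset.mul_sum]
    have e7 : f μ = μ ^ (s - 1 / 2) * (rtr (Gm H F μ * (D - V)) -
        μ ^ (-(1 / 2) : ℝ) * (rtr D - rtr V)) := by
      simp only [hf]
      rw [Matrix.sub_mul, PTW_rtr_sub, Matrix.smul_mul, PTW_rtr_smul, Matrix.one_mul,
        PTW_rtr_sub]
    have e8 : φ μ = μ ^ (s - 1 / 2) * (rtr (Gm H F μ * (D - V)) -
        μ ^ (-(1 / 2) : ℝ) * rtr D + 2 * ((1 + s) / s) * (∑ i, √(w i + μ)) -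
          2 * ((1 + s) / s) * N * √μ) := by
      simp only [hφ]
      rw [e5, e7, e6]
      field_simp
      ring
    have e9 : g' μ = μ ^ (s - 1 / 2) * ((1 / s) * ((2 * s + 1) * rtr (pT F (H * H + (μ : ℂ) • 1)) +
        μ * rtr (Gm H F μ)) - μ ^ (-(1 / 2) : ℝ) * rtr D - 2 * ((1 + s) / s) * N * √μ) := by
      simp only [hg']
      rw [e1, e2, e3, e4]
      field_simp
      ring
    rw [e8, e9]
    refine mul_le_mul_of_nonneg_left ?_ hc
    have h5 : rtr (Gm H F μ * (D - V)) ≤ (1 / s) * ((2 * s + 1) *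
        rtr (pT F (H * H + (μ : ℂ) • 1)) + μ * rtr (Gm H F μ)) -
      (2 * ((1 + s) / s)) * ∑ i, √(w i + μ) := hpt
    linarith
  have hmain := intervalIntegral.integral_le_sub_of_hasDeriv_right_of_le hδM.le
    (g := g) (g' := g') (φ := φ)
    (fun μ hμ => (hgd μ (hδ.trans_le hμ.1)).continuousAt.continuousWithinAt)
    (fun μ hμ => (hgd μ (hδ.trans hμ.1)).hasDerivWithinAt) hφi hφg
  have hsplit : ∫ μ in δ..M, φ μ = (∫ μ in δ..M, f μ) - (1 + s) / s * ∑ i, ∫ μ in δ..M, hh i μ := by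
    simp only [hφ]
    rw [intervalIntegral.integral_sub hfi, intervalIntegral.integral_const_mul,
      intervalIntegral.integral_finsetSum (fun i _ => hhi i)]
    exact hhs.const_mul _
  -- the end point `M`
  have hM0 : 0 < M := hδ.trans hδM
  have hgM : g M ≤ 0 := by
    have hpen := PTW_pen F (H * H + (M : ℂ) • (1 : Mat N)) (hE N H F M hHp hM0 h1 h2)
    have h3 := PTW_sq (pT F (H * H + (M : ℂ) • 1)) hpen.1.isHermitian (√M)
    have h4 := hB N _ _ _ _ hpen
    have e1 : H * H + (M : ℂ) • 1 - F * F = D + (M : ℂ) • (1 : Mat N) := by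
      rw [hDdef]; abel
    rw [e1, PTW_rtr_add, PTW_rtr_smul, PTW_rtr_one] at h4
    rw [Real.sq_sqrt hM0.le] at h3
    have h5 : 2 * √M * rtr (pT F (H * H + (M : ℂ) • 1)) ≤ rtr D + 2 * N * M := by linarith
    have e2 : M ^ (s + 1 / 2) = M ^ s * √M := by
      rw [Real.sqrt_eq_rpow, ← Real.rpow_add hM0]
    have e3 : M ^ (s + 1) = M ^ s * M := Real.rpow_add_one hM0.ne' _
    simp only [hg]
    rw [e2, e3]
    have h6 : 0 ≤ M ^ s := Real.rpow_nonneg hM0.le _
    have h7 : 2 / s * (M ^ s * √M * rtr (pT F (H * H + (M : ℂ) • 1))) - 2 * N / s * (M ^ s * M) -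
        rtr D / s * M ^ s = (M ^ s / s) * (2 * √M * rtr (pT F (H * H + (M : ℂ) • 1)) -
          (rtr D + 2 * N * M)) := by
      field_simp
      ring
    rw [h7]
    exact mul_nonpos_of_nonneg_of_nonpos (by positivity) (by linarith)
  -- the end point `δ`
  have hgδ : -g δ ≤ (1 / s) * (δ ^ s * |rtr D| + 2 * N * δ ^ (s + 1)) := by
    have hpen := PTW_pen F (H * H + (δ : ℂ) • (1 : Mat N)) (hE N H F δ hHp hδ h1 h2)
    have h3 : 0 ≤ rtr (pT F (H * H + (δ : ℂ) • 1)) := PTW_rtr_nonneg _ hpen.1.posSemidef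
    have h4 : 0 ≤ δ ^ (s + 1 / 2) * rtr (pT F (H * H + (δ : ℂ) • 1)) :=
      mul_nonneg (Real.rpow_nonneg hδ.le _) h3
    have h5 : δ ^ s * rtr D ≤ δ ^ s * |rtr D| :=
      mul_le_mul_of_nonneg_left (le_abs_self _) (Real.rpow_nonneg hδ.le _)
    have h6 : (1 / s) * (δ ^ s * |rtr D| + 2 * N * δ ^ (s + 1)) - (-g δ) =
        (1 / s) * ((δ ^ s * |rtr D| - δ ^ s * rtr D) +
          2 * (δ ^ (s + 1 / 2) * rtr (pT F (H * H + (δ : ℂ) • 1)))) := by
      simp only [hg]
      field_simp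
      ring
    have h7 : 0 ≤ (1 / s) * ((δ ^ s * |rtr D| - δ ^ s * rtr D) +
          2 * (δ ^ (s + 1 / 2) * rtr (pT F (H * H + (δ : ℂ) • 1)))) := by
      refine mul_nonneg (by positivity) ?_
      linarith
    linarith
  linarith

end Pool.Agent.LTG
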