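import Pool.Agent.LTG.Defs

/-!
# LTG_SOL: the solution map of the pencil equations (SolO, SolC, SolD)
-/

set_option autoImplicit false

namespace Pool.Agent.LTG

open MeasureTheory Matrix Set Filter Topology
open scoped ComplexOrder

attribute [local instance] Matrix.normedAddCommGroup Matrix.normedSpace

namespace Sol

variable {N : ℕ}

/-- Hermitian matrices -/
def HS (N : ℕ) : Submodule ℝ (Mat N) where
  carrier := {A | A.IsHermitian}
  add_mem' := fun ha hb => IsHermitian.add ha hb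
  zero_mem' := isHermitian_zero
  smul_mem' := by
    intro c A hA
    show (c • A)ᴴ = c • A
    rw [conjTranspose_smul, star_trivial, hA.eq]

lemma HS_herm (A : HS N) : (A : Mat N).IsHermitian := A.2

/-- the projection onto the Hermitian matrices, linear version -/
noncomputable def prl (N : ℕ) : Mat N →ₗ[ℝ] HS N where
  toFun A := ⟨(1 / 2 : ℝ) • (A + Aᴴ), by
    show ((1 / 2 : ℝ) • (A + Aᴴ))ᴴ = (1 / 2 : ℝ) • (A + Aᴴ)
    rw [conjTranspose_smul, star_trivial, conjTranspose_add, conjTranspose_conjTranspose, add_comm]⟩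
  map_add' A B := by
    apply Subtype.ext
    show (1 / 2 : ℝ) • (A + B + (A + B)ᴴ) = (1 / 2 : ℝ) • (A + Aᴴ) + (1 / 2 : ℝ) • (B + Bᴴ)
    rw [conjTranspose_add, ← smul_add]
    congr 1
    abel
  map_smul' c A := by
    apply Subtype.ext
    show (1 / 2 : ℝ) • (c • A + (c • A)ᴴ) = c • (1 / 2 : ℝ) • (A + Aᴴ)
    rw [conjTranspose_smul, star_trivial, ← smul_add, smul_comm]

/-- the projection onto the Hermitian matrices -/
noncomputable def pr (N : ℕ) : Mat N →L[ℝ] HS N := LinearMap.toContinuousLinearMap (prl N)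

lemma pr_apply (A : Mat N) : ((pr N A : HS N) : Mat N) = (1 / 2 : ℝ) • (A + Aᴴ) := rfl

lemma pr_herm {A : Mat N} (hA : A.IsHermitian) : ((pr N A : HS N) : Mat N) = A := by
  rw [pr_apply, hA.eq, ← two_smul ℝ A, smul_smul]
  norm_num

lemma mul_contDiff {X : Type*} [NormedAddCommGroup X] [NormedSpace ℝ X] {n : WithTop ℕ∞}
    {f g : X → Mat N} (hf : ContDiff ℝ n f) (hg : ContDiff ℝ n g) :
    ContDiff ℝ n (fun x => f x * g x) := by
  have hf' : ∀ i j, ContDiff ℝ n (fun x => f x i j) := fun i j =>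
    contDiff_pi.mp (contDiff_pi.mp hf i) j
  have hg' : ∀ i j, ContDiff ℝ n (fun x => g x i j) := fun i j =>
    contDiff_pi.mp (contDiff_pi.mp hg i) j
  refine contDiff_pi.mpr fun i => contDiff_pi.mpr fun j => ?_
  simp only [Matrix.mul_apply]
  exact ContDiff.sum fun k _ => (hf' i k).mul (hg' k j)

lemma mul_hasDeriv {A B : ℝ → Mat N} {A' B' : Mat N} {s : Set ℝ} {t : ℝ}
    (hA : HasDerivWithinAt A A' s t) (hB : HasDerivWithinAt B B' s t) :
    HasDerivWithinAt (fun x => A x * B x) (A' * B t + A t * B') s t := by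
  have hA' : ∀ i j, HasDerivWithinAt (fun x => A x i j) (A' i j) s t := fun i j =>
    hasDerivWithinAt_pi.mp (hasDerivWithinAt_pi.mp hA i) j
  have hB' : ∀ i j, HasDerivWithinAt (fun x => B x i j) (B' i j) s t := fun i j =>
    hasDerivWithinAt_pi.mp (hasDerivWithinAt_pi.mp hB i) j
  refine hasDerivWithinAt_pi.mpr fun i => hasDerivWithinAt_pi.mpr fun j => ?_
  simp only [Matrix.mul_apply, Matrix.add_apply]
  rw [← Finset.sum_add_distrib]
  exact HasDerivWithinAt.fun_sum fun k _ => (hA' i k).mul (hB' k j)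

/-- first component of the pencil map -/
noncomputable def P1 (T Φ : Mat N) : Mat N := (1 / 2 : ℝ) • (Φ * T + T * Φ)
/-- second component of the pencil map -/
noncomputable def P2 (T Φ : Mat N) : Mat N := T * T + T * Φ * (Φ * T)

/-- the pencil map -/
noncomputable def Psi (p : HS N × HS N) : HS N × HS N := (pr N (P1 p.1 p.2), pr N (P2 p.1 p.2))

lemma Psi_contDiff : ContDiff ℝ 1 (Psi : HS N × HS N → HS N × HS N) := by
  have h1 : ContDiff ℝ 1 (fun p : HS N × HS N => (p.1 : Mat N)) :=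
    (HS N).subtypeL.contDiff.comp contDiff_fst
  have h2 : ContDiff ℝ 1 (fun p : HS N × HS N => (p.2 : Mat N)) :=
    (HS N).subtypeL.contDiff.comp contDiff_snd
  unfold Psi P1 P2
  refine ContDiff.prodMk ?_ ?_
  · exact (pr N).contDiff.comp
      (((mul_contDiff h2 h1).add (mul_contDiff h1 h2)).const_smul (1 / 2 : ℝ))
  · exact (pr N).contDiff.comp
      ((mul_contDiff h1 h1).add (mul_contDiff (mul_contDiff h1 h2) (mul_contDiff h2 h1)))

/-- first component of the derivative -/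
noncomputable def L1 (T Φ τ φ : Mat N) : Mat N := (1 / 2 : ℝ) • ((φ * T + Φ * τ) + (τ * Φ + T * φ))
/-- second component of the derivative -/
noncomputable def L2 (T Φ τ φ : Mat N) : Mat N :=
  (τ * T + T * τ) + ((τ * Φ + T * φ) * (Φ * T) + T * Φ * (φ * T + Φ * τ))

lemma P1_herm {T Φ : Mat N} (hT : T.IsHermitian) (hΦ : Φ.IsHermitian) : (P1 T Φ).IsHermitian := by
  unfold P1
  show _ᴴ = _
  rw [conjTranspose_smul, star_trivial, conjTranspose_add, conjTranspose_mul, conjTranspose_mul,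
    hT.eq, hΦ.eq, add_comm]

lemma P2_herm {T Φ : Mat N} (hT : T.IsHermitian) (hΦ : Φ.IsHermitian) : (P2 T Φ).IsHermitian := by
  unfold P2
  show _ᴴ = _
  simp only [conjTranspose_add, conjTranspose_mul, hT.eq, hΦ.eq]

lemma L1_herm {T Φ τ φ : Mat N} (hT : T.IsHermitian) (hΦ : Φ.IsHermitian) (hτ : τ.IsHermitian)
    (hφ : φ.IsHermitian) : (L1 T Φ τ φ).IsHermitian := by
  unfold L1
  show _ᴴ = _
  simp only [conjTranspose_smul, star_trivial, conjTranspose_add, conjTranspose_mul, hT.eq, hΦ.eq,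
    hτ.eq, hφ.eq]
  congr 1
  abel

lemma L2_herm {T Φ τ φ : Mat N} (hT : T.IsHermitian) (hΦ : Φ.IsHermitian) (hτ : τ.IsHermitian)
    (hφ : φ.IsHermitian) : (L2 T Φ τ φ).IsHermitian := by
  unfold L2
  show _ᴴ = _
  simp only [conjTranspose_add, conjTranspose_mul, hT.eq, hΦ.eq, hτ.eq, hφ.eq]
  noncomm_ring

lemma fderiv_Psi (p v : HS N × HS N) :
    fderiv ℝ Psi p v = (pr N (L1 p.1 p.2 v.1 v.2), pr N (L2 p.1 p.2 v.1 v.2)) := by
  have hd : HasFDerivAt (Psi : HS N × HS N → HS N × HS N) (fderiv ℝ Psi p) p :=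
    (Psi_contDiff.differentiable (by simp) p).hasFDerivAt
  -- the line
  have hc : HasDerivAt (fun t : ℝ => p + t • v) v 0 := by
    have h := ((hasDerivAt_id (0 : ℝ)).smul_const v).const_add p
    rw [one_smul] at h
    exact h
  have h1 : HasDerivAt (fun t : ℝ => Psi (p + t • v)) (fderiv ℝ Psi p v) 0 := by
    have h0 : HasFDerivAt (Psi : HS N × HS N → HS N × HS N) (fderiv ℝ Psi p)
        (p + (0 : ℝ) • v) := by simpa using hd
    exact h0.comp_hasDerivAt (0 : ℝ) hc
  -- direct computation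
  have hT : HasDerivWithinAt (fun t : ℝ => ((p + t • v).1 : Mat N)) (v.1 : Mat N) univ 0 := by
    have := (((ContinuousLinearMap.fst ℝ (HS N) (HS N)).hasFDerivAt
      (x := p + (0 : ℝ) • v)).comp_hasDerivAt (0 : ℝ) hc)
    exact ((((HS N).subtypeL).hasFDerivAt).comp_hasDerivAt (0 : ℝ) this).hasDerivWithinAt
  have hΦ : HasDerivWithinAt (fun t : ℝ => ((p + t • v).2 : Mat N)) (v.2 : Mat N) univ 0 := by
    have := (((ContinuousLinearMap.snd ℝ (HS N) (HS N)).hasFDerivAt
      (x := p + (0 : ℝ) • v)).comp_hasDerivAt (0 : ℝ) hc)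
    exact ((((HS N).subtypeL).hasFDerivAt).comp_hasDerivAt (0 : ℝ) this).hasDerivWithinAt
  have e0 : p + (0 : ℝ) • v = p := by simp
  have k1 := mul_hasDeriv hΦ hT
  have k2 := mul_hasDeriv hT hΦ
  have k3 := mul_hasDeriv hT hT
  have k4 := mul_hasDeriv k2 k1
  have k5 := (k1.add k2).const_smul (1 / 2 : ℝ)
  have k6 := k3.add k4
  simp only [e0] at k5 k6
  have h2 : HasDerivAt (fun t : ℝ => Psi (p + t • v))
      (pr N (L1 p.1 p.2 v.1 v.2), pr N (L2 p.1 p.2 v.1 v.2)) 0 := by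
    refine hasDerivWithinAt_univ.mp (HasDerivWithinAt.prodMk ?_ ?_)
    · exact ((pr N).hasFDerivAt).comp_hasDerivWithinAt (0 : ℝ) k5
    · exact ((pr N).hasFDerivAt).comp_hasDerivWithinAt (0 : ℝ) k6
  exact h1.unique h2

lemma fderiv_inj (hC : AlgC) {p : HS N × HS N} (hT : (p.1 : Mat N).PosDef) :
    Function.Injective (fderiv ℝ Psi p) := by
  rw [injective_iff_map_eq_zero]
  intro v hv
  rw [fderiv_Psi, Prod.mk_eq_zero] at hv
  obtain ⟨h1, h2⟩ := hv
  have hΦ := HS_herm p.2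
  have hτ := HS_herm v.1
  have hφ := HS_herm v.2
  have e1 : L1 (p.1 : Mat N) p.2 v.1 v.2 = 0 := by
    rw [← pr_herm (L1_herm hT.isHermitian hΦ hτ hφ), h1]; rfl
  have e2 : L2 (p.1 : Mat N) p.2 v.1 v.2 = 0 := by
    rw [← pr_herm (L2_herm hT.isHermitian hΦ hτ hφ), h2]; rfl
  have e1' : (p.2 : Mat N) * v.1 + v.2 * p.1 + v.1 * p.2 + p.1 * v.2 = 0 := by
    unfold L1 at e1
    have := (smul_eq_zero.mp e1).resolve_left (by norm_num)
    rw [← this]
    abel
  have e2' : (v.1 : Mat N) * p.1 + p.1 * v.1 + (v.1 * p.2 + p.1 * v.2) * (p.2 * p.1) +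
      p.1 * p.2 * (p.2 * v.1 + v.2 * p.1) = 0 := by
    unfold L2 at e2
    rw [← e2, add_comm ((p.2 : Mat N) * v.1) (v.2 * p.1)]
    abel
  obtain ⟨h3, h4⟩ := hC N p.1 p.2 v.1 v.2 hT hΦ hτ hφ e1' e2'
  exact Prod.ext (Subtype.ext h3) (Subtype.ext h4)

lemma posDef_nhds {T : Mat N} (hT : T.PosDef) :
    ∀ᶠ T' in 𝓝 T, T'.IsHermitian → T'.PosDef := by
  have hcont : Continuous fun z : Mat N × (Fin N → ℂ) => (star z.2 ⬝ᵥ (z.1 *ᵥ z.2)).re := by
    have h1 : Continuous fun z : Mat N × (Fin N → ℂ) => z.1 *ᵥ z.2 :=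
      Continuous.matrix_mulVec continuous_fst continuous_snd
    have h2 : Continuous fun z : Mat N × (Fin N → ℂ) => star z.2 ⬝ᵥ (z.1 *ᵥ z.2) :=
      Continuous.dotProduct continuous_snd.star h1
    exact Complex.continuous_re.comp h2
  have hK : IsCompact (Metric.sphere (0 : Fin N → ℂ) 1) := isCompact_sphere _ _
  have h := hK.eventually_forall_of_forall_eventually (x₀ := T)
    (P := fun T' x => 0 < (star x ⬝ᵥ (T' *ᵥ x)).re) (by
      intro y hy
      have hy0 : y ≠ 0 := by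
        rintro rfl
        simp at hy
      have h1 : 0 < (star y ⬝ᵥ (T *ᵥ y)).re := by
        have := hT.dotProduct_mulVec_pos hy0
        exact (Complex.lt_def.mp this).1
      exact hcont.continuousAt.eventually (lt_mem_nhds h1))
  filter_upwards [h] with T' hT' hH
  refine PosDef.of_dotProduct_mulVec_pos hH fun x hx => ?_
  have hn : 0 < ‖x‖ := norm_pos_iff.mpr hx
  have h1 := hT' (((‖x‖⁻¹ : ℝ) : ℂ) • x) (by
    rw [mem_sphere_zero_iff_norm, norm_smul, Complex.norm_real, norm_inv, norm_norm,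
      inv_mul_cancel₀ hn.ne'])
  have h2 : star (((‖x‖⁻¹ : ℝ) : ℂ) • x) ⬝ᵥ (T' *ᵥ (((‖x‖⁻¹ : ℝ) : ℂ) • x)) =
      ((‖x‖⁻¹ * ‖x‖⁻¹ : ℝ) : ℂ) * (star x ⬝ᵥ (T' *ᵥ x)) := by
    rw [star_smul, mulVec_smul, smul_dotProduct, dotProduct_smul, smul_smul, smul_eq_mul]
    congr 1
    rw [Complex.star_def, Complex.conj_ofReal]
    push_cast
    ring
  rw [h2, Complex.re_ofReal_mul] at h1
  have h3 : 0 < (star x ⬝ᵥ (T' *ᵥ x)).re := by
    by_contra hneg
    push Not at hneg
    have : ‖x‖⁻¹ * ‖x‖⁻¹ * (star x ⬝ᵥ (T' *ᵥ x)).re ≤ 0 :=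
      mul_nonpos_of_nonneg_of_nonpos (by positivity) hneg
    linarith
  have h4 : (star x ⬝ᵥ (T' *ᵥ x)).im = 0 := hH.im_star_dotProduct_mulVec_self x
  exact Complex.lt_def.mpr ⟨h3, h4.symm⟩

lemma Pen_iff_Psi {T Φ F E : Mat N} : Pen T Φ F E ↔ T.PosDef ∧ Φ.IsHermitian ∧
    P1 T Φ = F ∧ P2 T Φ = E := by
  unfold Pen P1 P2
  constructor
  · rintro ⟨h1, h2, h3, h4⟩
    refine ⟨h1, h2, ?_, h4.symm⟩
    rw [← h3]
    have : (2 : ℂ) • F = (2 : ℝ) • F := by
      ext i j
      simp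
    rw [this, smul_smul]
    norm_num
  · rintro ⟨h1, h2, h3, h4⟩
    refine ⟨h1, h2, ?_, h4.symm⟩
    rw [← h3]
    have : ∀ X : Mat N, (2 : ℂ) • X = (2 : ℝ) • X := by
      intro X
      ext i j
      simp
    rw [this, smul_smul]
    norm_num

lemma pen_unique (hD : AlgD) {T Φ F E : Mat N} (h : Pen T Φ F E) :
    pT F E = T ∧ pPhi F E = Φ := by
  have hex : ∃ T Φ : Mat N, Pen T Φ F E := ⟨T, Φ, h⟩
  have h1 : pT F E = hex.choose := by
    unfold pT; rw [dif_pos hex]
  have h2 : pPhi F E = hex.choose_spec.choose := by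
    unfold pPhi; rw [dif_pos hex]
  rw [h1, h2]
  exact hD N _ _ T Φ F E hex.choose_spec.choose_spec h

/-- the local inverse -/
lemma loc (hC : AlgC) {p0 : Mat N × Mat N} {T Φ : Mat N} (h : Pen T Φ p0.1 p0.2) :
    ∃ (g : Mat N × Mat N → HS N × HS N) (G' : Mat N × Mat N →L[ℝ] HS N × HS N),
      HasFDerivAt g G' p0 ∧ ((g p0).1 : Mat N) = T ∧ ((g p0).2 : Mat N) = Φ ∧
      (∀ᶠ q in 𝓝[HermPair N] p0, Pen ((g q).1 : Mat N) (g q).2 q.1 q.2) ∧
      ∀ F' E' : Mat N, F'.IsHermitian → E'.IsHermitian →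
        L1 T Φ (G' (F', E')).1 (G' (F', E')).2 = F' ∧ L2 T Φ (G' (F', E')).1 (G' (F', E')).2 = E' := by
  obtain ⟨hT, hΦ, hP1, hP2⟩ := Pen_iff_Psi.mp h
  set P : HS N × HS N := (⟨T, hT.isHermitian⟩, ⟨Φ, hΦ⟩) with hP
  have hPT : (P.1 : Mat N) = T := rfl
  have hPΦ : (P.2 : Mat N) = Φ := rfl
  set D : (HS N × HS N) →L[ℝ] (HS N × HS N) := fderiv ℝ Psi P with hDdef
  have hinj : Function.Injective D := fderiv_inj hC (by rw [hPT]; exact hT)
  let D' : (HS N × HS N) ≃L[ℝ] (HS N × HS N) :=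
    (LinearEquiv.ofInjectiveEndo (D : (HS N × HS N) →ₗ[ℝ] (HS N × HS N))
      hinj).toContinuousLinearEquiv
  have hD' : (D' : (HS N × HS N) →L[ℝ] (HS N × HS N)) = D := by
    ext v <;> rfl
  have hstrict : HasStrictFDerivAt (Psi : HS N × HS N → HS N × HS N)
      (D' : (HS N × HS N) →L[ℝ] (HS N × HS N)) P := by
    rw [hD']
    exact Psi_contDiff.contDiffAt.hasStrictFDerivAt (by simp)
  set gl := hstrict.localInverse Psi D' P with hgl
  have hPsiP : Psi P = (pr N p0.1, pr N p0.2) := by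
    show (pr N (P1 T Φ), pr N (P2 T Φ)) = _
    rw [hP1, hP2]
  have hder := hstrict.to_localInverse
  rw [hPsiP] at hder
  let prp : Mat N × Mat N →L[ℝ] HS N × HS N := (pr N).prodMap (pr N)
  have hprp : ∀ q, prp q = (pr N q.1, pr N q.2) := fun q => rfl
  refine ⟨fun q => gl (prp q), (D'.symm : (HS N × HS N) →L[ℝ] (HS N × HS N)).comp prp, ?_, ?_, ?_,
    ?_, ?_⟩
  · exact (hder.hasFDerivAt).comp p0 prp.hasFDerivAt
  · show ((gl (prp p0)).1 : Mat N) = T
    rw [hprp, ← hPsiP, hgl, hstrict.localInverse_apply_image]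
  · show ((gl (prp p0)).2 : Mat N) = Φ
    rw [hprp, ← hPsiP, hgl, hstrict.localInverse_apply_image]
  · -- eventually
    have hg0 : gl (prp p0) = P := by
      rw [hprp, ← hPsiP, hgl, hstrict.localInverse_apply_image]
    have ht : Tendsto (fun q => prp q) (𝓝 p0) (𝓝 (Psi P)) := by
      rw [hPsiP, ← hprp]
      exact prp.continuous.continuousAt
    have h1 : ∀ᶠ q in 𝓝 p0, Psi (gl (prp q)) = prp q := ht.eventually hstrict.eventually_right_inverse
    have ht2 : Tendsto (fun q => gl (prp q)) (𝓝 p0) (𝓝 P) :=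
      hstrict.localInverse_tendsto.comp ht
    have ht3 : Tendsto (fun q => ((gl (prp q)).1 : Mat N)) (𝓝 p0) (𝓝 T) := by
      have hc : Continuous fun x : HS N × HS N => (x.1 : Mat N) :=
        continuous_subtype_val.comp continuous_fst
      exact (hc.tendsto P).comp ht2
    have h2 : ∀ᶠ q in 𝓝 p0, ((gl (prp q)).1 : Mat N).PosDef := by
      filter_upwards [ht3.eventually (posDef_nhds hT)] with q hq
      exact hq (HS_herm _)
    filter_upwards [mem_nhdsWithin_of_mem_nhds h1, mem_nhdsWithin_of_mem_nhds h2,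
      self_mem_nhdsWithin] with q hq1 hq2 hq3
    have hq1' : Psi (gl (prp q)) = prp q := hq1
    have hq2' : ((gl (prp q)).1 : Mat N).PosDef := hq2
    obtain ⟨hF, hE⟩ := hq3
    refine Pen_iff_Psi.mpr ⟨hq2', HS_herm _, ?_, ?_⟩
    · have e1 := congrArg (fun x : HS N × HS N => (x.1 : Mat N)) hq1'
      simp only [hprp, Psi] at e1
      rw [pr_herm hF, pr_herm (P1_herm (HS_herm _) (HS_herm _))] at e1
      exact e1
    · have e1 := congrArg (fun x : HS N × HS N => (x.2 : Mat N)) hq1'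
      simp only [hprp, Psi] at e1
      rw [pr_herm hE, pr_herm (P2_herm (HS_herm _) (HS_herm _))] at e1
      exact e1
  · intro F' E' hF hE
    set v : HS N × HS N := D'.symm (prp (F', E')) with hv
    have e0 : D v = prp (F', E') := by
      rw [← hD']
      exact D'.apply_symm_apply _
    rw [hDdef, fderiv_Psi, hprp] at e0
    have hτ := HS_herm v.1
    have hφ := HS_herm v.2
    constructor
    · have e1 := congrArg (fun x : HS N × HS N => (x.1 : Mat N)) e0
      simp only at e1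
      rw [pr_herm hF, pr_herm (L1_herm (HS_herm _) (HS_herm _) hτ hφ)] at e1
      exact e1
    · have e1 := congrArg (fun x : HS N × HS N => (x.2 : Mat N)) e0
      simp only at e1
      rw [pr_herm hE, pr_herm (L2_herm (HS_herm _) (HS_herm _) hτ hφ)] at e1
      exact e1

end Sol

open Sol in
theorem sol (hC : AlgC) (hD : AlgD) : SolO ∧ SolC ∧ SolD := by
  refine ⟨?_, ?_, ?_⟩
  · intro N p ⟨T, Φ, h⟩
    obtain ⟨g, G', -, -, -, h4, -⟩ := loc hC h
    filter_upwards [h4] with q hq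
    exact ⟨_, _, hq⟩
  · intro N p ⟨T, Φ, h⟩
    obtain ⟨g, G', h1, h2, h3, h4, -⟩ := loc hC h
    have hg : ContinuousWithinAt g (HermPair N) p := h1.continuousAt.continuousWithinAt
    obtain ⟨e1, e2⟩ := pen_unique hD h
    constructor
    · have hc : ContinuousWithinAt (fun q => ((g q).1 : Mat N)) (HermPair N) p :=
        (continuous_subtype_val.comp continuous_fst).continuousAt.comp_continuousWithinAt hg
      refine hc.congr_of_eventuallyEq ?_ ?_
      · filter_upwards [h4] with q hq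
        exact (pen_unique hD hq).1
      · rw [h2, e1]
    · have hc : ContinuousWithinAt (fun q => ((g q).2 : Mat N)) (HermPair N) p :=
        (continuous_subtype_val.comp continuous_snd).continuousAt.comp_continuousWithinAt hg
      refine hc.congr_of_eventuallyEq ?_ ?_
      · filter_upwards [h4] with q hq
        exact (pen_unique hD hq).2
      · rw [h3, e2]
  · intro N F E F' E' s x hx hs hF' hE' ⟨T, Φ, h⟩ hdF hdE
    obtain ⟨g, G', h1, h2, h3, h4, h5⟩ := loc hC h
    obtain ⟨e1, e2⟩ := pen_unique hD h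
    simp only at e1 e2
    have hF : HasDerivWithinAt F F' s x :=
      hasDerivWithinAt_pi.mpr fun i => hasDerivWithinAt_pi.mpr fun j => hdF i j
    have hE : HasDerivWithinAt E E' s x :=
      hasDerivWithinAt_pi.mpr fun i => hasDerivWithinAt_pi.mpr fun j => hdE i j
    have hFE := HasDerivWithinAt.prodMk (𝕜 := ℝ) (F := Mat N) (G := Mat N) (f₁ := F) (f₁' := F')
      (f₂ := E) (f₂' := E') (s := s) (x := x) hF hE
    have hg : HasDerivWithinAt (fun y => g (F y, E y)) (G' (F', E')) s x :=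
      h1.comp_hasDerivWithinAt x hFE
    have hcw : Tendsto (fun y => (F y, E y)) (𝓝[s] x) (𝓝[HermPair N] (F x, E x)) := by
      refine tendsto_nhdsWithin_of_tendsto_nhds_of_eventually_within _ hFE.continuousWithinAt ?_
      filter_upwards [self_mem_nhdsWithin] with y hy
      exact hs y hy
    have hev := hcw.eventually h4
    obtain ⟨h6, h7⟩ := h5 F' E' hF' hE'
    have hLfst : HasFDerivAt (fun q : HS N × HS N => (q.1 : Mat N))
        ((HS N).subtypeL.comp (ContinuousLinearMap.fst ℝ (HS N) (HS N))) (g (F x, E x)) :=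
      ((HS N).subtypeL.comp (ContinuousLinearMap.fst ℝ (HS N) (HS N))).hasFDerivAt
    have hLsnd : HasFDerivAt (fun q : HS N × HS N => (q.2 : Mat N))
        ((HS N).subtypeL.comp (ContinuousLinearMap.snd ℝ (HS N) (HS N))) (g (F x, E x)) :=
      ((HS N).subtypeL.comp (ContinuousLinearMap.snd ℝ (HS N) (HS N))).hasFDerivAt
    refine ⟨(G' (F', E')).1, (G' (F', E')).2, HS_herm _, HS_herm _, ?_, ?_, ?_, ?_⟩
    · intro i j
      have hc : HasDerivWithinAt (fun y => ((g (F y, E y)).1 : Mat N)) ((G' (F', E')).1 : Mat N) s x :=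
        (by have h8 := hLfst.comp_hasDerivWithinAt x hg
            exact h8)
      have hij := hasDerivWithinAt_pi.mp (hasDerivWithinAt_pi.mp hc i) j
      refine hij.congr_of_eventuallyEq ?_ ?_
      · filter_upwards [hev] with y hy
        rw [(pen_unique hD hy).1]
      · rw [e1, h2]
    · intro i j
      have hc : HasDerivWithinAt (fun y => ((g (F y, E y)).2 : Mat N)) ((G' (F', E')).2 : Mat N) s x :=
        (by have h8 := hLsnd.comp_hasDerivWithinAt x hg
            exact h8)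
      have hij := hasDerivWithinAt_pi.mp (hasDerivWithinAt_pi.mp hc i) j
      refine hij.congr_of_eventuallyEq ?_ ?_
      · filter_upwards [hev] with y hy
        rw [(pen_unique hD hy).2]
      · rw [e2, h3]
    · rw [e1, e2]
      nth_rewrite 1 [← h6]
      unfold L1
      have h2c : ∀ X : Mat N, (2 : ℂ) • ((1 / 2 : ℝ) • X) = X := by
        intro X
        ext i j
        simp
      rw [h2c]
      abel
    · rw [e1, e2]
      nth_rewrite 1 [← h7]
      unfold L2
      rw [add_comm ((((G' (F', E')).2 : HS N) : Mat N) * T)]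
      abel

end Pool.Agent.LTG
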