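import Pool.Agent.LTG.Defs

/-!
# Existence of pencil coordinates (continuity method), module LTG_SOLE
-/

set_option autoImplicit false

namespace Pool.Agent.LTG

open MeasureTheory Matrix Set Filter Topology
open scoped ComplexOrder MatrixOrder

namespace SolEAux

/-! ### traces and entries -/

theorem rtr_conjTranspose_mul_self {N : ℕ} (A : Mat N) :
    rtr (Aᴴ * A) = ∑ i, ∑ j, ‖A j i‖ ^ 2 := by
  unfold rtr
  rw [Matrix.trace, Complex.re_sum]
  refine Finset.sum_congr rfl fun i _ => ?_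
  rw [Matrix.diag_apply, Matrix.mul_apply, Complex.re_sum]
  refine Finset.sum_congr rfl fun j _ => ?_
  rw [Matrix.conjTranspose_apply, RCLike.star_def, ← Complex.normSq_eq_conj_mul_self,
    Complex.ofReal_re, Complex.normSq_eq_norm_sq]

theorem sq_entry_le {N : ℕ} (A : Mat N) (i j : Fin N) : ‖A i j‖ ^ 2 ≤ rtr (Aᴴ * A) := by
  rw [rtr_conjTranspose_mul_self]
  calc ‖A i j‖ ^ 2 ≤ ∑ k, ‖A k j‖ ^ 2 :=
        Finset.single_le_sum (f := fun k => ‖A k j‖ ^ 2) (fun _ _ => sq_nonneg _)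
          (Finset.mem_univ i)
    _ ≤ ∑ l, ∑ k, ‖A k l‖ ^ 2 :=
        Finset.single_le_sum (f := fun l => ∑ k, ‖A k l‖ ^ 2)
          (fun _ _ => Finset.sum_nonneg fun _ _ => sq_nonneg _) (Finset.mem_univ j)

theorem exists_sqrt {N : ℕ} (E : Mat N) (hE : E.PosSemidef) :
    ∃ T : Mat N, T.PosSemidef ∧ T * T = E := by
  refine ⟨CFC.sqrt E, (CFC.sqrt_nonneg E).posSemidef, ?_⟩
  exact CFC.sqrt_mul_sqrt_self E hE.nonneg

theorem exists_sqrt_pos {N : ℕ} (E : Mat N) (hE : E.PosDef) :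
    ∃ T : Mat N, T.PosDef ∧ T * T = E := by
  obtain ⟨T, h1, h2⟩ := exists_sqrt E hE.posSemidef
  refine ⟨T, ?_, h2⟩
  rw [h1.posDef_iff_isUnit]
  have := hE.isUnit
  rw [← h2] at this
  exact isUnit_of_mul_isUnit_left this

/-- entries of a positive semidefinite matrix are bounded by the trace -/
theorem entry_le_trace {N : ℕ} (G : Mat N) (hG : G.PosSemidef) (i j : Fin N) :
    ‖G i j‖ ≤ rtr G := by
  obtain ⟨B, hB, hBG⟩ := exists_sqrt G hG
  have hB' : Bᴴ = B := hB.isHermitian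
  have htr : rtr G = ∑ i, ∑ j, ‖B j i‖ ^ 2 := by
    rw [← hBG]
    nth_rewrite 1 [← hB']
    exact rtr_conjTranspose_mul_self B
  have hcol : ∀ l, ∑ k, ‖B k l‖ ^ 2 ≤ rtr G := fun l => by
    rw [htr]
    exact Finset.single_le_sum (f := fun l => ∑ k, ‖B k l‖ ^ 2)
      (fun _ _ => Finset.sum_nonneg fun _ _ => sq_nonneg _) (Finset.mem_univ l)
  have hrow : ∀ k, ∑ l, ‖B k l‖ ^ 2 ≤ rtr G := fun k => by
    have : ∑ l, ‖B k l‖ ^ 2 = ∑ l, ‖B l k‖ ^ 2 := by
      refine Finset.sum_congr rfl fun l _ => ?_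
      have : B k l = star (B l k) := by
        conv_lhs => rw [← hB']
        rfl
      rw [this, norm_star]
    rw [this]; exact hcol k
  calc ‖G i j‖ = ‖∑ k, B i k * B k j‖ := by rw [← hBG, Matrix.mul_apply]
    _ ≤ ∑ k, ‖B i k * B k j‖ := norm_sum_le _ _
    _ ≤ ∑ k, (‖B i k‖ ^ 2 + ‖B k j‖ ^ 2) / 2 := by
        refine Finset.sum_le_sum fun k _ => ?_
        rw [norm_mul]
        nlinarith [sq_nonneg (‖B i k‖ - ‖B k j‖)]
    _ = ((∑ k, ‖B i k‖ ^ 2) + ∑ k, ‖B k j‖ ^ 2) / 2 := by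
        rw [← Finset.sum_div, Finset.sum_add_distrib]
    _ ≤ rtr G := by linarith [hcol j, hrow i]

/-! ### compactness and limits -/

local instance instFirstCountableMat (N : ℕ) : FirstCountableTopology (Mat N) :=
  inferInstanceAs (FirstCountableTopology (Fin N → Fin N → ℂ))

/-- matrices with entries bounded by `C` form a compact set -/
theorem isCompact_box (N : ℕ) (C : ℝ) : IsCompact {M : Mat N | ∀ i j, ‖M i j‖ ≤ C} := by
  have h : {M : Mat N | ∀ i j, ‖M i j‖ ≤ C} =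
      (Set.pi Set.univ fun _ : Fin N => Set.pi Set.univ fun _ : Fin N =>
        Metric.closedBall (0 : ℂ) C : Set (Fin N → Fin N → ℂ)) := by
    ext M
    constructor
    · intro hM i _ j _
      rw [mem_closedBall_zero_iff]
      exact hM i j
    · intro hM i j
      have := hM i (Set.mem_univ _) j (Set.mem_univ _)
      rwa [mem_closedBall_zero_iff] at this
  rw [h]
  exact isCompact_univ_pi fun _ => isCompact_univ_pi fun _ => isCompact_closedBall _ _

theorem posSemidef_of_tendsto {N : ℕ} {T : ℕ → Mat N} {T₀ : Mat N}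
    (h : Tendsto T atTop (𝓝 T₀)) (hT : ∀ n, (T n).PosSemidef) : T₀.PosSemidef := by
  refine PosSemidef.of_dotProduct_mulVec_nonneg ?_ fun x => ?_
  · have h1 : Tendsto (fun n => (T n)ᴴ) atTop (𝓝 T₀ᴴ) :=
      (Continuous.matrix_conjTranspose continuous_id).continuousAt.tendsto.comp h
    have h2 : (fun n => (T n)ᴴ) = T := funext fun n => (hT n).isHermitian
    rw [h2] at h1
    exact tendsto_nhds_unique h1 h
  · have hc : Continuous fun M : Mat N => star x ⬝ᵥ (M *ᵥ x) :=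
      Continuous.dotProduct continuous_const
        (Continuous.matrix_mulVec continuous_id continuous_const)
    have h1 := hc.continuousAt.tendsto.comp h
    exact ge_of_tendsto' h1 fun n => (hT n).dotProduct_mulVec_nonneg x

theorem isHermitian_of_tendsto {N : ℕ} {T : ℕ → Mat N} {T₀ : Mat N}
    (h : Tendsto T atTop (𝓝 T₀)) (hT : ∀ n, (T n).IsHermitian) : T₀.IsHermitian := by
  have h1 : Tendsto (fun n => (T n)ᴴ) atTop (𝓝 T₀ᴴ) :=
    (Continuous.matrix_conjTranspose continuous_id).continuousAt.tendsto.comp h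
  have h2 : (fun n => (T n)ᴴ) = T := funext fun n => hT n
  rw [h2] at h1
  exact tendsto_nhds_unique h1 h

theorem tendsto_mul {N : ℕ} {A B : ℕ → Mat N} {A₀ B₀ : Mat N} (hA : Tendsto A atTop (𝓝 A₀))
    (hB : Tendsto B atTop (𝓝 B₀)) : Tendsto (fun n => A n * B n) atTop (𝓝 (A₀ * B₀)) := by
  have hc : Continuous fun p : Mat N × Mat N => p.1 * p.2 :=
    Continuous.matrix_mul continuous_fst continuous_snd
  exact (hc.tendsto (A₀, B₀)).comp (hA.prodMk_nhds hB)

theorem rtr_add {N : ℕ} (A B : Mat N) : rtr (A + B) = rtr A + rtr B := by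
  simp [rtr, Matrix.trace_add]

theorem rtr_sub {N : ℕ} (A B : Mat N) : rtr (A - B) = rtr A - rtr B := by
  simp [rtr, Matrix.trace_sub]

/-- closedness: limits of pencil coordinates with bounded inverse -/
theorem pen_closed (hB : AlgB) {N : ℕ} (E : Mat N) (C : ℝ) (F : ℕ → Mat N) (F₀ : Mat N)
    (hF : ∀ n, (F n).IsHermitian) (hlim : Tendsto F atTop (𝓝 F₀))
    (hpen : ∀ n, ∃ T Φ : Mat N, Pen T Φ (F n) E ∧ rtr T⁻¹ ≤ C) :
    ∃ T Φ : Mat N, Pen T Φ F₀ E := by
  choose T Φ hP hC using hpen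
  -- bounds
  have hTT : ∀ n, rtr (T n * T n) ≤ rtr E := fun n => by
    have h1 := hB N _ _ _ _ (hP n)
    have h2 : 0 ≤ rtr (F n * F n) := by
      have : F n * F n = (F n)ᴴ * F n := by rw [hF n]
      rw [this, rtr_conjTranspose_mul_self]
      exact Finset.sum_nonneg fun _ _ => Finset.sum_nonneg fun _ _ => sq_nonneg _
    rw [rtr_sub] at h1
    linarith
  have hTe : ∀ n i j, ‖T n i j‖ ≤ rtr E + 1 := fun n i j => by
    have h1 := sq_entry_le (T n) i j
    have h2 : (T n)ᴴ * T n = T n * T n := by rw [(hP n).1.isHermitian]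
    rw [h2] at h1
    nlinarith [hTT n, norm_nonneg (T n i j)]
  have hAe : ∀ n i j, ‖(Φ n * T n) i j‖ ≤ rtr E + 1 := fun n i j => by
    have h1 := sq_entry_le (Φ n * T n) i j
    have h2 : (Φ n * T n)ᴴ * (Φ n * T n) = E - T n * T n := by
      rw [(hP n).2.2.2, Matrix.conjTranspose_mul, (hP n).1.isHermitian, (hP n).2.1]
      abel
    rw [h2, rtr_sub] at h1
    have h3 : 0 ≤ rtr (T n * T n) := by
      have : T n * T n = (T n)ᴴ * T n := by rw [(hP n).1.isHermitian]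
      rw [this, rtr_conjTranspose_mul_self]
      exact Finset.sum_nonneg fun _ _ => Finset.sum_nonneg fun _ _ => sq_nonneg _
    nlinarith [norm_nonneg ((Φ n * T n) i j)]
  have hGe : ∀ n i j, ‖(T n)⁻¹ i j‖ ≤ C := fun n i j =>
    (entry_le_trace _ (hP n).1.inv.posSemidef i j).trans (hC n)
  -- subsequences
  obtain ⟨T₀, -, φ₁, hφ₁, hT₀⟩ := (isCompact_box N (rtr E + 1)).tendsto_subseq
    (x := T) (fun n i j => hTe n i j)
  obtain ⟨A₀, -, φ₂, hφ₂, hA₀⟩ := (isCompact_box N (rtr E + 1)).tendsto_subseq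
    (x := fun n => Φ (φ₁ n) * T (φ₁ n)) (fun n i j => hAe (φ₁ n) i j)
  obtain ⟨G₀, -, φ₃, hφ₃, hG₀⟩ := (isCompact_box N C).tendsto_subseq
    (x := fun n => (T (φ₁ (φ₂ n)))⁻¹) (fun n i j => hGe (φ₁ (φ₂ n)) i j)
  set ψ : ℕ → ℕ := fun n => φ₁ (φ₂ (φ₃ n)) with hψ
  have hψm : StrictMono ψ := hφ₁.comp (hφ₂.comp hφ₃)
  have lT : Tendsto (fun n => T (ψ n)) atTop (𝓝 T₀) :=
    hT₀.comp ((hφ₂.comp hφ₃).tendsto_atTop)
  have lA : Tendsto (fun n => Φ (ψ n) * T (ψ n)) atTop (𝓝 A₀) :=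
    hA₀.comp hφ₃.tendsto_atTop
  have lG : Tendsto (fun n => (T (ψ n))⁻¹) atTop (𝓝 G₀) := hG₀
  have lF : Tendsto (fun n => F (ψ n)) atTop (𝓝 F₀) := hlim.comp hψm.tendsto_atTop
  have hu : ∀ n, IsUnit (T n).det := fun n =>
    (Matrix.isUnit_iff_isUnit_det _).1 (hP n).1.isUnit
  have hTG : T₀ * G₀ = 1 := by
    have h1 := tendsto_mul lT lG
    have h2 : (fun n => T (ψ n) * (T (ψ n))⁻¹) = fun _ => (1 : Mat N) :=
      funext fun n => Matrix.mul_nonsing_inv _ (hu _)
    rw [h2] at h1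
    exact tendsto_nhds_unique h1 tendsto_const_nhds
  have hGT : G₀ * T₀ = 1 := mul_eq_one_comm.1 hTG
  have lΦ : Tendsto (fun n => Φ (ψ n)) atTop (𝓝 (A₀ * G₀)) := by
    have h1 := tendsto_mul lA lG
    have h2 : (fun n => Φ (ψ n) * T (ψ n) * (T (ψ n))⁻¹) = fun n => Φ (ψ n) :=
      funext fun n => by rw [Matrix.mul_assoc, Matrix.mul_nonsing_inv _ (hu _), Matrix.mul_one]
    rw [h2] at h1
    exact h1
  refine ⟨T₀, A₀ * G₀, ?_, ?_, ?_, ?_⟩
  · have h1 : T₀.PosSemidef := posSemidef_of_tendsto lT fun n => (hP _).1.posSemidef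
    rw [h1.posDef_iff_isUnit]
    exact IsUnit.of_mul_eq_one G₀ hTG
  · exact isHermitian_of_tendsto lΦ fun n => (hP _).2.1
  · have h1 : Tendsto (fun n => (2 : ℂ) • F (ψ n)) atTop (𝓝 ((2 : ℂ) • F₀)) :=
      lF.const_smul (2 : ℂ)
    have h2 := (tendsto_mul lΦ lT).add (tendsto_mul lT lΦ)
    have h3 : (fun n => (2 : ℂ) • F (ψ n)) =
        fun n => Φ (ψ n) * T (ψ n) + T (ψ n) * Φ (ψ n) := funext fun n => (hP _).2.2.1
    rw [h3] at h1
    exact tendsto_nhds_unique h1 h2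
  · have h2 := (tendsto_mul lT lT).add (tendsto_mul (tendsto_mul lT lΦ) (tendsto_mul lΦ lT))
    have h3 : (fun n => T (ψ n) * T (ψ n) + T (ψ n) * Φ (ψ n) * (Φ (ψ n) * T (ψ n))) =
        fun _ => E := funext fun n => ((hP _).2.2.2).symm
    rw [h3] at h2
    exact tendsto_nhds_unique tendsto_const_nhds h2

end SolEAux

open SolEAux

theorem solE (hB : AlgB) (_hD : AlgD) (hG : AlgG) (hO : SolO) : SolE := by
  intro N H F μ hH hμ h1 h2
  set E : Mat N := H * H + (μ : ℂ) • 1 with hEdef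
  have hHh : Hᴴ = H := hH.isHermitian
  have hFh : F.IsHermitian := by
    have h3 := h2.isHermitian.sub hH.isHermitian
    simpa using h3
  have hE : E.PosDef := by
    have ha : (H * H).PosSemidef := by
      have := Matrix.posSemidef_conjTranspose_mul_self H
      rwa [hHh] at this
    have hb : ((μ : ℂ) • (1 : Mat N)).PosDef := by
      exact PosDef.smul PosDef.one (by exact_mod_cast hμ)
    exact PosDef.posSemidef_add ha hb
  obtain ⟨T₁, hT₁, hTT₁⟩ := exists_sqrt_pos E hE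
  -- the set of good parameters
  set S : Set ℝ := {t | ((((t : ℝ) : ℂ) • F, E) : Mat N × Mat N) ∈ PenDom N} with hS
  have h0 : (0 : ℝ) ∈ S := by
    refine ⟨T₁, 0, hT₁, Matrix.isHermitian_zero, ?_, ?_⟩
    · simp
    · simp [hTT₁]
  have hherm : ∀ t : ℝ, (((t : ℝ) : ℂ) • F).IsHermitian := fun t => by
    rw [Matrix.IsHermitian, Matrix.conjTranspose_smul, hFh]
    simp
  have hEh : E.IsHermitian := hE.isHermitian
  have hcont : Continuous fun t : ℝ => (((((t : ℝ) : ℂ) • F, E)) : Mat N × Mat N) :=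
    ((Complex.continuous_ofReal).smul continuous_const).prodMk continuous_const
  -- bounds along the path
  have hbd : ∀ t ∈ Icc (0 : ℝ) 1, ∀ T Φ : Mat N, Pen T Φ (((t : ℝ) : ℂ) • F) E →
      rtr T⁻¹ ≤ (rtr E + N) / μ := by
    intro t ht T Φ hP
    have hp : ∀ a b : ℝ, 0 ≤ a → 0 ≤ b →
        (((a : ℝ) : ℂ) • (H - F) + ((b : ℝ) : ℂ) • (H + F)).PosSemidef := fun a b ha hb =>
      (h1.smul (by exact_mod_cast ha)).add (h2.smul (by exact_mod_cast hb))
    have e1 : (H - ((t : ℝ) : ℂ) • F).PosSemidef := by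
      have := hp ((1 + t) / 2) ((1 - t) / 2) (by linarith [ht.1]) (by linarith [ht.2])
      convert this using 1
      ext i j
      simp only [Matrix.sub_apply, Matrix.add_apply, Matrix.smul_apply, smul_eq_mul]
      push_cast
      ring
    have e2 : (H + ((t : ℝ) : ℂ) • F).PosSemidef := by
      have := hp ((1 - t) / 2) ((1 + t) / 2) (by linarith [ht.2]) (by linarith [ht.1])
      convert this using 1
      ext i j
      simp only [Matrix.sub_apply, Matrix.add_apply, Matrix.smul_apply, smul_eq_mul]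
      push_cast
      ring
    have h3 := hG N H T Φ _ μ hH hμ e1 e2 hP
    -- tr T ≤ tr T² + N ≤ tr E + N
    have h4 : rtr (T * T) ≤ rtr E := by
      have h5 := hB N _ _ _ _ hP
      have h6 : 0 ≤ rtr ((((t : ℝ) : ℂ) • F) * (((t : ℝ) : ℂ) • F)) := by
        have : (((t : ℝ) : ℂ) • F) * (((t : ℝ) : ℂ) • F) =
            (((t : ℝ) : ℂ) • F)ᴴ * (((t : ℝ) : ℂ) • F) := by rw [hherm t]
        rw [this, rtr_conjTranspose_mul_self]
        exact Finset.sum_nonneg fun _ _ => Finset.sum_nonneg fun _ _ => sq_nonneg _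
      rw [rtr_sub] at h5
      linarith
    have h5 : rtr T ≤ rtr (T * T) + N := by
      have h6 : T * T = Tᴴ * T := by rw [hP.1.isHermitian]
      rw [h6, rtr_conjTranspose_mul_self]
      have h7 : rtr T = ∑ i, (T i i).re := by
        simp [rtr, Matrix.trace, Complex.re_sum]
      rw [h7]
      have h8 : (N : ℝ) = ∑ _i : Fin N, (1 : ℝ) := by simp
      rw [h8, ← Finset.sum_add_distrib]
      refine Finset.sum_le_sum fun i _ => ?_
      have h9 : ‖T i i‖ ^ 2 ≤ ∑ j, ‖T j i‖ ^ 2 :=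
        Finset.single_le_sum (f := fun k => ‖T k i‖ ^ 2) (fun _ _ => sq_nonneg _)
          (Finset.mem_univ i)
      have h10 := Complex.re_le_norm (T i i)
      nlinarith [sq_nonneg (‖T i i‖ - 1)]
    rw [le_div_iff₀ hμ]
    linarith
  have hclosed : IsClosed (S ∩ Icc (0 : ℝ) 1) := by
    rw [← isSeqClosed_iff_isClosed]
    intro t t₀ ht htl
    have ht₀ : t₀ ∈ Icc (0 : ℝ) 1 :=
      isClosed_Icc.isSeqClosed (fun n => (ht n).2) htl
    refine ⟨?_, ht₀⟩
    have hl : Tendsto (fun n => (((t n : ℝ) : ℂ) • F : Mat N)) atTop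
        (𝓝 (((t₀ : ℝ) : ℂ) • F)) :=
      (((Complex.continuous_ofReal).smul continuous_const).tendsto t₀).comp htl
    exact pen_closed hB E ((rtr E + N) / μ) (fun n => ((t n : ℝ) : ℂ) • F) _
      (fun n => hherm _) hl fun n => by
        obtain ⟨T, Φ, hP⟩ := (ht n).1
        exact ⟨T, Φ, hP, hbd _ (ht n).2 T Φ hP⟩
  have hsub : Icc (0 : ℝ) 1 ⊆ S := by
    refine hclosed.Icc_subset_of_forall_exists_gt h0 fun t ht y hy => ?_
    have h3 : ∀ᶠ s in 𝓝 t, s ∈ S := by
      have h4 := hO N (((t : ℝ) : ℂ) • F, E) ht.1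
      rw [eventually_nhdsWithin_iff] at h4
      have h5 := (hcont.tendsto t).eventually h4
      filter_upwards [h5] with s hs
      exact hs ⟨hherm s, hEh⟩
    have h4 : ∀ᶠ s in 𝓝[>] t, s ∈ S := nhdsWithin_le_nhds h3
    have h5 : ∀ᶠ s in 𝓝[>] t, s ∈ Ioc t y := Ioc_mem_nhdsGT hy
    obtain ⟨s, hs1, hs2⟩ := (h4.and h5).exists
    exact ⟨s, hs1, hs2⟩
  have h3 := hsub (right_mem_Icc.2 zero_le_one)
  simpa [hS, PenDom] using h3

end Pool.Agent.LTG
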