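import Pool.Agent.LTG.Alg1
import Pool.Agent.LTG.Alg2
import Pool.Agent.LTG.Alg3
import Pool.Agent.LTG.Sol
import Pool.Agent.LTG.SolE
import Pool.Agent.LTG.Atr
import Pool.Agent.LTG.Int
import Pool.Agent.LTG.Ptw
import Pool.Agent.LTG.Asm

/-!
# The trace inequality for Riccati paths, unconditionally
-/

set_option autoImplicit false

namespace Pool.Agent.LTG

/-- `SolO ∧ SolC ∧ SolD`, all three. -/
theorem sol_all : SolO ∧ SolC ∧ SolD := sol algC algD

/-- Existence of pencil coordinates. -/
theorem solE_all : SolE := solE algB algD algG sol_all.1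

/-- The pointwise inequality. -/
theorem ptw_all : Ptw := ptw algA algB algH linT solE_all sol_all.2.1 sol_all.2.2 intW

/-- The trace inequality `tr H^(2γ) ≤ L_γ ∫ tr V^(γ+1/2)` for Riccati paths, `1/2 < γ < 3/2`. -/
theorem conseq_all : ConseqStmt :=
  conseq algD solE_all sol_all.2.1 sol_all.2.2 linP atrD atrE intK intJ ptw_all

end Pool.Agent.LTG
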